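import Mathlib

set_option autoImplicit false

namespace Pool.Agent.Lib.MP_360b3f_an

open MeasureTheory Set Filter Topology Convolution
open scoped ContDiff

/-- Convolution `f ⋆ ρ`, written out. -/
noncomputable def cv (f ρ : ℝ → ℝ) (x : ℝ) : ℝ := ∫ y, f y * ρ (x - y)

theorem cv_eq (f ρ : ℝ → ℝ) : cv f ρ = (f ⋆[ContinuousLinearMap.mul ℝ ℝ] ρ) := by
  funext x
  rw [convolution_def]
  rfl

theorem bdd_locInt {f : ℝ → ℝ} {C : ℝ} (hf : Measurable f) (hC : ∀ x, |f x| ≤ C) :
    LocallyIntegrable f := by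
  have h1 : LocallyIntegrable (fun _ : ℝ => C) (volume : Measure ℝ) :=
    continuous_const.locallyIntegrable
  exact h1.mono hf.aestronglyMeasurable (Eventually.of_forall fun x => by
    simpa using (hC x).trans (le_abs_self C))

theorem bdd_mul_int {f ρ : ℝ → ℝ} {C : ℝ} (hf : Measurable f) (hC : ∀ x, |f x| ≤ C)
    (hρ : Integrable ρ) : Integrable (fun x => f x * ρ x) :=
  hρ.bdd_mul hf.aestronglyMeasurable (Eventually.of_forall fun x => by simpa using hC x)

theorem cv_hasDerivAt {f ρ : ℝ → ℝ} {C : ℝ} (hf : Measurable f) (hC : ∀ x, |f x| ≤ C)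
    (hρ : ContDiff ℝ ∞ ρ) (hρc : HasCompactSupport ρ) (x : ℝ) :
    HasDerivAt (cv f ρ) (cv f (deriv ρ) x) x := by
  rw [cv_eq, cv_eq]
  exact hρc.hasDerivAt_convolution_right (ContinuousLinearMap.mul ℝ ℝ) (bdd_locInt hf hC)
    (hρ.of_le (by exact_mod_cast le_top)) x

theorem contDiff_deriv {ρ : ℝ → ℝ} (hρ : ContDiff ℝ ∞ ρ) : ContDiff ℝ ∞ (deriv ρ) := by
  have : ContDiff ℝ (∞ + 1) ρ := by simpa using hρ
  exact this.deriv'

theorem cs_deriv {ρ : ℝ → ℝ} (hρ : HasCompactSupport ρ) : HasCompactSupport (deriv ρ) :=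
  hρ.deriv

theorem int_of_cs {ρ : ℝ → ℝ} (hρ : ContDiff ℝ ∞ ρ) (hρc : HasCompactSupport ρ) :
    Integrable ρ := hρ.continuous.integrable_of_hasCompactSupport hρc

theorem cv_continuous {f ρ : ℝ → ℝ} {C : ℝ} (hf : Measurable f) (hC : ∀ x, |f x| ≤ C)
    (hρ : ContDiff ℝ ∞ ρ) (hρc : HasCompactSupport ρ) : Continuous (cv f ρ) :=
  continuous_iff_continuousAt.2 fun x => (cv_hasDerivAt hf hC hρ hρc x).continuousAt

theorem hasDerivAt_flip {f f' : ℝ → ℝ} (h : ∀ x, HasDerivAt f (f' x) x) (x : ℝ) :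
    HasDerivAt (fun y => f (-y)) (-(f' (-x))) x := by
  have h1 := (h (-x)).comp x (hasDerivAt_neg x)
  have h2 : f' (-x) * (-1) = -(f' (-x)) := by ring
  rw [h2] at h1
  exact h1

/-- A bounded function with second derivative bounded below is Lipschitz. -/
theorem deriv_le_sqrt {Q Q' Q'' : ℝ → ℝ} {T : ℝ} (h1 : ∀ x, HasDerivAt Q (Q' x) x)
    (h2 : ∀ x, HasDerivAt Q' (Q'' x) x) (hlow : ∀ x, -1 ≤ Q'' x) (h0 : ∀ x, 0 ≤ Q x)
    (hT : ∀ x, Q x ≤ T) (x₀ : ℝ) : Q' x₀ ≤ Real.sqrt (2 * T) := by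
  by_contra hcon
  push Not at hcon
  set m := Q' x₀ with hm
  have hT0 : 0 ≤ T := (h0 0).trans (hT 0)
  have hmpos : 0 < m := lt_of_le_of_lt (Real.sqrt_nonneg _) hcon
  -- Q' x + x is monotone
  have hmono : Monotone (fun x => Q' x + x) := by
    apply monotone_of_deriv_nonneg
    · intro x; exact ((h2 x).add (hasDerivAt_id x)).differentiableAt
    · intro x
      have := ((h2 x).add (hasDerivAt_id x)).deriv
      have h3 : deriv (fun x => Q' x + x) x = Q'' x + 1 := this
      rw [h3]; linarith [hlow x]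
  -- F x = Q x - (m (x-x₀) - (x-x₀)^2/2) monotone on [x₀, ∞)
  have hF : MonotoneOn (fun x => Q x - (m * (x - x₀) - (x - x₀) ^ 2 / 2)) (Ici x₀) := by
    have hd : ∀ x, HasDerivAt (fun x => Q x - (m * (x - x₀) - (x - x₀) ^ 2 / 2))
        (Q' x - (m - (x - x₀))) x := by
      intro x
      have e1 : HasDerivAt (fun x : ℝ => x - x₀) 1 x := (hasDerivAt_id x).sub_const x₀
      have e2 : HasDerivAt (fun x : ℝ => m * (x - x₀)) m x := by simpa using e1.const_mul m
      have e3 : HasDerivAt (fun x : ℝ => (x - x₀) ^ 2 / 2) (x - x₀) x := by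
        have := (e1.fun_pow 2).div_const 2
        have e4 : (↑2 * (x - x₀) ^ (2 - 1) * 1) / 2 = x - x₀ := by
          norm_num
        simpa using this
      exact (h1 x).sub (e2.sub e3)
    apply monotoneOn_of_deriv_nonneg (convex_Ici x₀)
    · exact fun x _ => (hd x).continuousAt.continuousWithinAt
    · exact fun x _ => (hd x).differentiableAt.differentiableWithinAt
    · intro x hx
      rw [interior_Ici] at hx
      rw [(hd x).deriv]
      have := hmono (le_of_lt hx : x₀ ≤ x)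
      linarith
  have h3 := hF (show x₀ ∈ Ici x₀ from self_mem_Ici)
    (show x₀ + m ∈ Ici x₀ by simp only [mem_Ici]; linarith) (by linarith)
  simp only [sub_self, mul_zero, add_sub_cancel_left] at h3
  have h4 := h0 x₀
  have h5 := hT (x₀ + m)
  have h6 : 2 * T < m ^ 2 := by
    have := Real.lt_sq_of_sqrt_lt hcon
    exact this
  nlinarith

theorem abs_deriv_le_sqrt {Q Q' Q'' : ℝ → ℝ} {T : ℝ} (h1 : ∀ x, HasDerivAt Q (Q' x) x)
    (h2 : ∀ x, HasDerivAt Q' (Q'' x) x) (hlow : ∀ x, -1 ≤ Q'' x) (h0 : ∀ x, 0 ≤ Q x)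
    (hT : ∀ x, Q x ≤ T) (x₀ : ℝ) : |Q' x₀| ≤ Real.sqrt (2 * T) := by
  rw [abs_le']
  refine ⟨deriv_le_sqrt h1 h2 hlow h0 hT x₀, ?_⟩
  have h1' : ∀ x, HasDerivAt (fun y => Q (-y)) (-(Q' (-x))) x := hasDerivAt_flip h1
  have h2' : ∀ x, HasDerivAt (fun y => -(Q' (-y))) (Q'' (-x)) x := by
    intro x
    have := (hasDerivAt_flip h2 x).neg
    rw [neg_neg] at this
    exact this
  have := deriv_le_sqrt h1' h2' (fun x => hlow (-x)) (fun x => h0 (-x)) (fun x => hT (-x)) (-x₀)
  simpa using this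

theorem abs_sub_le_sqrt {Q Q' Q'' : ℝ → ℝ} {T : ℝ} (h1 : ∀ x, HasDerivAt Q (Q' x) x)
    (h2 : ∀ x, HasDerivAt Q' (Q'' x) x) (hlow : ∀ x, -1 ≤ Q'' x) (h0 : ∀ x, 0 ≤ Q x)
    (hT : ∀ x, Q x ≤ T) (x y : ℝ) : |Q x - Q y| ≤ Real.sqrt (2 * T) * |x - y| := by
  have := Convex.norm_image_sub_le_of_norm_hasDerivWithin_le (f := Q) (f' := Q')
    (C := Real.sqrt (2 * T)) (s := univ) (x := y) (y := x)
    (fun z _ => (h1 z).hasDerivWithinAt)
    (fun z _ => by simpa using abs_deriv_le_sqrt h1 h2 hlow h0 hT z) convex_univ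
    (mem_univ _) (mem_univ _)
  simpa using this

/-- integral over an interval of a mollification -/
theorem integral_cv_le {f ρ : ℝ → ℝ} {C R : ℝ} (hf : Measurable f) (hC : ∀ x, |f x| ≤ C)
    (hf0 : ∀ x, 0 ≤ f x) (hρ : ContDiff ℝ ∞ ρ) (hρc : HasCompactSupport ρ)
    (hρ0 : ∀ x, 0 ≤ ρ x) (hρ1 : ∫ x, ρ x = 1) (hρs : ∀ x, R < |x| → ρ x = 0) (hR : 0 ≤ R) :
    ∫ x in (-R)..R, cv f ρ x ≤ ∫ x in Icc (-(2 * R)) (2 * R), f x := by
  set F : ℝ → ℝ := (Icc (-(2 * R)) (2 * R)).indicator f with hF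
  have hFm : Measurable F := hf.indicator measurableSet_Icc
  have hFint : Integrable F := by
    rw [hF, integrable_indicator_iff measurableSet_Icc]
    exact (bdd_locInt hf hC).integrableOn_isCompact isCompact_Icc
  have hF0 : ∀ x, 0 ≤ F x := fun x => indicator_nonneg (fun x _ => hf0 x) x
  have hρi : Integrable ρ := int_of_cs hρ hρc
  have hcv0 : ∀ x, 0 ≤ cv F ρ x := fun x =>
    integral_nonneg fun y => mul_nonneg (hF0 y) (hρ0 _)
  have hcvi : Integrable (cv F ρ) := by
    rw [cv_eq]; exact hFint.integrable_convolution _ hρi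
  have htot : ∫ x, cv F ρ x = ∫ x in Icc (-(2 * R)) (2 * R), f x := by
    rw [cv_eq, integral_convolution (ContinuousLinearMap.mul ℝ ℝ) hFint hρi]
    simp only [ContinuousLinearMap.mul_apply', hρ1, mul_one]
    rw [hF, integral_indicator measurableSet_Icc]
  have hcongr : ∫ x in (-R)..R, cv f ρ x = ∫ x in (-R)..R, cv F ρ x := by
    apply intervalIntegral.integral_congr
    intro x hx
    rw [uIcc_of_le (by linarith)] at hx
    simp only [cv]
    congr 1
    funext y
    by_cases hy : |x - y| ≤ R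
    · have hx' : |x| ≤ R := abs_le.2 hx
      have : y ∈ Icc (-(2 * R)) (2 * R) := by
        rw [abs_le] at hy hx'
        constructor <;> linarith [hy.1, hy.2, hx'.1, hx'.2]
      rw [hF, indicator_of_mem this]
    · push Not at hy
      rw [hρs _ hy]; simp
  rw [hcongr, ← htot, intervalIntegral.integral_of_le (by linarith)]
  exact setIntegral_le_integral hcvi (Eventually.of_forall hcv0)

/-- The key one-dimensional inequality: if `P'' ≥ -h`, then `P(0)` is controlled by the mean of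
`P` over `[-R,R]` and the integral of `h`. -/
theorem center_le {P P' P'' h : ℝ → ℝ} {R I : ℝ} (hR : 0 < R)
    (h1 : ∀ x, HasDerivAt P (P' x) x) (h2 : ∀ x, HasDerivAt P' (P'' x) x)
    (hP'' : Continuous P'') (hh : Continuous h) (hh0 : ∀ x, 0 ≤ h x)
    (hlow : ∀ x, -h x ≤ P'' x) (hI : ∫ x in (-R)..R, h x ≤ I) :
    2 * R * P 0 ≤ (∫ x in (-R)..R, P x) + R ^ 2 * I := by
  have hPc : Continuous P := continuous_iff_continuousAt.2 fun x => (h1 x).continuousAt
  have hP'c : Continuous P' := continuous_iff_continuousAt.2 fun x => (h2 x).continuousAt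
  -- P'(y) - P'(-y) ≥ -I
  have hstep : ∀ y ∈ Icc (0:ℝ) R, -I ≤ P' y - P' (-y) := by
    intro y hy
    have e1 : ∫ x in (-y)..y, P'' x = P' y - P' (-y) :=
      intervalIntegral.integral_eq_sub_of_hasDerivAt (fun x _ => h2 x) (hP''.intervalIntegrable _ _)
    rw [← e1]
    have e2 : ∫ x in (-y)..y, (-h x) ≤ ∫ x in (-y)..y, P'' x :=
      intervalIntegral.integral_mono_on (by linarith [hy.1]) (hh.neg.intervalIntegrable _ _)
        (hP''.intervalIntegrable _ _) (fun x _ => hlow x)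
    have e3 : ∫ x in (-y)..y, h x ≤ ∫ x in (-R)..R, h x :=
      intervalIntegral.integral_mono_interval (by linarith [hy.2]) (by linarith [hy.1]) hy.2
        (Eventually.of_forall fun x => hh0 x) (hh.intervalIntegrable _ _)
    rw [intervalIntegral.integral_neg] at e2
    linarith
  have hI0 : 0 ≤ I := by
    refine le_trans ?_ hI
    exact intervalIntegral.integral_nonneg (by linarith) (fun x _ => hh0 x)
  -- Φ(y) = P(y) + P(-y) + I y is monotone on [0,R]
  have hmono : MonotoneOn (fun y => P y + P (-y) + I * y) (Icc 0 R) := by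
    have hd : ∀ y, HasDerivAt (fun y => P y + P (-y) + I * y) (P' y + -(P' (-y)) + I) y := by
      intro y
      have e1 : HasDerivAt (fun y => P (-y)) (-(P' (-y))) y := hasDerivAt_flip h1 y
      have e2 : HasDerivAt (fun y : ℝ => I * y) I y := by
        simpa using (hasDerivAt_id y).const_mul I
      exact ((h1 y).add e1).add e2
    apply monotoneOn_of_deriv_nonneg (convex_Icc 0 R)
    · exact fun x _ => (hd x).continuousAt.continuousWithinAt
    · exact fun x _ => (hd x).differentiableAt.differentiableWithinAt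
    · intro y hy
      rw [interior_Icc] at hy
      rw [(hd y).deriv]
      have := hstep y ⟨hy.1.le, hy.2.le⟩
      linarith
  have hpt : ∀ y ∈ Icc (0:ℝ) R, 2 * P 0 - I * R ≤ P y + P (-y) := by
    intro y hy
    have := hmono (show (0:ℝ) ∈ Icc 0 R from ⟨le_rfl, hR.le⟩) hy hy.1
    simp only [neg_zero, mul_zero, add_zero] at this
    have h3 : I * y ≤ I * R := mul_le_mul_of_nonneg_left hy.2 hI0
    linarith
  have hPn : Continuous (fun y => P (-y)) := hPc.comp continuous_neg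
  have hint : ∫ y in (0:ℝ)..R, (2 * P 0 - I * R) ≤ ∫ y in (0:ℝ)..R, (P y + P (-y)) :=
    intervalIntegral.integral_mono_on hR.le intervalIntegrable_const
      ((hPc.add hPn).intervalIntegrable _ _) hpt
  rw [intervalIntegral.integral_const, smul_eq_mul, sub_zero,
    intervalIntegral.integral_add (hPc.intervalIntegrable _ _)
      (hPn.intervalIntegrable _ _)] at hint
  have hflip : ∫ y in (0:ℝ)..R, P (-y) = ∫ y in (-R)..0, P y := by
    rw [intervalIntegral.integral_comp_neg (fun y => P y)]; simp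
  have hsplit : ∫ y in (-R)..R, P y = (∫ y in (-R)..0, P y) + ∫ y in (0:ℝ)..R, P y :=
    (intervalIntegral.integral_add_adjacent_intervals (hPc.intervalIntegrable _ _)
      (hPc.intervalIntegrable _ _)).symm
  rw [hsplit]
  nlinarith [hint, hflip]

end Pool.Agent.Lib.MP_360b3f_an
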