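import Mathlib

set_option autoImplicit false

namespace Pool.Agent.Lib.MP_360b3f_an

open MeasureTheory Set Filter Topology intervalIntegral

/-- bounded measurable on an interval is interval integrable there -/
theorem intervalIntegrable_of_bdd {F : ℝ → ℝ} {T C : ℝ}
    (hF : Measurable F) (hFC : ∀ s ∈ Icc (0:ℝ) T, |F s| ≤ C) {a b : ℝ}
    (ha : a ∈ Icc (0:ℝ) T) (hb : b ∈ Icc (0:ℝ) T) : IntervalIntegrable F volume a b := by
  have h1 : IntervalIntegrable (fun _ : ℝ => C) volume a b := intervalIntegrable_const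
  refine IntervalIntegrable.mono_fun h1 hF.aestronglyMeasurable ?_
  refine (ae_restrict_iff' measurableSet_uIoc).2 (Eventually.of_forall fun s hs => ?_)
  have hs' : s ∈ Icc (0:ℝ) T := by
    have : s ∈ uIcc a b := uIoc_subset_uIcc hs
    exact (convex_Icc (0:ℝ) T).ordConnected.uIcc_subset ha hb this
  simpa using le_trans (hFC s hs') (le_abs_self C)

theorem primitive_lipschitz {F V : ℝ → ℝ} {C v0 : ℝ}
    (hF : Measurable F) (hFC : ∀ s, |F s| ≤ C) (hV : ∀ t, V t = v0 + ∫ s in (0:ℝ)..t, F s) :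
    LipschitzWith (Real.toNNReal C) V := by
  have hFi : ∀ a b, IntervalIntegrable F volume a b := by
    intro a b
    refine IntervalIntegrable.mono_fun (g := F) (f := fun _ => C) intervalIntegrable_const
      hF.aestronglyMeasurable ?_
    refine Eventually.of_forall fun s => ?_
    simpa using le_trans (hFC s) (le_abs_self C)
  apply LipschitzWith.of_dist_le_mul
  intro x y
  have hC : 0 ≤ C := le_trans (abs_nonneg _) (hFC 0)
  rw [Real.dist_eq, Real.dist_eq, Real.coe_toNNReal _ hC]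
  have : V x - V y = ∫ s in y..x, F s := by
    rw [hV, hV, add_sub_add_left_eq_sub]
    rw [intervalIntegral.integral_interval_sub_left (hFi 0 x) (hFi 0 y)]
  rw [this]
  have h := intervalIntegral.norm_integral_le_of_norm_le_const (a := y) (b := x) (f := F)
    (C := C) (fun s _ => by simpa using hFC s)
  simpa using h

/-- Chain rule for a primitive of a bounded measurable function. -/
theorem comp_primitive_aux {F U Φ Φ' : ℝ → ℝ} {T C : ℝ}
    (hF : Measurable F) (hFC : ∀ s, |F s| ≤ C)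
    (hU : ∀ t ∈ Icc (0:ℝ) T, U t = U 0 + ∫ s in (0:ℝ)..t, F s)
    (hΦ : ∀ y, HasDerivAt Φ (Φ' y) y) (hΦ' : Continuous Φ') :
    ∀ t ∈ Icc (0:ℝ) T, Φ (U t) = Φ (U 0) + ∫ s in (0:ℝ)..t, Φ' (U s) * F s := by
  intro t ht
  have ht0 : 0 ≤ t := ht.1
  have hFi : ∀ a b, IntervalIntegrable F volume a b := by
    intro a b
    refine IntervalIntegrable.mono_fun (g := F) (f := fun _ => C) intervalIntegrable_const
      hF.aestronglyMeasurable ?_
    refine Eventually.of_forall fun s => ?_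
    simpa using le_trans (hFC s) (le_abs_self C)
  set V : ℝ → ℝ := fun t => U 0 + ∫ s in (0:ℝ)..t, F s with hV
  have hVU : ∀ s ∈ Icc (0:ℝ) t, U s = V s := fun s hs => hU s ⟨hs.1, hs.2.trans ht.2⟩
  have hV0 : V 0 = U 0 := by simp [hV]
  -- Lipschitz bound for V
  have hVlip : LipschitzWith (Real.toNNReal C) V := primitive_lipschitz hF hFC (fun t => rfl)
  have hVcont : Continuous V := hVlip.continuous
  have hΦd : ∀ y, DifferentiableAt ℝ Φ y := fun y => (hΦ y).differentiableAt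
  have hΦ1 : ContDiff ℝ 1 Φ := by
    rw [contDiff_one_iff_deriv]
    refine ⟨fun y => hΦd y, ?_⟩
    have : deriv Φ = Φ' := by
      funext y; exact (hΦ y).deriv
    rw [this]; exact hΦ'
  have hWac : AbsolutelyContinuousOnInterval (fun s => Φ (V s)) 0 t := by
    -- Φ is Lipschitz on the compact image
    have hK : IsCompact (V '' (uIcc 0 t)) := isCompact_uIcc.image hVcont
    obtain ⟨R, hR⟩ := hK.isBounded.subset_closedBall 0
    have hΦl : ∃ L, LipschitzOnWith L Φ (Metric.closedBall 0 R) := by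
      have := (hΦ1.contDiffOn (s := Metric.closedBall (0:ℝ) R)).exists_lipschitzOnWith
        (by norm_num) (convex_closedBall _ _) (isCompact_closedBall _ _)
      exact this
    obtain ⟨L, hL⟩ := hΦl
    have : LipschitzOnWith (L * Real.toNNReal C) (Φ ∘ V) (uIcc 0 t) :=
      hL.comp (hVlip.lipschitzOnWith) (fun x hx => hR ⟨x, hx, rfl⟩)
    exact this.absolutelyContinuousOnInterval
  have hftc := hWac.integral_deriv_eq_sub
  have hder : ∀ᵐ s, s ∈ uIcc 0 t → HasDerivAt V (F s) s := by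
    filter_upwards [(hFi 0 t).ae_hasDerivAt_integral] with s hs hs'
    have := hs hs' 0 (by simp)
    simpa [hV] using this.const_add (U 0)
  have hae : ∫ s in (0:ℝ)..t, deriv (fun s => Φ (V s)) s = ∫ s in (0:ℝ)..t, Φ' (U s) * F s := by
    apply intervalIntegral.integral_congr_ae
    filter_upwards [hder] with s hs hs'
    have hs'' : s ∈ uIcc 0 t := uIoc_subset_uIcc hs'
    have h1 : HasDerivAt (fun s => Φ (V s)) (Φ' (V s) * F s) s := (hΦ (V s)).comp s (hs hs'')
    rw [h1.deriv, hVU s (by simpa [uIcc_of_le ht0] using hs'')]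
  rw [hae] at hftc
  have : U t = V t := hVU t ⟨ht0, le_rfl⟩
  rw [this, ← hV0]
  linarith

theorem integral_indicator_Icc {F : ℝ → ℝ} {T t : ℝ} (ht : t ∈ Icc (0:ℝ) T) :
    ∫ s in (0:ℝ)..t, (Icc (0:ℝ) T).indicator F s = ∫ s in (0:ℝ)..t, F s := by
  apply intervalIntegral.integral_congr
  intro s hs
  rw [uIcc_of_le ht.1] at hs
  exact indicator_of_mem (show s ∈ Icc (0:ℝ) T from ⟨hs.1, hs.2.trans ht.2⟩) F

/-- Chain rule for a primitive of a measurable function bounded on `[0,T]`. -/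
theorem comp_primitive {F U Φ Φ' : ℝ → ℝ} {T C : ℝ}
    (hF : Measurable F) (hFC : ∀ s ∈ Icc (0:ℝ) T, |F s| ≤ C)
    (hU : ∀ t ∈ Icc (0:ℝ) T, U t = U 0 + ∫ s in (0:ℝ)..t, F s)
    (hΦ : ∀ y, HasDerivAt Φ (Φ' y) y) (hΦ' : Continuous Φ') :
    ∀ t ∈ Icc (0:ℝ) T, Φ (U t) = Φ (U 0) + ∫ s in (0:ℝ)..t, Φ' (U s) * F s := by
  intro t ht
  have hT : 0 ≤ T := ht.1.trans ht.2
  have hC : 0 ≤ C := le_trans (abs_nonneg _) (hFC 0 ⟨le_rfl, hT⟩)
  have h := comp_primitive_aux (F := (Icc (0:ℝ) T).indicator F) (U := U) (Φ := Φ) (Φ' := Φ')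
    (T := T) (C := C) (hF.indicator measurableSet_Icc) ?_ ?_ hΦ hΦ' t ht
  · rw [h]
    congr 1
    apply intervalIntegral.integral_congr
    intro s hs
    rw [uIcc_of_le ht.1] at hs
    simp only
    rw [indicator_of_mem (show s ∈ Icc (0:ℝ) T from ⟨hs.1, hs.2.trans ht.2⟩) F]
  · intro s
    by_cases hs : s ∈ Icc (0:ℝ) T
    · rw [indicator_of_mem hs]; exact hFC s hs
    · rw [indicator_of_notMem hs]; simpa using hC
  · intro s hs
    rw [integral_indicator_Icc hs]
    exact hU s hs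

/-- continuity of a primitive -/
theorem primitive_continuousOn {F U : ℝ → ℝ} {T C : ℝ}
    (hF : Measurable F) (hFC : ∀ s ∈ Icc (0:ℝ) T, |F s| ≤ C)
    (hU : ∀ t ∈ Icc (0:ℝ) T, U t = U 0 + ∫ s in (0:ℝ)..t, F s) :
    ContinuousOn U (Icc (0:ℝ) T) := by
  rcases le_or_gt 0 T with hT | hT
  · have hC : 0 ≤ C := le_trans (abs_nonneg _) (hFC 0 ⟨le_rfl, hT⟩)
    have h1 : LipschitzWith (Real.toNNReal C)
        (fun t => U 0 + ∫ s in (0:ℝ)..t, (Icc (0:ℝ) T).indicator F s) := by
      apply primitive_lipschitz (hF.indicator measurableSet_Icc) ?_ (fun t => rfl)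
      intro s
      by_cases hs : s ∈ Icc (0:ℝ) T
      · rw [indicator_of_mem hs]; exact hFC s hs
      · rw [indicator_of_notMem hs]; simpa using hC
    refine h1.continuous.continuousOn.congr ?_
    intro t ht
    simp only
    rw [integral_indicator_Icc ht]
    exact hU t ht
  · simp [Icc_eq_empty (not_le.2 hT)]

/-- Lower Gronwall bound in integrated form. -/
theorem gronwall_lower {B b : ℝ → ℝ} {a c T C : ℝ} (ha : 0 ≤ a) (hc : 0 ≤ c)
    (hb : Measurable b) (hbC : ∀ s ∈ Icc (0:ℝ) T, |b s| ≤ C)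
    (hB : ∀ t ∈ Icc (0:ℝ) T, B t = B 0 + ∫ s in (0:ℝ)..t, b s) {t : ℝ} (ht : t ∈ Icc (0:ℝ) T)
    (h : ∀ s ∈ Icc (0:ℝ) t, -(a * B s) - c ≤ b s) :
    Real.exp (-(a * t)) * B 0 - c * t ≤ B t := by
  have ht0 : 0 ≤ t := ht.1
  have hT : 0 ≤ T := ht.1.trans ht.2
  have hC : 0 ≤ C := le_trans (abs_nonneg _) (hbC 0 ⟨le_rfl, hT⟩)
  set b' := (Icc (0:ℝ) T).indicator b with hb'
  have hb'm : Measurable b' := hb.indicator measurableSet_Icc
  have hb'C : ∀ s, |b' s| ≤ C := by
    intro s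
    by_cases hs : s ∈ Icc (0:ℝ) T
    · rw [hb', indicator_of_mem hs]; exact hbC s hs
    · rw [hb', indicator_of_notMem hs]; simpa using hC
  set V : ℝ → ℝ := fun t => B 0 + ∫ s in (0:ℝ)..t, b' s with hV
  have hVB : ∀ s ∈ Icc (0:ℝ) t, B s = V s := by
    intro s hs
    have hs' : s ∈ Icc (0:ℝ) T := ⟨hs.1, hs.2.trans ht.2⟩
    rw [hB s hs', hV]
    simp only
    rw [hb', integral_indicator_Icc hs']
  have hVlip : LipschitzWith (Real.toNNReal C) V := primitive_lipschitz hb'm hb'C (fun t => rfl)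
  have hbi : IntervalIntegrable b' volume 0 t := by
    refine IntervalIntegrable.mono_fun (g := b') (f := fun _ => C) intervalIntegrable_const
      hb'm.aestronglyMeasurable ?_
    refine Eventually.of_forall fun s => ?_
    simpa using le_trans (hb'C s) (le_abs_self C)
  have hder : ∀ᵐ s, s ∈ uIcc 0 t → HasDerivAt V (b' s) s := by
    filter_upwards [hbi.ae_hasDerivAt_integral] with s hs hs'
    have := hs hs' 0 (by simp)
    simpa [hV] using this.const_add (B 0)
  have hE : ∀ s : ℝ, HasDerivAt (fun s => Real.exp (a * s)) (Real.exp (a * s) * a) s := by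
    intro s
    have h1 : HasDerivAt (fun s : ℝ => a * s) a s := by
      simpa using (hasDerivAt_id s).const_mul a
    exact h1.exp
  have hEac : AbsolutelyContinuousOnInterval (fun s => Real.exp (a * s)) 0 t := by
    apply ContDiffOn.absolutelyContinuousOnInterval
    exact (Real.contDiff_exp.comp (contDiff_const.mul contDiff_id)).contDiffOn
  have hVac : AbsolutelyContinuousOnInterval V 0 t :=
    (hVlip.lipschitzOnWith (s := uIcc 0 t)).absolutelyContinuousOnInterval
  have hprod := hEac.integral_deriv_mul_eq_sub hVac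
  have hVcont : Continuous V := hVlip.continuous
  have hlow : ∫ s in (0:ℝ)..t, (-(c * Real.exp (a * t))) ≤
      ∫ s in (0:ℝ)..t, (deriv (fun s => Real.exp (a * s)) s * V s
        + Real.exp (a * s) * deriv V s) := by
    have hcongr : ∫ s in (0:ℝ)..t, (deriv (fun s => Real.exp (a * s)) s * V s
        + Real.exp (a * s) * deriv V s) = ∫ s in (0:ℝ)..t, ((Real.exp (a * s) * a) * V s
        + Real.exp (a * s) * b' s) := by
      apply intervalIntegral.integral_congr_ae
      filter_upwards [hder] with s hs hs'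
      rw [(hE s).deriv, (hs (uIoc_subset_uIcc hs')).deriv]
    rw [hcongr]
    apply intervalIntegral.integral_mono_on ht0 intervalIntegrable_const
    · apply IntervalIntegrable.add
      · apply Continuous.intervalIntegrable
        fun_prop
      · apply hbi.continuousOn_mul
        fun_prop
    · intro s hs
      have hs' : s ∈ Icc (0:ℝ) T := ⟨hs.1, hs.2.trans ht.2⟩
      have h1 := h s hs
      have h2 : b' s = b s := by rw [hb', indicator_of_mem hs']
      rw [h2, ← hVB s hs]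
      have h3 : Real.exp (a * s) ≤ Real.exp (a * t) := by
        apply Real.exp_le_exp.2
        exact mul_le_mul_of_nonneg_left hs.2 ha
      have h4 : 0 < Real.exp (a * s) := Real.exp_pos _
      have h5 : Real.exp (a * s) * a * B s + Real.exp (a * s) * b s
          = Real.exp (a * s) * (b s + a * B s) := by ring
      rw [h5]
      have h6 : -c ≤ b s + a * B s := by linarith
      have h7 : Real.exp (a * s) * (-c) ≤ Real.exp (a * s) * (b s + a * B s) :=
        mul_le_mul_of_nonneg_left h6 h4.le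
      have h8 : c * Real.exp (a * s) ≤ c * Real.exp (a * t) := mul_le_mul_of_nonneg_left h3 hc
      linarith
  rw [hprod] at hlow
  rw [intervalIntegral.integral_const] at hlow
  have hBt : B t = V t := hVB t ⟨ht0, le_rfl⟩
  have hB0 : B 0 = V 0 := hVB 0 ⟨le_rfl, ht0⟩
  simp only [smul_eq_mul, sub_zero, mul_zero, Real.exp_zero, one_mul] at hlow
  rw [hBt, hB0]
  have hpos : 0 < Real.exp (a * t) := Real.exp_pos _
  rw [Real.exp_neg]
  have : Real.exp (a * t) * ((Real.exp (a * t))⁻¹ * V 0 - c * t) ≤ Real.exp (a * t) * V t := by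
    have h9 : Real.exp (a * t) * ((Real.exp (a * t))⁻¹ * V 0 - c * t)
        = V 0 - c * t * Real.exp (a * t) := by
      field_simp
    rw [h9]; linarith
  exact le_of_mul_le_mul_left this hpos

/-- Bootstrapping lemma. -/
theorem bootstrap {D : ℝ → ℝ} {T δ : ℝ} (hδ : 0 < δ) (hD : ContinuousOn D (Icc (0:ℝ) T))
    (hD0 : 0 ≤ D 0)
    (h : ∀ t ∈ Icc (0:ℝ) T, (∀ s ∈ Icc (0:ℝ) t, 0 ≤ D s) → δ ≤ D t) :
    ∀ t ∈ Icc (0:ℝ) T, δ ≤ D t := by
  -- it suffices to show `0 ≤ D` on `[0,T]`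
  suffices hnn : ∀ t ∈ Icc (0:ℝ) T, 0 ≤ D t by
    intro t ht
    exact h t ht (fun s hs => hnn s ⟨hs.1, hs.2.trans ht.2⟩)
  by_contra hcon
  push Not at hcon
  obtain ⟨t₁, ht₁, hneg⟩ := hcon
  -- the set of bad times
  set S : Set ℝ := {s | s ∈ Icc (0:ℝ) t₁ ∧ D s ≤ 0} with hS
  have hD1 : ContinuousOn D (Icc (0:ℝ) t₁) := hD.mono (Icc_subset_Icc le_rfl ht₁.2)
  have hScomp : IsCompact S := by
    have : S = Icc (0:ℝ) t₁ ∩ D ⁻¹' (Iic 0) := by
      ext s; simp [hS]
    rw [this]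
    exact isCompact_Icc.of_isClosed_subset (hD1.preimage_isClosed_of_isClosed isClosed_Icc
      isClosed_Iic) inter_subset_left
  have hSne : S.Nonempty := ⟨t₁, ⟨ht₁.1, le_rfl⟩, hneg.le⟩
  obtain ⟨s₀, hs₀S, hs₀min⟩ := hScomp.exists_isLeast hSne
  have hs₀ : s₀ ∈ Icc (0:ℝ) T := ⟨hs₀S.1.1, hs₀S.1.2.trans ht₁.2⟩
  have hpos : ∀ s ∈ Icc (0:ℝ) s₀, s < s₀ → 0 < D s := by
    intro s hs hlt
    by_contra hle
    push Not at hle
    have : s₀ ≤ s := hs₀min ⟨⟨hs.1, hlt.le.trans hs₀S.1.2⟩, hle⟩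
    linarith
  -- D s₀ ≥ 0 by continuity
  have hDs₀ : 0 ≤ D s₀ := by
    rcases eq_or_lt_of_le hs₀.1 with h0 | h0
    · rw [← h0]; exact hD0
    · have hcw : ContinuousWithinAt D (Iio s₀ ∩ Icc 0 s₀) s₀ :=
        (hD s₀ hs₀).mono (fun x hx => ⟨hx.2.1, hx.2.2.trans hs₀.2⟩)
      have hne : (𝓝[Iio s₀ ∩ Icc 0 s₀] s₀).NeBot := by
        have : 𝓝[Iio s₀ ∩ Icc 0 s₀] s₀ = 𝓝[<] s₀ := by
          apply nhdsWithin_eq_nhdsWithin (s := Ioi 0) h0 isOpen_Ioi
          ext x
          simp only [mem_inter_iff, mem_Iio, mem_Icc, mem_Ioi]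
          constructor
          · rintro ⟨⟨h1, h2, h3⟩, h4⟩; exact ⟨h1, h4⟩
          · rintro ⟨h1, h4⟩; exact ⟨⟨h1, h4.le, h1.le⟩, h4⟩
        rw [this]; infer_instance
      refine ge_of_tendsto hcw ?_
      filter_upwards [self_mem_nhdsWithin] with x hx
      exact (hpos x hx.2 hx.1).le
  have hnn0 : ∀ s ∈ Icc (0:ℝ) s₀, 0 ≤ D s := by
    intro s hs
    rcases eq_or_lt_of_le hs.2 with h1 | h1
    · rw [h1]; exact hDs₀
    · exact (hpos s hs h1).le
  have := h s₀ hs₀ hnn0
  have h2 : D s₀ ≤ 0 := hs₀S.2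
  linarith

end Pool.Agent.Lib.MP_360b3f_an
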