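import Mathlib
import Pool.Agent.Lib.MP_360b3f_an.ODE

set_option autoImplicit false

namespace Pool.Agent.Lib.MP_360b3f_an

open MeasureTheory Set Filter Topology intervalIntegral

/-- A trajectory `U' = g - k U + v e^U` on `[0,T]` (integrated form), with `0 ≤ g ≤ G`,
`0 ≤ v ≤ 1`, `0 ≤ U ≤ M`. -/
structure Traj (k G M T : ℝ) (g v U : ℝ → ℝ) : Prop where
  mg : Measurable g
  mv : Measurable v
  mU : Measurable U
  g0 : ∀ s ∈ Icc (0:ℝ) T, 0 ≤ g s
  gG : ∀ s ∈ Icc (0:ℝ) T, g s ≤ G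
  v0 : ∀ s ∈ Icc (0:ℝ) T, 0 ≤ v s
  v1 : ∀ s ∈ Icc (0:ℝ) T, v s ≤ 1
  U0 : ∀ s ∈ Icc (0:ℝ) T, 0 ≤ U s
  UM : ∀ s ∈ Icc (0:ℝ) T, U s ≤ M
  eq : ∀ t ∈ Icc (0:ℝ) T, U t = U 0 + ∫ s in (0:ℝ)..t, (g s - k * U s + v s * Real.exp (U s))

variable {k G M T : ℝ} {g v U : ℝ → ℝ}

namespace Traj

theorem bdd (h : Traj k G M T g v U) (hk : 0 ≤ k) :
    ∀ s ∈ Icc (0:ℝ) T, |g s - k * U s + v s * Real.exp (U s)| ≤ G + k * M + Real.exp M := by
  intro s hs
  have h1 := h.g0 s hs
  have h2 := h.gG s hs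
  have h3 := h.v0 s hs
  have h4 := h.v1 s hs
  have h5 := h.U0 s hs
  have h6 := h.UM s hs
  have h7 : Real.exp (U s) ≤ Real.exp M := Real.exp_le_exp.2 h6
  have h8 : 0 < Real.exp (U s) := Real.exp_pos _
  have h9 : v s * Real.exp (U s) ≤ Real.exp M := by
    calc v s * Real.exp (U s) ≤ 1 * Real.exp (U s) := by gcongr
      _ ≤ Real.exp M := by linarith
  have h10 : 0 ≤ v s * Real.exp (U s) := by positivity
  have h11 : k * U s ≤ k * M := mul_le_mul_of_nonneg_left h6 hk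
  have h12 : 0 ≤ k * U s := by positivity
  have h13 : 0 ≤ G := h1.trans h2
  rw [abs_le]
  constructor <;> linarith

theorem meas (h : Traj k G M T g v U) :
    Measurable (fun s => g s - k * U s + v s * Real.exp (U s)) := by
  have := h.mg; have := h.mv; have := h.mU
  fun_prop

theorem cont (h : Traj k G M T g v U) (hk : 0 ≤ k) : ContinuousOn U (Icc (0:ℝ) T) :=
  primitive_continuousOn h.meas (h.bdd hk) h.eq

/-- the equation for `Z = e^{-U}` -/
theorem Z_eq (h : Traj k G M T g v U) (hk : 0 ≤ k) : ∀ t ∈ Icc (0:ℝ) T,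
    Real.exp (-(U t)) = Real.exp (-(U 0)) + ∫ s in (0:ℝ)..t,
      (-(v s) - g s * Real.exp (-(U s)) + k * (U s * Real.exp (-(U s)))) := by
  intro t ht
  have h1 := comp_primitive (Φ := fun y => Real.exp (-y)) (Φ' := fun y => -Real.exp (-y))
    h.meas (h.bdd hk) h.eq (fun y => by
      have : HasDerivAt (fun y : ℝ => -y) (-1) y := (hasDerivAt_id y).neg
      simpa using this.exp) (by fun_prop) t ht
  rw [h1]
  congr 1
  apply intervalIntegral.integral_congr
  intro s _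
  simp only
  have : Real.exp (-(U s)) * Real.exp (U s) = 1 := by
    rw [← Real.exp_add]; simp
  calc -Real.exp (-(U s)) * (g s - k * U s + v s * Real.exp (U s))
      = -(v s) * (Real.exp (-(U s)) * Real.exp (U s)) - g s * Real.exp (-(U s))
        + k * (U s * Real.exp (-(U s))) := by ring
    _ = _ := by rw [this]; ring

theorem exp_neg_le_one (h : Traj k G M T g v U) {s : ℝ} (hs : s ∈ Icc (0:ℝ) T) :
    Real.exp (-(U s)) ≤ 1 := by
  have := h.U0 s hs
  rw [Real.exp_le_one_iff]; linarith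

theorem _root_.Pool.Agent.Lib.MP_360b3f_an.mul_exp_neg_le_one (y : ℝ) :
    y * Real.exp (-y) ≤ 1 := by
  have h1 : y ≤ Real.exp y := by linarith [Real.add_one_le_exp y]
  have h2 : 0 < Real.exp y := Real.exp_pos _
  rw [Real.exp_neg, ← div_eq_mul_inv, div_le_one h2]
  exact h1

theorem _root_.Pool.Agent.Lib.MP_360b3f_an.mul_exp_neg_le_sqrt (y : ℝ) (hy : 0 ≤ y) :
    y * Real.exp (-y) ≤ Real.sqrt (Real.exp (-y)) := by
  rw [Real.sqrt_eq_rpow, ← Real.exp_mul]
  have h1 : y ≤ Real.exp (y / 2) := by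
    have := Real.quadratic_le_exp_of_nonneg (x := y / 2) (by linarith)
    nlinarith [sq_nonneg (y - 2)]
  have h2 : Real.exp (-y * (1 / 2)) = Real.exp (y / 2) * Real.exp (-y) := by
    rw [← Real.exp_add]; congr 1; ring
  rw [h2]
  exact mul_le_mul_of_nonneg_right h1 (Real.exp_pos _).le

/-- integrability of the pieces -/
theorem int_v (h : Traj k G M T g v U) {t : ℝ} (ht : t ∈ Icc (0:ℝ) T) :
    IntervalIntegrable v volume 0 t := by
  have hT : 0 ≤ T := ht.1.trans ht.2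
  exact intervalIntegrable_of_bdd (C := 1) h.mv
    (fun s hs => abs_le.2 ⟨by linarith [h.v0 s hs], h.v1 s hs⟩) ⟨le_rfl, hT⟩ ht

theorem int_g (h : Traj k G M T g v U) {t : ℝ} (ht : t ∈ Icc (0:ℝ) T) :
    IntervalIntegrable g volume 0 t := by
  have hT : 0 ≤ T := ht.1.trans ht.2
  exact intervalIntegrable_of_bdd (C := G) h.mg
    (fun s hs => abs_le.2 ⟨by linarith [h.g0 s hs, h.gG s hs], h.gG s hs⟩) ⟨le_rfl, hT⟩ ht

theorem int_U (h : Traj k G M T g v U) {t : ℝ} (ht : t ∈ Icc (0:ℝ) T) :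
    IntervalIntegrable U volume 0 t := by
  have hT : 0 ≤ T := ht.1.trans ht.2
  exact intervalIntegrable_of_bdd (C := M) h.mU
    (fun s hs => abs_le.2 ⟨by linarith [h.U0 s hs, h.UM s hs], h.UM s hs⟩) ⟨le_rfl, hT⟩ ht

theorem int_gZ (h : Traj k G M T g v U) {t : ℝ} (ht : t ∈ Icc (0:ℝ) T) :
    IntervalIntegrable (fun s => g s * Real.exp (-(U s))) volume 0 t := by
  have hT : 0 ≤ T := ht.1.trans ht.2
  refine intervalIntegrable_of_bdd (T := T) (C := G) ?_ ?_ ⟨le_rfl, hT⟩ ht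
  · have := h.mg; have := h.mU; fun_prop
  · intro s hs
    have h1 := h.exp_neg_le_one hs
    have h2 := h.g0 s hs
    have h3 := h.gG s hs
    have h4 := Real.exp_pos (-(U s))
    rw [abs_of_nonneg (by positivity)]
    calc g s * Real.exp (-(U s)) ≤ g s * 1 := by gcongr
      _ ≤ G := by linarith

theorem int_UZ (h : Traj k G M T g v U) {t : ℝ} (ht : t ∈ Icc (0:ℝ) T) :
    IntervalIntegrable (fun s => U s * Real.exp (-(U s))) volume 0 t := by
  have hT : 0 ≤ T := ht.1.trans ht.2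
  refine intervalIntegrable_of_bdd (T := T) (C := 1) ?_ ?_ ⟨le_rfl, hT⟩ ht
  · have := h.mU; fun_prop
  · intro s hs
    have h2 := h.U0 s hs
    rw [abs_of_nonneg (by positivity)]
    exact mul_exp_neg_le_one _

theorem int_vexp (h : Traj k G M T g v U) {t : ℝ} (ht : t ∈ Icc (0:ℝ) T) :
    IntervalIntegrable (fun s => v s * Real.exp (U s)) volume 0 t := by
  have hT : 0 ≤ T := ht.1.trans ht.2
  refine intervalIntegrable_of_bdd (T := T) (C := Real.exp M) ?_ ?_ ⟨le_rfl, hT⟩ ht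
  · have := h.mU; have := h.mv; fun_prop
  · intro s hs
    have h1 := h.v0 s hs
    have h2 := h.v1 s hs
    rw [abs_of_nonneg (by positivity)]
    calc v s * Real.exp (U s) ≤ 1 * Real.exp (U s) := by gcongr
      _ ≤ Real.exp M := by rw [one_mul]; exact Real.exp_le_exp.2 (h.UM s hs)

/-- split form of the `Z` equation -/
theorem Z_eq' (h : Traj k G M T g v U) (hk : 0 ≤ k) {t : ℝ} (ht : t ∈ Icc (0:ℝ) T) :
    Real.exp (-(U t)) = Real.exp (-(U 0)) - (∫ s in (0:ℝ)..t, v s)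
      - (∫ s in (0:ℝ)..t, g s * Real.exp (-(U s)))
      + k * ∫ s in (0:ℝ)..t, U s * Real.exp (-(U s)) := by
  rw [h.Z_eq hk t ht]
  have h1 := h.int_v ht
  have h2 := h.int_gZ ht
  have h3 := h.int_UZ ht
  have h1' : IntervalIntegrable (fun s => -(v s)) volume 0 t := h1.neg
  rw [intervalIntegral.integral_add (h1'.sub h2) (h3.const_mul k),
    intervalIntegral.integral_sub h1' h2, intervalIntegral.integral_const_mul,
    intervalIntegral.integral_neg]
  ring

theorem Z_le (h : Traj k G M T g v U) (hk : 0 ≤ k) {t : ℝ} (ht : t ∈ Icc (0:ℝ) T) :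
    Real.exp (-(U t)) ≤ Real.exp (-(U 0)) + k * T := by
  have hT : 0 ≤ T := ht.1.trans ht.2
  rw [h.Z_eq' hk ht]
  have h1 : 0 ≤ ∫ s in (0:ℝ)..t, v s :=
    intervalIntegral.integral_nonneg ht.1 (fun s hs => h.v0 s ⟨hs.1, hs.2.trans ht.2⟩)
  have h2 : 0 ≤ ∫ s in (0:ℝ)..t, g s * Real.exp (-(U s)) :=
    intervalIntegral.integral_nonneg ht.1 (fun s hs =>
      mul_nonneg (h.g0 s ⟨hs.1, hs.2.trans ht.2⟩) (Real.exp_pos _).le)
  have h3 : ∫ s in (0:ℝ)..t, U s * Real.exp (-(U s)) ≤ ∫ s in (0:ℝ)..t, (1:ℝ) :=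
    intervalIntegral.integral_mono_on ht.1 (h.int_UZ ht) intervalIntegrable_const
      (fun s _ => mul_exp_neg_le_one _)
  have h4 : k * (∫ s in (0:ℝ)..t, U s * Real.exp (-(U s))) ≤ k * T := by
    apply mul_le_mul_of_nonneg_left _ hk
    refine h3.trans ?_
    simp [ht.2]
  linarith

theorem q_le (h : Traj k G M T g v U) (hk : 0 ≤ k) (hT : 0 ≤ T) :
    ∫ s in (0:ℝ)..T, v s ≤ Real.exp (-(U 0))
      + k * T * Real.sqrt (Real.exp (-(U 0)) + k * T) := by
  have ht : T ∈ Icc (0:ℝ) T := ⟨hT, le_rfl⟩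
  have h0 := h.Z_eq' hk ht
  have h2 : 0 ≤ ∫ s in (0:ℝ)..T, g s * Real.exp (-(U s)) :=
    intervalIntegral.integral_nonneg ht.1 (fun s hs =>
      mul_nonneg (h.g0 s ⟨hs.1, hs.2.trans ht.2⟩) (Real.exp_pos _).le)
  have h3 : ∫ s in (0:ℝ)..T, U s * Real.exp (-(U s)) ≤
      ∫ s in (0:ℝ)..T, Real.sqrt (Real.exp (-(U 0)) + k * T) :=
    intervalIntegral.integral_mono_on ht.1 (h.int_UZ ht) intervalIntegrable_const
      (fun s hs => by
        refine (mul_exp_neg_le_sqrt _ (h.U0 s hs)).trans ?_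
        exact Real.sqrt_le_sqrt (h.Z_le hk hs))
  rw [intervalIntegral.integral_const, sub_zero, smul_eq_mul] at h3
  have h4 := mul_le_mul_of_nonneg_left h3 hk
  have h5 := Real.exp_pos (-(U T))
  linarith

theorem Z_ge (h : Traj k G M T g v U) (hk : 0 ≤ k) {t : ℝ} (ht : t ∈ Icc (0:ℝ) T) :
    Real.exp (-(U 0)) - T - G * T * (Real.exp (-(U 0)) + k * T) ≤ Real.exp (-(U t)) := by
  have hT : 0 ≤ T := ht.1.trans ht.2
  have hG : 0 ≤ G := (h.g0 0 ⟨le_rfl, hT⟩).trans (h.gG 0 ⟨le_rfl, hT⟩)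
  rw [h.Z_eq' hk ht]
  have h1 : ∫ s in (0:ℝ)..t, v s ≤ ∫ s in (0:ℝ)..t, (1:ℝ) :=
    intervalIntegral.integral_mono_on ht.1 (h.int_v ht) intervalIntegrable_const
      (fun s hs => h.v1 s ⟨hs.1, hs.2.trans ht.2⟩)
  have h1' : ∫ s in (0:ℝ)..t, v s ≤ T := by
    refine h1.trans ?_
    simp [ht.2]
  have h2 : ∫ s in (0:ℝ)..t, g s * Real.exp (-(U s)) ≤
      ∫ s in (0:ℝ)..t, G * (Real.exp (-(U 0)) + k * T) :=
    intervalIntegral.integral_mono_on ht.1 (h.int_gZ ht) intervalIntegrable_const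
      (fun s hs => by
        have hs' : s ∈ Icc (0:ℝ) T := ⟨hs.1, hs.2.trans ht.2⟩
        exact mul_le_mul (h.gG s hs') (h.Z_le hk hs') (Real.exp_pos _).le hG)
  rw [intervalIntegral.integral_const, sub_zero, smul_eq_mul] at h2
  have h3 : 0 ≤ ∫ s in (0:ℝ)..t, U s * Real.exp (-(U s)) :=
    intervalIntegral.integral_nonneg ht.1 (fun s hs =>
      mul_nonneg (h.U0 s ⟨hs.1, hs.2.trans ht.2⟩) (Real.exp_pos _).le)
  have h4 : 0 ≤ k * ∫ s in (0:ℝ)..t, U s * Real.exp (-(U s)) := mul_nonneg hk h3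
  have h5 : t * (G * (Real.exp (-(U 0)) + k * T)) ≤ T * (G * (Real.exp (-(U 0)) + k * T)) := by
    apply mul_le_mul_of_nonneg_right ht.2
    have := Real.exp_pos (-(U 0))
    positivity
  have h6 : T * (G * (Real.exp (-(U 0)) + k * T)) = G * T * (Real.exp (-(U 0)) + k * T) := by ring
  linarith

theorem H_le_of_U_le (h : Traj k G M T g v U) (hk : 0 ≤ k) (hT : 0 ≤ T) {l : ℝ}
    (hl : ∀ s ∈ Icc (0:ℝ) T, U s ≤ l) :
    ∫ s in (0:ℝ)..T, v s * Real.exp (U s) ≤ (1 + k * T) * l := by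
  have ht : T ∈ Icc (0:ℝ) T := ⟨hT, le_rfl⟩
  have h0 := h.eq T ht
  rw [intervalIntegral.integral_add ((h.int_g ht).sub ((h.int_U ht).const_mul k))
    (h.int_vexp ht), intervalIntegral.integral_sub (h.int_g ht) ((h.int_U ht).const_mul k),
    intervalIntegral.integral_const_mul] at h0
  have h1 : 0 ≤ ∫ s in (0:ℝ)..T, g s :=
    intervalIntegral.integral_nonneg hT (fun s hs => h.g0 s hs)
  have h2 : ∫ s in (0:ℝ)..T, U s ≤ ∫ s in (0:ℝ)..T, l :=
    intervalIntegral.integral_mono_on hT (h.int_U ht) intervalIntegrable_const hl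
  rw [intervalIntegral.integral_const, sub_zero, smul_eq_mul] at h2
  have h3 := mul_le_mul_of_nonneg_left h2 hk
  have h4 := hl T ht
  have h5 := h.U0 0 ⟨le_rfl, hT⟩
  nlinarith

theorem H_le_of_Z_ge (h : Traj k G M T g v U) (hT : 0 ≤ T) {z : ℝ} (hz : 0 < z)
    (hZ : ∀ s ∈ Icc (0:ℝ) T, z ≤ Real.exp (-(U s))) :
    ∫ s in (0:ℝ)..T, v s * Real.exp (U s) ≤ T / z := by
  have ht : T ∈ Icc (0:ℝ) T := ⟨hT, le_rfl⟩
  have h1 : ∫ s in (0:ℝ)..T, v s * Real.exp (U s) ≤ ∫ s in (0:ℝ)..T, 1 / z :=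
    intervalIntegral.integral_mono_on hT (h.int_vexp ht) intervalIntegrable_const
      (fun s hs => by
        have h2 := hZ s hs
        have h3 : Real.exp (U s) ≤ 1 / z := by
          rw [Real.exp_neg] at h2
          rw [le_div_iff₀ hz]
          have h4 := Real.exp_pos (U s)
          calc Real.exp (U s) * z ≤ Real.exp (U s) * (Real.exp (U s))⁻¹ := by gcongr
            _ = 1 := by field_simp
        calc v s * Real.exp (U s) ≤ 1 * Real.exp (U s) := by
              gcongr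
              exact h.v1 s hs
          _ ≤ 1 / z := by linarith)
  refine h1.trans ?_
  rw [intervalIntegral.integral_const, sub_zero, smul_eq_mul]
  apply le_of_eq; ring

end Traj

theorem psi_mono {a b : ℝ} (ha : 0 ≤ a) (hab : a ≤ b) :
    -(Real.exp (-a) - Real.exp (-b)) ≤ a * Real.exp (-a) - b * Real.exp (-b) := by
  -- `(1+y)e^{-y}` is antitone on `[0,∞)`
  have hanti : AntitoneOn (fun y : ℝ => (1 + y) * Real.exp (-y)) (Ici 0) := by
    apply antitoneOn_of_deriv_nonpos (convex_Ici 0)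
    · fun_prop
    · fun_prop
    · intro y hy
      rw [interior_Ici] at hy
      have h1 : HasDerivAt (fun y : ℝ => (1 + y) * Real.exp (-y))
          (1 * Real.exp (-y) + (1 + y) * (Real.exp (-y) * (-1))) y := by
        have h2 : HasDerivAt (fun y : ℝ => 1 + y) 1 y := by
          simpa using (hasDerivAt_id y).const_add 1
        have h3 : HasDerivAt (fun y : ℝ => -y) (-1) y := (hasDerivAt_id y).neg
        exact h2.mul h3.exp
      rw [h1.deriv]
      have := Real.exp_pos (-y)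
      have hy' : (0:ℝ) < y := hy
      nlinarith [mul_pos hy' this]
  have := hanti (show a ∈ Ici (0:ℝ) from ha) (show b ∈ Ici (0:ℝ) from ha.trans hab) hab
  simp only at this
  nlinarith

/-- Comparison of two trajectories. -/
theorem Traj.compare {k G M T : ℝ} {g₁ v₁ U₁ g₂ v₂ U₂ : ℝ → ℝ}
    (h₁ : Traj k G M T g₁ v₁ U₁) (h₂ : Traj k G M T g₂ v₂ U₂) (hk : 0 ≤ k)
    {Λ δ η : ℝ} (hΛ : 0 ≤ Λ) (hδ : 0 ≤ δ) (hη : 0 < η)
    (hg : ∀ s ∈ Icc (0:ℝ) T, |g₁ s - g₂ s| ≤ Λ)
    (hq : ∀ t ∈ Icc (0:ℝ) T, |(∫ s in (0:ℝ)..t, v₁ s) - ∫ s in (0:ℝ)..t, v₂ s| ≤ δ)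
    (hT : (G + k) * T ≤ 1 / 2)
    (hD : 2 * (η + δ + (Λ + (G + k) * δ) * T) ≤ Real.exp (-(U₁ 0)) - Real.exp (-(U₂ 0))) :
    ∀ t ∈ Icc (0:ℝ) T, η ≤ Real.exp (-(U₁ t)) - Real.exp (-(U₂ t)) := by
  rcases lt_or_ge T 0 with hTneg | hT0
  · intro t ht; exact absurd (ht.1.trans ht.2) (not_le.2 hTneg)
  have hG : 0 ≤ G := (h₁.g0 0 ⟨le_rfl, hT0⟩).trans (h₁.gG 0 ⟨le_rfl, hT0⟩)
  have hcont1 : ContinuousOn U₁ (Icc (0:ℝ) T) := h₁.cont hk
  have hcont2 : ContinuousOn U₂ (Icc (0:ℝ) T) := h₂.cont hk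
  apply bootstrap hη
  · fun_prop
  · have : 0 ≤ η + δ + (Λ + (G + k) * δ) * T := by positivity
    linarith
  · intro t ht hnn
    set b : ℝ → ℝ := fun s => (-(g₁ s * Real.exp (-(U₁ s))) + k * (U₁ s * Real.exp (-(U₁ s))))
      - (-(g₂ s * Real.exp (-(U₂ s))) + k * (U₂ s * Real.exp (-(U₂ s)))) with hb
    set B : ℝ → ℝ := fun t => (Real.exp (-(U₁ t)) - Real.exp (-(U₂ t)))
      + ((∫ s in (0:ℝ)..t, v₁ s) - ∫ s in (0:ℝ)..t, v₂ s) with hB
    have hbm : Measurable b := by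
      have := h₁.mg; have := h₁.mU; have := h₂.mg; have := h₂.mU
      rw [hb]; fun_prop
    have hone : ∀ {g v U : ℝ → ℝ}, Traj k G M T g v U → ∀ s ∈ Icc (0:ℝ) T,
        |(-(g s * Real.exp (-(U s))) + k * (U s * Real.exp (-(U s))))| ≤ G + k := by
      intro g v U h s hs
      have e1 := h.exp_neg_le_one hs
      have e2 := Real.exp_pos (-(U s))
      have e3 := h.g0 s hs
      have e4 := h.gG s hs
      have e5 := h.U0 s hs
      have e6 := mul_exp_neg_le_one (U s)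
      have e7 : g s * Real.exp (-(U s)) ≤ G := by
        calc g s * Real.exp (-(U s)) ≤ g s * 1 := by gcongr
          _ ≤ G := by linarith
      have e8 : 0 ≤ g s * Real.exp (-(U s)) := by positivity
      have e9 : 0 ≤ U s * Real.exp (-(U s)) := by positivity
      have e10 : k * (U s * Real.exp (-(U s))) ≤ k * 1 := mul_le_mul_of_nonneg_left e6 hk
      have e11 : 0 ≤ k * (U s * Real.exp (-(U s))) := by positivity
      rw [abs_le]
      constructor <;> linarith
    have hbC : ∀ s ∈ Icc (0:ℝ) T, |b s| ≤ 2 * (G + k) := by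
      intro s hs
      have e1 := hone h₁ s hs
      have e2 := hone h₂ s hs
      rw [hb]
      simp only
      refine (abs_sub _ _).trans ?_
      linarith
    have hBeq : ∀ t ∈ Icc (0:ℝ) T, B t = B 0 + ∫ s in (0:ℝ)..t, b s := by
      intro r hr
      have e1 := h₁.Z_eq' hk hr
      have e2 := h₂.Z_eq' hk hr
      have i1 : IntervalIntegrable (fun s => -(g₁ s * Real.exp (-(U₁ s)))) volume 0 r :=
        (h₁.int_gZ hr).neg
      have i2 : IntervalIntegrable (fun s => -(g₂ s * Real.exp (-(U₂ s)))) volume 0 r :=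
        (h₂.int_gZ hr).neg
      have e3 : ∫ s in (0:ℝ)..r, b s = (-(∫ s in (0:ℝ)..r, g₁ s * Real.exp (-(U₁ s)))
          + k * ∫ s in (0:ℝ)..r, U₁ s * Real.exp (-(U₁ s)))
          - (-(∫ s in (0:ℝ)..r, g₂ s * Real.exp (-(U₂ s)))
          + k * ∫ s in (0:ℝ)..r, U₂ s * Real.exp (-(U₂ s))) := by
        rw [hb]
        rw [intervalIntegral.integral_sub (i1.add ((h₁.int_UZ hr).const_mul k))
          (i2.add ((h₂.int_UZ hr).const_mul k)),
          intervalIntegral.integral_add i1 ((h₁.int_UZ hr).const_mul k),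
          intervalIntegral.integral_add i2 ((h₂.int_UZ hr).const_mul k),
          intervalIntegral.integral_neg, intervalIntegral.integral_neg,
          intervalIntegral.integral_const_mul, intervalIntegral.integral_const_mul]
      rw [e3, hB]
      simp only [intervalIntegral.integral_same, sub_self, add_zero]
      linarith
    have hgr := gronwall_lower (B := B) (b := b) (a := G + k) (c := Λ + (G + k) * δ) (T := T)
      (C := 2 * (G + k)) (by positivity) (by positivity) hbm hbC hBeq ht ?_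
    · have hB0 : B 0 = Real.exp (-(U₁ 0)) - Real.exp (-(U₂ 0)) := by
        rw [hB]; simp
      have hBt : B t ≤ (Real.exp (-(U₁ t)) - Real.exp (-(U₂ t))) + δ := by
        have := hq t ht
        rw [abs_le] at this
        rw [hB]; simp only; linarith [this.2]
      rw [hB0] at hgr
      have hexp : 1 / 2 ≤ Real.exp (-((G + k) * t)) := by
        have e1 : (G + k) * t ≤ (G + k) * T := mul_le_mul_of_nonneg_left ht.2 (by positivity)
        have e2 := Real.add_one_le_exp (-((G + k) * t))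
        linarith
      have hDnn : 0 ≤ Real.exp (-(U₁ 0)) - Real.exp (-(U₂ 0)) := by
        have : 0 ≤ η + δ + (Λ + (G + k) * δ) * T := by positivity
        linarith
      have e3 : 1 / 2 * (Real.exp (-(U₁ 0)) - Real.exp (-(U₂ 0)))
          ≤ Real.exp (-((G + k) * t)) * (Real.exp (-(U₁ 0)) - Real.exp (-(U₂ 0))) :=
        mul_le_mul_of_nonneg_right hexp hDnn
      have e4 : (Λ + (G + k) * δ) * t ≤ (Λ + (G + k) * δ) * T :=
        mul_le_mul_of_nonneg_left ht.2 (by positivity)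
      linarith
    · intro s hs
      have hs' : s ∈ Icc (0:ℝ) T := ⟨hs.1, hs.2.trans ht.2⟩
      have hDs := hnn s hs
      have hU : U₁ s ≤ U₂ s := by
        have : Real.exp (-(U₂ s)) ≤ Real.exp (-(U₁ s)) := by linarith
        have := Real.exp_le_exp.1 this
        linarith
      have hψ := psi_mono (h₁.U0 s hs') hU
      have hgs := hg s hs'
      rw [abs_le] at hgs
      have hqs := hq s hs'
      rw [abs_le] at hqs
      have e1 := h₁.exp_neg_le_one hs'
      have e2 := Real.exp_pos (-(U₁ s))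
      have e3 := h₂.g0 s hs'
      have e4 := h₂.gG s hs'
      -- g₁Z₁ - g₂Z₂ = (g₁-g₂)Z₁ + g₂ (Z₁-Z₂)
      have e5 : g₁ s * Real.exp (-(U₁ s)) - g₂ s * Real.exp (-(U₂ s))
          ≤ Λ + G * (Real.exp (-(U₁ s)) - Real.exp (-(U₂ s))) := by
        have : g₁ s * Real.exp (-(U₁ s)) - g₂ s * Real.exp (-(U₂ s))
          = (g₁ s - g₂ s) * Real.exp (-(U₁ s))
            + g₂ s * (Real.exp (-(U₁ s)) - Real.exp (-(U₂ s))) := by ring
        rw [this]
        have f1 : (g₁ s - g₂ s) * Real.exp (-(U₁ s)) ≤ Λ := by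
          calc (g₁ s - g₂ s) * Real.exp (-(U₁ s)) ≤ Λ * Real.exp (-(U₁ s)) := by
                gcongr; exact hgs.2
            _ ≤ Λ * 1 := by gcongr
            _ = Λ := mul_one _
        have f2 : g₂ s * (Real.exp (-(U₁ s)) - Real.exp (-(U₂ s)))
            ≤ G * (Real.exp (-(U₁ s)) - Real.exp (-(U₂ s))) := by
          exact mul_le_mul_of_nonneg_right e4 hDs
        linarith
      have e6 := mul_le_mul_of_nonneg_left hψ hk
      have e7 : B s ≤ (Real.exp (-(U₁ s)) - Real.exp (-(U₂ s))) + δ := by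
        rw [hB]; simp only; linarith [hqs.2]
      have e8 : (Real.exp (-(U₁ s)) - Real.exp (-(U₂ s))) ≤ B s + δ := by
        rw [hB]; simp only; linarith [hqs.1]
      have e9 : (G + k) * (Real.exp (-(U₁ s)) - Real.exp (-(U₂ s))) ≤ (G + k) * (B s + δ) :=
        mul_le_mul_of_nonneg_left e8 (by positivity)
      rw [hb]
      simp only
      nlinarith

end Pool.Agent.Lib.MP_360b3f_an
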