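import Mathlib
import Pool.Agent.Lib.MP_360b3f_an.ODE
import Pool.Agent.Lib.MP_360b3f_an.Traj
import Pool.Agent.Lib.MP_360b3f_an.Moll

set_option autoImplicit false

namespace Pool.Agent.Lib.MP_360b3f_an

open MeasureTheory Set Filter Topology Convolution
open scoped ContDiff

/-- Joint measurability of primitives in time. -/
theorem meas_primitive {f : ℝ → ℝ → ℝ} (hf : Measurable (Function.uncurry f)) :
    Measurable (fun p : ℝ × ℝ => ∫ s in (0:ℝ)..p.1, f s p.2) := by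
  have key : ∀ (A : Set ((ℝ × ℝ) × ℝ)), MeasurableSet A →
      Measurable (fun p : ℝ × ℝ => ∫ s, A.indicator (fun z => f z.2 z.1.2) (p, s)) := by
    intro A hA
    have h1 : Measurable (A.indicator (fun z : (ℝ × ℝ) × ℝ => f z.2 z.1.2)) := by
      apply Measurable.indicator _ hA
      have : (fun z : (ℝ × ℝ) × ℝ => f z.2 z.1.2) =
        Function.uncurry f ∘ (fun z : (ℝ × ℝ) × ℝ => (z.2, z.1.2)) := rfl
      rw [this]
      exact hf.comp (by fun_prop)
    have h2 : StronglyMeasurable (Function.uncurry (fun (p : ℝ × ℝ) (s : ℝ) =>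
        A.indicator (fun z => f z.2 z.1.2) (p, s))) := h1.stronglyMeasurable
    exact h2.integral_prod_right.measurable
  have hA1 : MeasurableSet {z : (ℝ × ℝ) × ℝ | 0 < z.2 ∧ z.2 ≤ z.1.1} := by
    apply MeasurableSet.inter
    · exact measurableSet_lt measurable_const measurable_snd
    · exact measurableSet_le measurable_snd (measurable_fst.comp measurable_fst)
  have hA2 : MeasurableSet {z : (ℝ × ℝ) × ℝ | z.1.1 < z.2 ∧ z.2 ≤ 0} := by
    apply MeasurableSet.inter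
    · exact measurableSet_lt (measurable_fst.comp measurable_fst) measurable_snd
    · exact measurableSet_le measurable_snd measurable_const
  have h := (key _ hA1).sub (key _ hA2)
  convert h using 1
  funext p
  rw [intervalIntegral]
  congr 1
  · rw [← integral_indicator measurableSet_Ioc]
    rfl
  · rw [← integral_indicator measurableSet_Ioc]
    rfl

structure CoreSol (K u₀ : ℝ → ℝ) (T M : ℝ) (u v : ℝ → ℝ → ℝ) : Prop where
  mu : Measurable (Function.uncurry u)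
  mv : Measurable (Function.uncurry v)
  u0 : ∀ t x, 0 ≤ u t x
  uM : ∀ t x, u t x ≤ M
  v0 : ∀ t x, 0 ≤ v t x
  v1 : ∀ t x, v t x ≤ 1
  eu : ∀ t ∈ Icc (0:ℝ) T, ∀ᵐ x, u t x = u₀ x + ∫ s in (0:ℝ)..t,
    (cv (u s) K x - (∫ y, K y) * u s x + v s x * Real.exp (u s x))
  ev : ∀ φ : ℝ → ℝ, ContDiff ℝ ∞ φ → HasCompactSupport φ → ∀ t ∈ Icc (0:ℝ) T,
    ∫ x, v t x * φ x = (∫ x, φ x) + (∫ x, (∫ s in (0:ℝ)..t, v s x) * deriv (deriv φ) x)
      - ∫ x, (∫ s in (0:ℝ)..t, v s x * Real.exp (u s x)) * φ x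

structure Ker (K : ℝ → ℝ) : Prop where
  smooth : ContDiff ℝ ∞ K
  supp : HasCompactSupport K
  nonneg : ∀ x, 0 ≤ K x

namespace CoreSol

variable {K u₀ : ℝ → ℝ} {T M : ℝ} {u v : ℝ → ℝ → ℝ}

theorem mu_t (h : CoreSol K u₀ T M u v) (t : ℝ) : Measurable (u t) :=
  h.mu.comp (measurable_const.prodMk measurable_id)

theorem mv_t (h : CoreSol K u₀ T M u v) (t : ℝ) : Measurable (v t) :=
  h.mv.comp (measurable_const.prodMk measurable_id)

theorem mu_x (h : CoreSol K u₀ T M u v) (x : ℝ) : Measurable (fun s => u s x) :=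
  h.mu.comp (measurable_id.prodMk measurable_const)

theorem mv_x (h : CoreSol K u₀ T M u v) (x : ℝ) : Measurable (fun s => v s x) :=
  h.mv.comp (measurable_id.prodMk measurable_const)

theorem M0 (h : CoreSol K u₀ T M u v) : 0 ≤ M := (h.u0 0 0).trans (h.uM 0 0)

theorem uabs (h : CoreSol K u₀ T M u v) (t x : ℝ) : |u t x| ≤ M := by
  rw [abs_of_nonneg (h.u0 t x)]; exact h.uM t x

theorem vabs (h : CoreSol K u₀ T M u v) (t x : ℝ) : |v t x| ≤ 1 := by
  rw [abs_of_nonneg (h.v0 t x)]; exact h.v1 t x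

theorem h0 (h : CoreSol K u₀ T M u v) (t x : ℝ) : 0 ≤ v t x * Real.exp (u t x) :=
  mul_nonneg (h.v0 t x) (Real.exp_pos _).le

theorem hM (h : CoreSol K u₀ T M u v) (t x : ℝ) : v t x * Real.exp (u t x) ≤ Real.exp M := by
  calc v t x * Real.exp (u t x) ≤ 1 * Real.exp (u t x) := by
        gcongr; exact h.v1 t x
    _ ≤ Real.exp M := by rw [one_mul]; exact Real.exp_le_exp.2 (h.uM t x)

theorem habs (h : CoreSol K u₀ T M u v) (t x : ℝ) :
    |v t x * Real.exp (u t x)| ≤ Real.exp M := by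
  rw [abs_of_nonneg (h.h0 t x)]; exact h.hM t x

theorem mh (h : CoreSol K u₀ T M u v) :
    Measurable (Function.uncurry fun t x => v t x * Real.exp (u t x)) :=
  h.mv.mul (Real.measurable_exp.comp h.mu)

theorem mq (h : CoreSol K u₀ T M u v) (t : ℝ) : Measurable (fun x => ∫ s in (0:ℝ)..t, v s x) :=
  (meas_primitive h.mv).comp (measurable_const.prodMk measurable_id)

theorem mH (h : CoreSol K u₀ T M u v) (t : ℝ) :
    Measurable (fun x => ∫ s in (0:ℝ)..t, v s x * Real.exp (u s x)) :=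
  (meas_primitive h.mh).comp (measurable_const.prodMk measurable_id)

theorem int_v (h : CoreSol K u₀ T M u v) (x a b : ℝ) :
    IntervalIntegrable (fun s => v s x) volume a b := by
  refine IntervalIntegrable.mono_fun (f := fun _ => (1:ℝ)) intervalIntegrable_const
    (h.mv_x x).aestronglyMeasurable (Eventually.of_forall fun s => ?_)
  simpa using h.vabs s x

theorem int_u (h : CoreSol K u₀ T M u v) (x a b : ℝ) :
    IntervalIntegrable (fun s => u s x) volume a b := by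
  refine IntervalIntegrable.mono_fun (f := fun _ => M) intervalIntegrable_const
    (h.mu_x x).aestronglyMeasurable (Eventually.of_forall fun s => ?_)
  simpa [abs_of_nonneg h.M0] using h.uabs s x

theorem mh_x (h : CoreSol K u₀ T M u v) (x : ℝ) :
    Measurable (fun s => v s x * Real.exp (u s x)) :=
  (h.mv_x x).mul (Real.measurable_exp.comp (h.mu_x x))

theorem int_h (h : CoreSol K u₀ T M u v) (x a b : ℝ) :
    IntervalIntegrable (fun s => v s x * Real.exp (u s x)) volume a b := by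
  refine IntervalIntegrable.mono_fun (f := fun _ => Real.exp M) intervalIntegrable_const
    (h.mh_x x).aestronglyMeasurable (Eventually.of_forall fun s => ?_)
  simpa [abs_of_nonneg (Real.exp_pos M).le] using h.habs s x

theorem q_nonneg (h : CoreSol K u₀ T M u v) {t : ℝ} (ht : 0 ≤ t) (x : ℝ) :
    0 ≤ ∫ s in (0:ℝ)..t, v s x :=
  intervalIntegral.integral_nonneg ht (fun s _ => h.v0 s x)

theorem q_le (h : CoreSol K u₀ T M u v) {t : ℝ} (ht : 0 ≤ t) (x : ℝ) :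
    ∫ s in (0:ℝ)..t, v s x ≤ t := by
  have : ∫ s in (0:ℝ)..t, v s x ≤ ∫ s in (0:ℝ)..t, (1:ℝ) :=
    intervalIntegral.integral_mono_on ht (h.int_v x _ _) intervalIntegrable_const
      (fun s _ => h.v1 s x)
  simpa using this

theorem H_nonneg (h : CoreSol K u₀ T M u v) {t : ℝ} (ht : 0 ≤ t) (x : ℝ) :
    0 ≤ ∫ s in (0:ℝ)..t, v s x * Real.exp (u s x) :=
  intervalIntegral.integral_nonneg ht (fun s _ => h.h0 s x)

theorem H_le (h : CoreSol K u₀ T M u v) {t : ℝ} (ht : 0 ≤ t) (x : ℝ) :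
    ∫ s in (0:ℝ)..t, v s x * Real.exp (u s x) ≤ t * Real.exp M := by
  have : ∫ s in (0:ℝ)..t, v s x * Real.exp (u s x) ≤ ∫ s in (0:ℝ)..t, Real.exp M :=
    intervalIntegral.integral_mono_on ht (h.int_h x _ _) intervalIntegrable_const
      (fun s _ => h.hM s x)
  simpa using this

theorem H_mono (h : CoreSol K u₀ T M u v) {s t : ℝ} (hs : 0 ≤ s) (hst : s ≤ t) (x : ℝ) :
    ∫ s in (0:ℝ)..s, v s x * Real.exp (u s x) ≤ ∫ s in (0:ℝ)..t, v s x * Real.exp (u s x) :=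
  intervalIntegral.integral_mono_interval le_rfl hs hst
    (Eventually.of_forall fun r => h.h0 r x) (h.int_h x _ _)

theorem qabs (h : CoreSol K u₀ T M u v) {t : ℝ} (ht : 0 ≤ t) (x : ℝ) :
    |∫ s in (0:ℝ)..t, v s x| ≤ t := by
  rw [abs_of_nonneg (h.q_nonneg ht x)]; exact h.q_le ht x

theorem Habs (h : CoreSol K u₀ T M u v) {t : ℝ} (ht : 0 ≤ t) (x : ℝ) :
    |∫ s in (0:ℝ)..t, v s x * Real.exp (u s x)| ≤ t * Real.exp M := by
  rw [abs_of_nonneg (h.H_nonneg ht x)]; exact h.H_le ht x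

/-- tested bound on the consumption -/
theorem tested_H (h : CoreSol K u₀ T M u v) {φ : ℝ → ℝ} (hφ : ContDiff ℝ ∞ φ)
    (hφc : HasCompactSupport φ) (hφ0 : ∀ x, 0 ≤ φ x) {t : ℝ} (ht : t ∈ Icc (0:ℝ) T) :
    ∫ x, (∫ s in (0:ℝ)..t, v s x * Real.exp (u s x)) * φ x ≤
      (∫ x, φ x) + T * ∫ x, |deriv (deriv φ) x| := by
  have e := h.ev φ hφ hφc t ht
  have h1 : 0 ≤ ∫ x, v t x * φ x := integral_nonneg fun x => mul_nonneg (h.v0 t x) (hφ0 x)
  have hφ'' : Integrable (deriv (deriv φ)) :=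
    int_of_cs (contDiff_deriv (contDiff_deriv hφ)) (cs_deriv (cs_deriv hφc))
  have h2 : ∫ x, (∫ s in (0:ℝ)..t, v s x) * deriv (deriv φ) x ≤
      ∫ x, T * |deriv (deriv φ) x| := by
    apply integral_mono (bdd_mul_int (h.mq t) (h.qabs ht.1) hφ'') (hφ''.abs.const_mul T)
    intro x
    simp only
    have e1 := h.qabs ht.1 x
    calc (∫ s in (0:ℝ)..t, v s x) * deriv (deriv φ) x
        ≤ |(∫ s in (0:ℝ)..t, v s x) * deriv (deriv φ) x| := le_abs_self _
      _ = |∫ s in (0:ℝ)..t, v s x| * |deriv (deriv φ) x| := abs_mul _ _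
      _ ≤ T * |deriv (deriv φ) x| := by
          gcongr
          exact e1.trans ht.2
  rw [integral_const_mul] at h2
  linarith

end CoreSol

theorem flip_contDiff {ρ : ℝ → ℝ} (hρ : ContDiff ℝ ∞ ρ) (x : ℝ) :
    ContDiff ℝ ∞ (fun y => ρ (x - y)) :=
  hρ.comp (contDiff_const.sub contDiff_id)

theorem flip_cs {ρ : ℝ → ℝ} (hρ : HasCompactSupport ρ) (x : ℝ) :
    HasCompactSupport (fun y => ρ (x - y)) := by
  have := hρ.comp_homeomorph (Homeomorph.subLeft x)
  exact this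

theorem flip_deriv (ρ : ℝ → ℝ) (x : ℝ) :
    deriv (fun y => ρ (x - y)) = fun y => -(deriv ρ (x - y)) := by
  funext y
  exact deriv_comp_const_sub (f := ρ) x y

theorem flip_deriv2 (ρ : ℝ → ℝ) (x : ℝ) :
    deriv (deriv (fun y => ρ (x - y))) = fun y => deriv (deriv ρ) (x - y) := by
  rw [flip_deriv]
  funext y
  have h1 : deriv (fun y => -(deriv ρ (x - y))) y = -(deriv (fun y => deriv ρ (x - y)) y) :=
    deriv.fun_neg
  rw [h1, flip_deriv (deriv ρ) x]
  simp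

theorem flip_integral (ρ : ℝ → ℝ) (x : ℝ) : ∫ y, ρ (x - y) = ∫ y, ρ y :=
  integral_sub_left_eq_self (fun y => ρ y) volume x

namespace CoreSol

variable {K u₀ : ℝ → ℝ} {T M : ℝ} {u v : ℝ → ℝ → ℝ}

theorem cv_H_le (h : CoreSol K u₀ T M u v) {ρ : ℝ → ℝ} (hρ : ContDiff ℝ ∞ ρ)
    (hρc : HasCompactSupport ρ) (hρ0 : ∀ x, 0 ≤ ρ x) {t : ℝ} (ht : t ∈ Icc (0:ℝ) T) (x : ℝ) :
    cv (fun y => ∫ s in (0:ℝ)..t, v s y * Real.exp (u s y)) ρ x ≤
      (∫ x, ρ x) + T * ∫ x, |deriv (deriv ρ) x| := by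
  have := h.tested_H (flip_contDiff hρ x) (flip_cs hρc x) (fun y => hρ0 _) ht
  rw [flip_deriv2, flip_integral ρ x, flip_integral (fun y => |deriv (deriv ρ) y|) x] at this
  exact this

theorem mg (h : CoreSol K u₀ T M u v) (hK : Ker K) :
    Measurable (fun p : ℝ × ℝ => cv (u p.1) K p.2) := by
  have h1 : Measurable (Function.uncurry (fun (p : ℝ × ℝ) (y : ℝ) => u p.1 y * K (p.2 - y))) := by
    apply Measurable.mul
    · exact h.mu.comp (f := fun z : (ℝ × ℝ) × ℝ => (z.1.1, z.2)) (by fun_prop)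
    · exact hK.smooth.continuous.measurable.comp (by fun_prop)
  exact h1.stronglyMeasurable.integral_prod_right.measurable

theorem g_nonneg (h : CoreSol K u₀ T M u v) (hK : Ker K) (s x : ℝ) : 0 ≤ cv (u s) K x :=
  integral_nonneg fun y => mul_nonneg (h.u0 s y) (hK.nonneg _)

theorem K_int (hK : Ker K) : Integrable K := int_of_cs hK.smooth hK.supp

theorem int_flip {ρ : ℝ → ℝ} (hρ : Integrable ρ) (x : ℝ) : Integrable (fun y => ρ (x - y)) :=
  hρ.comp_sub_left x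

theorem g_le_M (h : CoreSol K u₀ T M u v) (hK : Ker K) (s x : ℝ) :
    cv (u s) K x ≤ M * ∫ y, K y := by
  have h1 : cv (u s) K x ≤ ∫ y, M * K (x - y) := by
    apply integral_mono (bdd_mul_int (h.mu_t s) (h.uabs s) (int_flip (K_int hK) x))
      ((int_flip (K_int hK) x).const_mul M)
    intro y
    exact mul_le_mul_of_nonneg_right (h.uM s y) (hK.nonneg _)
  rwa [integral_const_mul, flip_integral] at h1

theorem mF (h : CoreSol K u₀ T M u v) (hK : Ker K) :
    Measurable (Function.uncurry fun s x =>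
      (cv (u s) K x - (∫ y, K y) * u s x + v s x * Real.exp (u s x))) :=
  ((h.mg hK).sub (h.mu.const_mul _)).add h.mh

theorem int_g (h : CoreSol K u₀ T M u v) (hK : Ker K) (x a b : ℝ) :
    IntervalIntegrable (fun s => cv (u s) K x) volume a b := by
  have hk : 0 ≤ ∫ y, K y := integral_nonneg hK.nonneg
  refine IntervalIntegrable.mono_fun (f := fun _ => M * ∫ y, K y) intervalIntegrable_const
    ((h.mg hK).comp (measurable_id.prodMk measurable_const)).aestronglyMeasurable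
    (Eventually.of_forall fun s => ?_)
  have h1 := h.g_nonneg hK s x
  have h2 := h.g_le_M hK s x
  have h3 : 0 ≤ M * ∫ y, K y := mul_nonneg h.M0 hk
  have e1 : ‖cv (u s) K x‖ = cv (u s) K x := Real.norm_of_nonneg h1
  have e2 : ‖M * ∫ y, K y‖ = M * ∫ y, K y := Real.norm_of_nonneg h3
  show ‖cv (u s) K x‖ ≤ ‖M * ∫ y, K y‖
  rw [e1, e2]; exact h2

/-- pointwise upper bound of `u` by `u₀ + T G + H`. -/
theorem u_le (h : CoreSol K u₀ T M u v) (hK : Ker K) {G : ℝ} (hG0 : 0 ≤ G)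
    (hG : ∀ s ∈ Icc (0:ℝ) T, ∀ x, cv (u s) K x ≤ G) {t : ℝ} (ht : t ∈ Icc (0:ℝ) T) :
    ∀ᵐ x, u t x ≤ u₀ x + T * G + ∫ s in (0:ℝ)..t, v s x * Real.exp (u s x) := by
  filter_upwards [h.eu t ht] with x hx
  rw [hx]
  have hk : 0 ≤ ∫ y, K y := integral_nonneg hK.nonneg
  rw [intervalIntegral.integral_add ((h.int_g hK x 0 t).sub ((h.int_u x 0 t).const_mul _))
    (h.int_h x 0 t), intervalIntegral.integral_sub (h.int_g hK x 0 t)
    ((h.int_u x 0 t).const_mul _), intervalIntegral.integral_const_mul]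
  have h1 : ∫ s in (0:ℝ)..t, cv (u s) K x ≤ ∫ s in (0:ℝ)..t, G :=
    intervalIntegral.integral_mono_on ht.1 (h.int_g hK x 0 t) intervalIntegrable_const
      (fun s hs => hG s ⟨hs.1, hs.2.trans ht.2⟩ x)
  rw [intervalIntegral.integral_const, smul_eq_mul, sub_zero] at h1
  have h2 : t * G ≤ T * G := mul_le_mul_of_nonneg_right ht.2 hG0
  have h3 : 0 ≤ ∫ s in (0:ℝ)..t, u s x :=
    intervalIntegral.integral_nonneg ht.1 (fun s _ => h.u0 s x)
  have h4 : 0 ≤ (∫ y, K y) * ∫ s in (0:ℝ)..t, u s x := mul_nonneg hk h3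
  linarith

/-- bound for a test-averaged `u` -/
theorem cv_u_le (h : CoreSol K u₀ T M u v) (hK : Ker K) {G : ℝ} (hG0 : 0 ≤ G)
    (hG : ∀ s ∈ Icc (0:ℝ) T, ∀ x, cv (u s) K x ≤ G)
    (hu₀ : Measurable u₀) {A : ℝ} (hA : ∀ x, |u₀ x| ≤ A)
    {ρ : ℝ → ℝ} (hρ : ContDiff ℝ ∞ ρ)
    (hρc : HasCompactSupport ρ) (hρ0 : ∀ x, 0 ≤ ρ x) {t : ℝ} (ht : t ∈ Icc (0:ℝ) T) (x : ℝ) :
    cv (u t) ρ x ≤ cv u₀ ρ x + T * G * (∫ x, ρ x) + ((∫ x, ρ x)
      + T * ∫ x, |deriv (deriv ρ) x|) := by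
  have hρi : Integrable ρ := int_of_cs hρ hρc
  have hρi' := int_flip hρi x
  have i1 : Integrable (fun y => u t y * ρ (x - y)) := bdd_mul_int (h.mu_t t) (h.uabs t) hρi'
  have i2 : Integrable (fun y => u₀ y * ρ (x - y)) := bdd_mul_int hu₀ hA hρi'
  have i3 : Integrable (fun y => (T * G) * ρ (x - y)) := hρi'.const_mul _
  have i4 : Integrable (fun y => (∫ s in (0:ℝ)..t, v s y * Real.exp (u s y)) * ρ (x - y)) :=
    bdd_mul_int (h.mH t) (h.Habs ht.1) hρi'
  have i5 : Integrable (fun y => u₀ y * ρ (x - y) + (T * G) * ρ (x - y)) := i2.add i3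
  have i6 : Integrable (fun y => u₀ y * ρ (x - y) + (T * G) * ρ (x - y)
      + (∫ s in (0:ℝ)..t, v s y * Real.exp (u s y)) * ρ (x - y)) := i5.add i4
  have h1 : cv (u t) ρ x ≤ ∫ y, (u₀ y * ρ (x - y) + (T * G) * ρ (x - y)
      + (∫ s in (0:ℝ)..t, v s y * Real.exp (u s y)) * ρ (x - y)) := by
    apply integral_mono_ae i1 i6
    filter_upwards [h.u_le hK hG0 hG ht] with y hy
    have := mul_le_mul_of_nonneg_right hy (hρ0 (x - y))
    calc u t y * ρ (x - y) ≤ (u₀ y + T * G + ∫ s in (0:ℝ)..t, v s y * Real.exp (u s y))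
          * ρ (x - y) := this
      _ = _ := by ring
  rw [integral_add i5 i4, integral_add i2 i3, integral_const_mul, flip_integral] at h1
  have h2 := h.cv_H_le hρ hρc hρ0 ht x
  unfold cv at h1 h2 ⊢
  linarith

/-- A priori bound for `g = K ⋆ u`, independent of `M`. -/
theorem g_le (h : CoreSol K u₀ T M u v) (hK : Ker K) (hT : 0 ≤ T)
    (hu₀ : Measurable u₀) {A B : ℝ} (hA : ∀ x, |u₀ x| ≤ A) (hB : ∀ x, cv u₀ K x ≤ B)
    (hkT : (∫ y, K y) * T ≤ 1 / 2) :
    ∀ s ∈ Icc (0:ℝ) T, ∀ x, cv (u s) K x ≤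
      2 * (B + ((∫ y, K y) + T * ∫ x, |deriv (deriv K) x|)) := by
  set S : Set ℝ := {r | ∃ s ∈ Icc (0:ℝ) T, ∃ x, r = cv (u s) K x} with hS
  have hSb : BddAbove S := by
    refine ⟨M * ∫ y, K y, ?_⟩
    rintro r ⟨s, _, x, rfl⟩
    exact h.g_le_M hK s x
  have hSne : S.Nonempty := ⟨_, 0, ⟨le_rfl, hT⟩, 0, rfl⟩
  set G := sSup S with hG
  have hG1 : ∀ s ∈ Icc (0:ℝ) T, ∀ x, cv (u s) K x ≤ G :=
    fun s hs x => le_csSup hSb ⟨s, hs, x, rfl⟩
  have hG0 : 0 ≤ G := (h.g_nonneg hK 0 0).trans (hG1 0 ⟨le_rfl, hT⟩ 0)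
  have h1 : G ≤ B + T * G * (∫ x, K x) + ((∫ x, K x) + T * ∫ x, |deriv (deriv K) x|) := by
    apply csSup_le hSne
    rintro r ⟨s, hs, x, rfl⟩
    refine (h.cv_u_le hK hG0 hG1 hu₀ hA hK.smooth hK.supp hK.nonneg hs x).trans ?_
    linarith [hB x]
  have h2 : T * G * (∫ x, K x) ≤ 1 / 2 * G := by
    calc T * G * (∫ x, K x) = ((∫ y, K y) * T) * G := by ring
      _ ≤ 1 / 2 * G := mul_le_mul_of_nonneg_right hkT hG0
  intro s hs x
  refine (hG1 s hs x).trans ?_
  linarith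

/-- Lipschitz bound for `g`. -/
theorem g_lip (h : CoreSol K u₀ T M u v) (hK : Ker K) {G : ℝ} (hG0 : 0 ≤ G)
    (hG : ∀ s ∈ Icc (0:ℝ) T, ∀ x, cv (u s) K x ≤ G)
    (hu₀ : Measurable u₀) {A B : ℝ} (hA : ∀ x, |u₀ x| ≤ A)
    {χ : ℝ → ℝ} (hχ : ContDiff ℝ ∞ χ) (hχc : HasCompactSupport χ)
    (hχK : ∀ x, |deriv K x| ≤ χ x) (hB : ∀ x, cv u₀ χ x ≤ B)
    {s : ℝ} (hs : s ∈ Icc (0:ℝ) T) (x y : ℝ) :
    |cv (u s) K x - cv (u s) K y| ≤ (B + T * G * (∫ x, χ x) + ((∫ x, χ x)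
      + T * ∫ x, |deriv (deriv χ) x|)) * |x - y| := by
  have hχ0 : ∀ x, 0 ≤ χ x := fun x => (abs_nonneg _).trans (hχK x)
  have hd : ∀ z, HasDerivAt (cv (u s) K) (cv (u s) (deriv K) z) z :=
    cv_hasDerivAt (h.mu_t s) (h.uabs s) hK.smooth hK.supp
  have hb : ∀ z, |cv (u s) (deriv K) z| ≤ B + T * G * (∫ x, χ x) + ((∫ x, χ x)
      + T * ∫ x, |deriv (deriv χ) x|) := by
    intro z
    have h1 : |cv (u s) (deriv K) z| ≤ cv (u s) χ z := by
      unfold cv
      refine (abs_integral_le_integral_abs).trans ?_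
      apply integral_mono_of_nonneg (Eventually.of_forall fun y => abs_nonneg _)
        (bdd_mul_int (h.mu_t s) (h.uabs s) (int_flip (int_of_cs hχ hχc) z))
      refine Eventually.of_forall fun y => ?_
      simp only
      rw [abs_mul, abs_of_nonneg (h.u0 s y)]
      exact mul_le_mul_of_nonneg_left (hχK _) (h.u0 s y)
    have h2 := h.cv_u_le hK hG0 hG hu₀ hA hχ hχc hχ0 hs z
    linarith [hB z]
  have := Convex.norm_image_sub_le_of_norm_hasDerivWithin_le (f := cv (u s) K)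
    (f' := cv (u s) (deriv K)) (s := univ) (x := y) (y := x)
    (fun z _ => (hd z).hasDerivWithinAt)
    (fun z _ => by simpa using hb z) convex_univ
    (mem_univ _) (mem_univ _)
  simpa using this

end CoreSol

end Pool.Agent.Lib.MP_360b3f_an
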