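import Mathlib

/-!
# Definitions for MP_360b3f_an

Bounded weak solutions of the two-component system
`u_t + L₁ u = v f(u)`, `v_t + L₂ v = - v f(u)`, `u(0) = u₀`, `v(0) = 1`,
where each `L_i` is `-Δ` or the nonlocal operator `𝒥_K u = (∫ K) u - K ∗ u`.
-/

set_option autoImplicit false

namespace Pool.Agent.MP_360b3f_an

open MeasureTheory Set
open scoped ContDiff

variable {E : Type*} [NormedAddCommGroup E] [InnerProductSpace ℝ E] [FiniteDimensional ℝ E]
  [MeasurableSpace E] [BorelSpace E]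

/-- Admissible kernels: smooth, compactly supported, nonnegative. -/
structure AdmissibleKernel (K : E → ℝ) : Prop where
  contDiff : ContDiff ℝ ∞ K
  hasCompactSupport : HasCompactSupport K
  nonneg : ∀ x, 0 ≤ K x

/-- The operator `-Δ`, applied to a test function (it is its own formal adjoint). -/
noncomputable def negLaplacian (φ : E → ℝ) : E → ℝ :=
  fun x => -(Laplacian.laplacian φ x)

/-- The formal adjoint of `𝒥_K u (x) = (∫ K) u(x) - ∫ K(y) u(x - y) dy`, applied to a test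
function: `𝒥_K^* φ (x) = (∫ K) φ(x) - ∫ K(y) φ(x + y) dy`. -/
noncomputable def nonlocalAdjoint (K : E → ℝ) (φ : E → ℝ) : E → ℝ :=
  fun x => (∫ y, K y) * φ x - ∫ y, K y * φ (x + y)

/-- `(u, v)` is a bounded weak (distributional) solution on `[0,T] × E` of
`u_t + L₁ u = v f(u)`, `v_t + L₂ v = - v f(u)`, `u(0) = u₀`, `v(0) = 1`, where `A₁`, `A₂` are the
formal adjoints of `L₁`, `L₂`: `u` and `v` are bounded on `[0,T] × E`, `u ≥ 0`, and both equations
hold in integrated form against every smooth compactly supported function of `x`. -/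
structure IsBoundedWeakSolution (A₁ A₂ : (E → ℝ) → E → ℝ) (f : ℝ → ℝ) (u₀ : E → ℝ) (T : ℝ)
    (u v : ℝ → E → ℝ) : Prop where
  measurable_u : Measurable (Function.uncurry u)
  measurable_v : Measurable (Function.uncurry v)
  bounded : ∃ M : ℝ, ∀ t ∈ Icc (0:ℝ) T, ∀ᵐ x, 0 ≤ u t x ∧ u t x ≤ M ∧ |v t x| ≤ M
  weak_u : ∀ φ : E → ℝ, ContDiff ℝ ∞ φ → HasCompactSupport φ → ∀ t ∈ Icc (0:ℝ) T,
    ∫ x, u t x * φ x = (∫ x, u₀ x * φ x)
      + ∫ s in (0:ℝ)..t, ∫ x, (v s x * f (u s x) * φ x - u s x * A₁ φ x)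
  weak_v : ∀ φ : E → ℝ, ContDiff ℝ ∞ φ → HasCompactSupport φ → ∀ t ∈ Icc (0:ℝ) T,
    ∫ x, v t x * φ x = (∫ x, φ x)
      + ∫ s in (0:ℝ)..t, ∫ x, (-(v s x * f (u s x) * φ x) - v s x * A₂ φ x)

end Pool.Agent.MP_360b3f_an
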