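import Mathlib
import Pool.Agent.Lib.MP_360b3f_an.Core

set_option autoImplicit false

namespace Pool.Agent.Lib.MP_360b3f_an

open MeasureTheory Set Filter Topology Convolution
open scoped ContDiff

namespace CoreSol

variable {K u₀ : ℝ → ℝ} {T M : ℝ} {u v : ℝ → ℝ → ℝ}

/-- For almost every `x` the map `t ↦ u(t,x)` (suitably modified on a null set of times) is a
trajectory. -/
theorem ae_traj (h : CoreSol K u₀ T M u v) (hK : Ker K) (hT : 0 < T) (hu₀ : Measurable u₀)
    {G : ℝ} (hG : ∀ s ∈ Icc (0:ℝ) T, ∀ x, cv (u s) K x ≤ G) :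
    ∀ᵐ x, ∃ U : ℝ → ℝ, Traj (∫ y, K y) G M T (fun s => cv (u s) K x) (fun s => v s x) U ∧
      U 0 = u₀ x ∧ (∫ s in (0:ℝ)..T, v s x * Real.exp (u s x)) =
        ∫ s in (0:ℝ)..T, v s x * Real.exp (U s) := by
  set F : ℝ → ℝ → ℝ := fun s x =>
      (cv (u s) K x - (∫ y, K y) * u s x + v s x * Real.exp (u s x)) with hF
  have hFm : Measurable (Function.uncurry F) := h.mF hK
  set w : ℝ → ℝ → ℝ := fun t x => u₀ x + ∫ s in (0:ℝ)..t, F s x with hw
  have hwm : Measurable (Function.uncurry w) := by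
    have := meas_primitive hFm
    exact (hu₀.comp measurable_snd).add this
  have hset : MeasurableSet {p : ℝ × ℝ | u p.1 p.2 = w p.1 p.2} :=
    measurableSet_eq_fun h.mu hwm
  have h1 : ∀ᵐ s ∂(volume.restrict (Icc (0:ℝ) T)), ∀ᵐ x, u s x = w s x := by
    refine (ae_restrict_iff' measurableSet_Icc).2 (Eventually.of_forall fun s hs => ?_)
    exact h.eu s hs
  have h2 : ∀ᵐ x, ∀ᵐ s ∂(volume.restrict (Icc (0:ℝ) T)), u s x = w s x :=
    (Measure.ae_ae_comm (μ := volume.restrict (Icc (0:ℝ) T)) (ν := (volume : Measure ℝ))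
      (p := fun s x => u s x = w s x) hset).1 h1
  have hk : 0 ≤ ∫ y, K y := integral_nonneg hK.nonneg
  filter_upwards [h2] with x hx
  refine ⟨fun t => w t x, ?_, ?_, ?_⟩
  · have hFx : Measurable (fun s => F s x) := hFm.comp (measurable_id.prodMk measurable_const)
    have hFb : ∀ s ∈ Icc (0:ℝ) T, |F s x| ≤ G + (∫ y, K y) * M + Real.exp M := by
      intro s hs
      have e1 := h.g_nonneg hK s x
      have e2 := hG s hs x
      have e3 := h.h0 s x
      have e4 := h.hM s x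
      have e5 := mul_le_mul_of_nonneg_left (h.uM s x) hk
      have e6 := mul_nonneg hk (h.u0 s x)
      rw [hF, abs_le]
      constructor <;> simp only <;> nlinarith
    have hw0 : w 0 x = u₀ x := by simp [hw]
    have hwx : ∀ t ∈ Icc (0:ℝ) T, w t x = w 0 x + ∫ s in (0:ℝ)..t, F s x := by
      intro t _; rw [hw0]
    have hcont : ContinuousOn (fun t => w t x) (Icc (0:ℝ) T) :=
      primitive_continuousOn hFx hFb hwx
    -- bounds by density
    have hdense : ∀ t ∈ Icc (0:ℝ) T, 0 ≤ w t x ∧ w t x ≤ M := by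
      have hsub : ∀ᵐ s ∂(volume.restrict (Icc (0:ℝ) T)), 0 ≤ w s x ∧ w s x ≤ M := by
        filter_upwards [hx] with s hs
        rw [← hs]; exact ⟨h.u0 s x, h.uM s x⟩
      -- the closed condition
      intro t ht
      by_contra hcon
      -- the set of bad points is relatively open and nonempty
      have hopen : ∃ O : Set ℝ, IsOpen O ∧ {s | s ∈ Icc (0:ℝ) T ∧ ¬ (0 ≤ w s x ∧ w s x ≤ M)}
          = O ∩ Icc (0:ℝ) T := by
        have hcl : IsClosed (Icc (0:ℝ) M) := isClosed_Icc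
        have := (continuousOn_iff'.1 hcont) (Icc (0:ℝ) M)ᶜ hcl.isOpen_compl
        obtain ⟨O, hO1, hO2⟩ := this
        refine ⟨O, hO1, ?_⟩
        rw [← hO2]
        ext s
        simp only [mem_ofPred_eq, mem_inter_iff, mem_preimage, mem_compl_iff, mem_Icc]
        tauto
      obtain ⟨O, hO1, hO2⟩ := hopen
      have htO : t ∈ O ∩ Icc (0:ℝ) T := by rw [← hO2]; exact ⟨ht, hcon⟩
      have hne : (O ∩ Ioo (0:ℝ) T).Nonempty := by
        have : t ∈ closure (Ioo (0:ℝ) T) := by rw [closure_Ioo hT.ne]; exact ht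
        exact (mem_closure_iff.1 this) O hO1 htO.1
      have hpos : 0 < volume (O ∩ Ioo (0:ℝ) T) :=
        (hO1.inter isOpen_Ioo).measure_pos volume hne
      have hzero : volume (O ∩ Ioo (0:ℝ) T) = 0 := by
        have h3 : volume.restrict (Icc (0:ℝ) T) {s | ¬ (0 ≤ w s x ∧ w s x ≤ M)} = 0 :=
          ae_iff.1 hsub
        rw [Measure.restrict_apply₀'] at h3
        · refine measure_mono_null ?_ h3
          intro s hs
          have : s ∈ O ∩ Icc (0:ℝ) T := ⟨hs.1, hs.2.1.le, hs.2.2.le⟩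
          rw [← hO2] at this
          exact ⟨this.2, this.1⟩
        · exact measurableSet_Icc.nullMeasurableSet
      exact (ne_of_gt hpos) hzero
    refine ⟨?_, h.mv_x x, ?_, ?_, ?_, ?_, ?_, ?_, ?_, ?_⟩
    · exact (h.mg hK).comp (measurable_id.prodMk measurable_const)
    · exact hwm.comp (measurable_id.prodMk measurable_const)
    · exact fun s _ => h.g_nonneg hK s x
    · exact fun s hs => hG s hs x
    · exact fun s _ => h.v0 s x
    · exact fun s _ => h.v1 s x
    · exact fun s hs => (hdense s hs).1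
    · exact fun s hs => (hdense s hs).2
    · intro t ht
      rw [hwx t ht]
      congr 1
      apply intervalIntegral.integral_congr_ae_restrict
      rw [uIoc_of_le ht.1]
      have hsub : Ioc (0:ℝ) t ⊆ Icc (0:ℝ) T := fun s hs => ⟨hs.1.le, hs.2.trans ht.2⟩
      have := ae_restrict_of_ae_restrict_of_subset hsub hx
      filter_upwards [this] with s hs
      simp only [hF]
      rw [hs]
  · simp [hw]
  · apply intervalIntegral.integral_congr_ae_restrict
    rw [uIoc_of_le hT.le]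
    have hsub : Ioc (0:ℝ) T ⊆ Icc (0:ℝ) T := Ioc_subset_Icc_self
    have := ae_restrict_of_ae_restrict_of_subset hsub hx
    filter_upwards [this] with s hs
    rw [← hs]

/-- the mollified `q` : derivatives. -/
theorem q_moll (h : CoreSol K u₀ T M u v) {t : ℝ} (ht : t ∈ Icc (0:ℝ) T) {ρ : ℝ → ℝ}
    (hρ : ContDiff ℝ ∞ ρ) (hρc : HasCompactSupport ρ) (x : ℝ) :
    cv (fun y => ∫ s in (0:ℝ)..t, v s y) (deriv (deriv ρ)) x =
      cv (v t) ρ x - (∫ y, ρ y) + cv (fun y => ∫ s in (0:ℝ)..t, v s y * Real.exp (u s y)) ρ x := by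
  have e := h.ev _ (flip_contDiff hρ x) (flip_cs hρc x) t ht
  rw [flip_deriv2, flip_integral ρ x] at e
  unfold cv
  linarith

theorem q_lip_moll (h : CoreSol K u₀ T M u v) {t : ℝ} (ht : t ∈ Icc (0:ℝ) T) {ρ : ℝ → ℝ}
    (hρ : ContDiff ℝ ∞ ρ) (hρc : HasCompactSupport ρ) (hρ0 : ∀ x, 0 ≤ ρ x) (hρ1 : ∫ x, ρ x = 1)
    (x y : ℝ) :
    |cv (fun y => ∫ s in (0:ℝ)..t, v s y) ρ x - cv (fun y => ∫ s in (0:ℝ)..t, v s y) ρ y| ≤
      Real.sqrt (2 * T) * |x - y| := by
  have hρi : Integrable ρ := int_of_cs hρ hρc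
  apply abs_sub_le_sqrt
    (Q' := cv (fun y => ∫ s in (0:ℝ)..t, v s y) (deriv ρ))
    (Q'' := cv (fun y => ∫ s in (0:ℝ)..t, v s y) (deriv (deriv ρ)))
  · exact cv_hasDerivAt (h.mq t) (h.qabs ht.1) hρ hρc
  · exact cv_hasDerivAt (h.mq t) (h.qabs ht.1) (contDiff_deriv hρ) (cs_deriv hρc)
  · intro z
    rw [h.q_moll ht hρ hρc z, hρ1]
    have e1 : 0 ≤ cv (v t) ρ z := integral_nonneg fun y => mul_nonneg (h.v0 t y) (hρ0 _)
    have e2 : 0 ≤ cv (fun y => ∫ s in (0:ℝ)..t, v s y * Real.exp (u s y)) ρ z :=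
      integral_nonneg fun y => mul_nonneg (h.H_nonneg ht.1 y) (hρ0 _)
    linarith
  · intro z
    exact integral_nonneg fun y => mul_nonneg (h.q_nonneg ht.1 y) (hρ0 _)
  · intro z
    have e1 : cv (fun y => ∫ s in (0:ℝ)..t, v s y) ρ z ≤ ∫ y, T * ρ (z - y) := by
      apply integral_mono (bdd_mul_int (h.mq t) (h.qabs ht.1) (int_flip hρi z))
        ((int_flip hρi z).const_mul T)
      intro y
      exact mul_le_mul_of_nonneg_right ((h.q_le ht.1 y).trans ht.2) (hρ0 _)
    rw [integral_const_mul, flip_integral, hρ1, mul_one] at e1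
    exact e1

/-- a sequence of bump functions -/
noncomputable def bump (n : ℕ) : ContDiffBump (0 : ℝ) where
  rIn := 1 / (2 * ((n : ℝ) + 1))
  rOut := 1 / ((n : ℝ) + 1)
  rIn_pos := by positivity
  rIn_lt_rOut := by
    apply one_div_lt_one_div_of_lt (by positivity)
    have : (0:ℝ) < (n:ℝ) + 1 := by positivity
    linarith

theorem bump_ratio (n : ℕ) : (bump n).rOut ≤ 2 * (bump n).rIn := by
  simp only [bump]
  apply le_of_eq
  field_simp

theorem bump_tendsto : Tendsto (fun n => (bump n).rOut) atTop (𝓝 0) := by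
  simp only [bump]
  exact tendsto_one_div_add_atTop_nhds_zero_nat

theorem cv_bump (f : ℝ → ℝ) (n : ℕ) (x : ℝ) :
    ((bump n).normed volume ⋆[ContinuousLinearMap.lsmul ℝ ℝ, volume] f) x
      = cv f ((bump n).normed volume) x := by
  rw [convolution_eq_swap]
  unfold cv
  apply integral_congr_ae
  refine Eventually.of_forall fun y => ?_
  simp [mul_comm]

/-- For almost all pairs of points, `q(t,·)` is Lipschitz for all `t`. -/
theorem q_lip_ae (h : CoreSol K u₀ T M u v) (hT : 0 < T) :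
    ∃ S : Set ℝ, (∀ᵐ x, x ∈ S) ∧ ∀ x ∈ S, ∀ y ∈ S, ∀ t ∈ Icc (0:ℝ) T,
      |(∫ s in (0:ℝ)..t, v s x) - ∫ s in (0:ℝ)..t, v s y| ≤ Real.sqrt (2 * T) * |x - y| := by
  set S : Set ℝ := {x | ∀ r : ℚ, (r : ℝ) ∈ Icc (0:ℝ) T →
    Tendsto (fun n => cv (fun y => ∫ s in (0:ℝ)..(r:ℝ), v s y) ((bump n).normed volume) x) atTop
      (𝓝 (∫ s in (0:ℝ)..(r:ℝ), v s x))} with hS
  refine ⟨S, ?_, ?_⟩
  · rw [hS]
    simp only [mem_ofPred_eq]
    rw [ae_all_iff]
    intro r
    by_cases hr : (r : ℝ) ∈ Icc (0:ℝ) T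
    · have hli : LocallyIntegrable (fun y => ∫ s in (0:ℝ)..(r:ℝ), v s y) volume :=
        bdd_locInt (h.mq r) (h.qabs hr.1)
      have := ContDiffBump.ae_convolution_tendsto_right_of_locallyIntegrable (μ := volume)
        (K := 2) bump_tendsto (Eventually.of_forall bump_ratio) hli
      filter_upwards [this] with x hx _
      simp_rw [cv_bump] at hx
      exact hx
    · exact Eventually.of_forall fun x hr' => absurd hr' hr
  · intro x hx y hy t ht
    -- rational times first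
    have hrat : ∀ r : ℚ, (r : ℝ) ∈ Icc (0:ℝ) T →
        |(∫ s in (0:ℝ)..(r:ℝ), v s x) - ∫ s in (0:ℝ)..(r:ℝ), v s y|
          ≤ Real.sqrt (2 * T) * |x - y| := by
      intro r hr
      have h1 := hx r hr
      have h2 := hy r hr
      refine le_of_tendsto ((h1.sub h2).abs) (Eventually.of_forall fun n => ?_)
      exact h.q_lip_moll hr (bump n).contDiff_normed (bump n).hasCompactSupport_normed
        (bump n).nonneg_normed (bump n).integral_normed x y
    -- continuity in time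
    have hc : ∀ z, Continuous (fun t => ∫ s in (0:ℝ)..t, v s z) := fun z =>
      intervalIntegral.continuous_primitive (fun a b => h.int_v z a b) 0
    have hcont : Continuous (fun t => |(∫ s in (0:ℝ)..t, v s x) - ∫ s in (0:ℝ)..t, v s y|) :=
      ((hc x).sub (hc y)).abs
    have hclosed : IsClosed {t | |(∫ s in (0:ℝ)..t, v s x) - ∫ s in (0:ℝ)..t, v s y|
        ≤ Real.sqrt (2 * T) * |x - y|} := isClosed_le hcont continuous_const
    have hcl : t ∈ closure (Ioo (0:ℝ) T ∩ range ((↑) : ℚ → ℝ)) := by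
      have h3 : Dense (range ((↑) : ℚ → ℝ)) := Rat.denseRange_cast
      have h4 := h3.open_subset_closure_inter (isOpen_Ioo (a := (0:ℝ)) (b := T))
      have h5 : closure (Ioo (0:ℝ) T) ⊆ closure (Ioo (0:ℝ) T ∩ range ((↑) : ℚ → ℝ)) :=
        closure_minimal h4 isClosed_closure
      apply h5
      rw [closure_Ioo hT.ne]; exact ht
    have hsub : (Ioo (0:ℝ) T ∩ range ((↑) : ℚ → ℝ)) ⊆
        {t | |(∫ s in (0:ℝ)..t, v s x) - ∫ s in (0:ℝ)..t, v s y|
        ≤ Real.sqrt (2 * T) * |x - y|} := by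
      rintro z ⟨hz1, ⟨r, rfl⟩⟩
      exact hrat r ⟨hz1.1.le, hz1.2.le⟩
    exact closure_minimal hsub hclosed hcl

end CoreSol

end Pool.Agent.Lib.MP_360b3f_an
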