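import Mathlib
import Pool.Agent.Lib.MP_360b3f_an.Good

set_option autoImplicit false

namespace Pool.Agent.Lib.MP_360b3f_an

open MeasureTheory Set Filter Topology Convolution
open scoped ContDiff

namespace CoreSol

variable {K u₀ : ℝ → ℝ} {T M : ℝ} {u v : ℝ → ℝ → ℝ}

/-- mean deficit of `q` against a test function -/
theorem deficit (h : CoreSol K u₀ T M u v) (hT : 0 < T) {β : ℝ → ℝ}
    (hβ : ContDiff ℝ ∞ β) (hβc : HasCompactSupport β) (hβ0 : ∀ x, 0 ≤ β x) :
    ∫ x, (T - ∫ s in (0:ℝ)..T, v s x) * β x ≤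
      T * (T * (∫ x, |deriv (deriv β) x|)
        + ∫ x, (∫ s in (0:ℝ)..T, v s x * Real.exp (u s x)) * β x) := by
  have hβi : Integrable β := int_of_cs hβ hβc
  have hβ'' : Integrable (deriv (deriv β)) :=
    int_of_cs (contDiff_deriv (contDiff_deriv hβ)) (cs_deriv (cs_deriv hβc))
  have e1 : ∀ x, (T - ∫ s in (0:ℝ)..T, v s x) * β x
      = ∫ s in Ioc (0:ℝ) T, (1 - v s x) * β x := by
    intro x
    rw [integral_mul_const]
    congr 1
    rw [← intervalIntegral.integral_of_le hT.le,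
      intervalIntegral.integral_sub intervalIntegrable_const (h.int_v x 0 T)]
    simp
  simp_rw [e1]
  have hint : Integrable (Function.uncurry fun (x s : ℝ) => (1 - v s x) * β x)
      (volume.prod (volume.restrict (Ioc (0:ℝ) T))) := by
    have i1 : Integrable (fun z : ℝ × ℝ => β z.1 * (1:ℝ))
        (volume.prod (volume.restrict (Ioc (0:ℝ) T))) :=
      Integrable.mul_prod (f := β) (g := fun _ => (1:ℝ)) hβi
        (integrable_const (1:ℝ))
    refine i1.mono ?_ (Eventually.of_forall fun z => ?_)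
    · apply Measurable.aestronglyMeasurable
      apply Measurable.mul
      · exact measurable_const.sub (h.mv.comp (measurable_snd.prodMk measurable_fst))
      · exact hβ.continuous.measurable.comp measurable_fst
    · have e2 : |1 - v z.2 z.1| ≤ 1 := by
        rw [abs_le]; constructor <;> linarith [h.v0 z.2 z.1, h.v1 z.2 z.1]
      show ‖(1 - v z.2 z.1) * β z.1‖ ≤ ‖β z.1 * 1‖
      rw [mul_one, norm_mul]
      calc ‖1 - v z.2 z.1‖ * ‖β z.1‖ ≤ 1 * ‖β z.1‖ := by
            gcongr; simpa using e2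
        _ = ‖β z.1‖ := one_mul _
  rw [integral_integral_swap hint]
  have hW : ∀ s ∈ Ioc (0:ℝ) T, ∫ x, (1 - v s x) * β x ≤ T * (∫ x, |deriv (deriv β) x|)
        + ∫ x, (∫ s in (0:ℝ)..T, v s x * Real.exp (u s x)) * β x := by
    intro s hs
    have hs' : s ∈ Icc (0:ℝ) T := ⟨hs.1.le, hs.2⟩
    have e3 := h.ev β hβ hβc s hs'
    have i2 : Integrable (fun x => v s x * β x) := bdd_mul_int (h.mv_t s) (h.vabs s) hβi
    have e4 : ∫ x, (1 - v s x) * β x = (∫ x, β x) - ∫ x, v s x * β x := by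
      rw [← integral_sub hβi i2]
      congr 1; funext x; ring
    rw [e4, e3]
    have e5 : -(∫ x, (∫ r in (0:ℝ)..s, v r x) * deriv (deriv β) x) ≤
        T * (∫ x, |deriv (deriv β) x|) := by
      rw [← integral_neg, ← integral_const_mul]
      apply integral_mono (bdd_mul_int (h.mq s) (h.qabs hs'.1) hβ'').neg (hβ''.abs.const_mul T)
      intro x
      simp only
      have f1 := h.qabs hs'.1 x
      calc -((∫ r in (0:ℝ)..s, v r x) * deriv (deriv β) x)
          ≤ |(∫ r in (0:ℝ)..s, v r x) * deriv (deriv β) x| := neg_le_abs _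
        _ = |∫ r in (0:ℝ)..s, v r x| * |deriv (deriv β) x| := abs_mul _ _
        _ ≤ T * |deriv (deriv β) x| := by
            gcongr
            exact f1.trans hs'.2
    have e6 : ∫ x, (∫ r in (0:ℝ)..s, v r x * Real.exp (u r x)) * β x ≤
        ∫ x, (∫ r in (0:ℝ)..T, v r x * Real.exp (u r x)) * β x := by
      apply integral_mono (bdd_mul_int (h.mH s) (h.Habs hs'.1) hβi)
        (bdd_mul_int (h.mH T) (h.Habs hT.le) hβi)
      intro x
      exact mul_le_mul_of_nonneg_right (h.H_mono hs'.1 hs'.2 x) (hβ0 x)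
    linarith
  set W := T * (∫ x, |deriv (deriv β) x|)
        + ∫ x, (∫ s in (0:ℝ)..T, v s x * Real.exp (u s x)) * β x with hWdef
  have hfin : ∫ s in Ioc (0:ℝ) T, (∫ x, (1 - v s x) * β x) ≤ ∫ s in Ioc (0:ℝ) T, W := by
    apply setIntegral_mono_on
    · exact hint.integral_prod_right
    · exact integrableOn_const (by simp)
    · exact measurableSet_Ioc
    · exact hW
  refine hfin.trans (le_of_eq ?_)
  rw [setIntegral_const]
  simp [hT.le]

/-- lower bound for the mollified `q(T,·)` at `0` -/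
theorem center (h : CoreSol K u₀ T M u v) (hT : 0 < T) {R : ℝ} (hR : 0 < R) {ρ β : ℝ → ℝ}
    (hρ : ContDiff ℝ ∞ ρ) (hρc : HasCompactSupport ρ) (hρ0 : ∀ x, 0 ≤ ρ x) (hρ1 : ∫ x, ρ x = 1)
    (hρs : ∀ x, R < |x| → ρ x = 0)
    (hβ : ContDiff ℝ ∞ β) (hβc : HasCompactSupport β) (hβ0 : ∀ x, 0 ≤ β x) (hβ1 : ∀ x, β x ≤ 1)
    (hβ2 : ∀ x ∈ Icc (-(2 * R)) (2 * R), β x = 1)
    (hβ3 : ∀ x, x ∉ Icc (-(3 * R)) (3 * R) → β x = 0) {J : ℝ}
    (hJ : ∫ x in Icc (-(3 * R)) (3 * R), (∫ s in (0:ℝ)..T, v s x * Real.exp (u s x)) ≤ J) :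
    2 * R * (T - cv (fun y => ∫ s in (0:ℝ)..T, v s y) ρ 0) ≤
      T * (T * (∫ x, |deriv (deriv β) x|) + J) + R ^ 2 * J := by
  have hTT : T ∈ Icc (0:ℝ) T := ⟨hT.le, le_rfl⟩
  have hρi : Integrable ρ := int_of_cs hρ hρc
  set q : ℝ → ℝ := fun y => ∫ s in (0:ℝ)..T, v s y with hq
  set H : ℝ → ℝ := fun y => ∫ s in (0:ℝ)..T, v s y * Real.exp (u s y) with hH
  have hqm : Measurable q := h.mq T
  have hqb : ∀ x, |q x| ≤ T := h.qabs hT.le
  have hHm : Measurable H := h.mH T
  have hHb : ∀ x, |H x| ≤ T * Real.exp M := h.Habs hT.le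
  have hH0 : ∀ x, 0 ≤ H x := h.H_nonneg hT.le
  have hq0 : ∀ x, 0 ≤ q x := h.q_nonneg hT.le
  have hqT : ∀ x, q x ≤ T := h.q_le hT.le
  -- set integrals of H
  have hHi : ∀ a b, IntegrableOn H (Icc a b) := fun a b =>
    (bdd_locInt hHm hHb).integrableOn_isCompact isCompact_Icc
  have hJ2 : ∫ x in Icc (-(2 * R)) (2 * R), H x ≤ J := by
    refine le_trans ?_ hJ
    apply setIntegral_mono_set (hHi _ _)
    · exact Eventually.of_forall fun x => hH0 x
    · apply LE.le.eventuallyLE
      apply Icc_subset_Icc <;> linarith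
  have hI : ∫ x in (-R)..R, cv H ρ x ≤ J :=
    (integral_cv_le hHm hHb hH0 hρ hρc hρ0 hρ1 hρs hR.le).trans hJ2
  -- apply `center_le`
  have hc := center_le (P := fun x => T - cv q ρ x) (P' := fun x => -(cv q (deriv ρ) x))
    (P'' := fun x => -(cv q (deriv (deriv ρ)) x)) (h := cv H ρ) hR
    (fun x => by
      have := (cv_hasDerivAt hqm hqb hρ hρc x).const_sub T
      exact this)
    (fun x => (cv_hasDerivAt hqm hqb (contDiff_deriv hρ) (cs_deriv hρc) x).neg)
    ((cv_continuous hqm hqb (contDiff_deriv (contDiff_deriv hρ))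
      (cs_deriv (cs_deriv hρc))).neg)
    (cv_continuous hHm hHb hρ hρc)
    (fun x => integral_nonneg fun y => mul_nonneg (hH0 y) (hρ0 _))
    (fun x => by
      have e := h.q_moll hTT hρ hρc x
      rw [hρ1] at e
      have e1 : cv (v T) ρ x ≤ ∫ y, 1 * ρ (x - y) := by
        apply integral_mono (bdd_mul_int (h.mv_t T) (h.vabs T) (int_flip hρi x))
          ((int_flip hρi x).const_mul 1)
        intro y
        exact mul_le_mul_of_nonneg_right (h.v1 T y) (hρ0 _)
      rw [integral_const_mul, flip_integral, hρ1] at e1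
      simp only [hq, hH] at e ⊢
      linarith) hI
  -- bound the integral of `P`
  set p : ℝ → ℝ := fun y => T - q y with hp
  have hpm : Measurable p := measurable_const.sub hqm
  have hp0 : ∀ x, 0 ≤ p x := fun x => by simp only [hp]; linarith [hqT x]
  have hpb : ∀ x, |p x| ≤ T := fun x => by
    rw [abs_of_nonneg (hp0 x)]; simp only [hp]; linarith [hq0 x]
  have hcvp : ∀ x, cv p ρ x = T - cv q ρ x := by
    intro x
    have i1 : Integrable (fun y => T * ρ (x - y)) := (int_flip hρi x).const_mul T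
    have i2 : Integrable (fun y => q y * ρ (x - y)) := bdd_mul_int hqm hqb (int_flip hρi x)
    unfold cv
    have : (fun y => p y * ρ (x - y)) = fun y => T * ρ (x - y) - q y * ρ (x - y) := by
      funext y; simp only [hp]; ring
    rw [this, integral_sub i1 i2, integral_const_mul, flip_integral, hρ1, mul_one]
  have hPle : ∫ x in (-R)..R, (T - cv q ρ x) ≤ ∫ x in Icc (-(2 * R)) (2 * R), p x := by
    have : (fun x => T - cv q ρ x) = cv p ρ := by funext x; rw [hcvp]
    rw [this]
    exact integral_cv_le hpm hpb hp0 hρ hρc hρ0 hρ1 hρs hR.le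
  have hβi : Integrable β := int_of_cs hβ hβc
  have ipβ : Integrable (fun x => p x * β x) := bdd_mul_int hpm hpb hβi
  have iHβ : Integrable (fun x => H x * β x) := bdd_mul_int hHm hHb hβi
  have hPβ : ∫ x in Icc (-(2 * R)) (2 * R), p x ≤ ∫ x, p x * β x := by
    have e1 : ∫ x in Icc (-(2 * R)) (2 * R), p x = ∫ x in Icc (-(2 * R)) (2 * R), p x * β x := by
      apply setIntegral_congr_fun measurableSet_Icc
      intro x hx
      simp only
      rw [hβ2 x hx, mul_one]
    rw [e1]
    exact setIntegral_le_integral ipβ (Eventually.of_forall fun x => mul_nonneg (hp0 x) (hβ0 x))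
  have hHβ : ∫ x, H x * β x ≤ J := by
    refine le_trans ?_ hJ
    have e1 : ∫ x, H x * β x = ∫ x in Icc (-(3 * R)) (3 * R), H x * β x := by
      symm
      apply setIntegral_eq_integral_of_forall_compl_eq_zero
      intro x hx
      rw [hβ3 x hx, mul_zero]
    rw [e1]
    apply setIntegral_mono_on iHβ.integrableOn (hHi _ _) measurableSet_Icc
    intro x _
    calc H x * β x ≤ H x * 1 := mul_le_mul_of_nonneg_left (hβ1 x) (hH0 x)
      _ = H x := mul_one _
  have hdef := h.deficit hT hβ hβc hβ0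
  have hfin : ∫ x in (-R)..R, (T - cv q ρ x) ≤ T * (T * (∫ x, |deriv (deriv β) x|) + J) := by
    refine hPle.trans (hPβ.trans (hdef.trans ?_))
    apply mul_le_mul_of_nonneg_left _ hT.le
    linarith
  simp only [hq] at hc hfin ⊢
  linarith

end CoreSol

end Pool.Agent.Lib.MP_360b3f_an
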