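import Mathlib

set_option autoImplicit false

namespace Pool.Agent.Lib.MP_360b3f_an

open MeasureTheory Set Filter Topology

/-- second derivative test at a minimum -/
theorem second_deriv_nonneg_of_min {Y Y' Y'' : ℝ → ℝ} {x₀ : ℝ}
    (h1 : ∀ x, HasDerivAt Y (Y' x) x) (h2 : ∀ x, HasDerivAt Y' (Y'' x) x)
    (hmin : IsLocalMin Y x₀) : 0 ≤ Y'' x₀ := by
  by_contra hcon
  push Not at hcon
  have hd0 : Y' x₀ = 0 := hmin.hasDerivAt_eq_zero (h1 x₀)
  have hdY : deriv Y = Y' := funext fun x => (h1 x).deriv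
  have hddY : deriv (deriv Y) x₀ = Y'' x₀ := by rw [hdY]; exact (h2 x₀).deriv
  have hmax : IsLocalMax Y x₀ := by
    apply isLocalMax_of_deriv_deriv_neg
    · rw [hddY]; exact hcon
    · rw [hdY]; exact hd0
    · exact (h1 x₀).continuousAt
  -- locally constant
  have hconst : Y =ᶠ[𝓝 x₀] fun _ => Y x₀ := by
    filter_upwards [hmin, hmax] with x h3 h4
    exact le_antisymm h4 h3
  have h5 : deriv Y =ᶠ[𝓝 x₀] deriv (fun _ => Y x₀) := hconst.deriv
  have h6 : deriv (deriv Y) x₀ = deriv (deriv (fun _ => Y x₀)) x₀ := h5.deriv_eq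
  rw [hddY] at h6
  simp at h6
  linarith

/-- Minimum principle on the line for (integrated) supersolutions of `W_t = W_xx - C W`. -/
theorem min_principle {W W' W'' : ℝ → ℝ → ℝ} {T C m : ℝ} (hC : 0 ≤ C)
    (hWc : Continuous (Function.uncurry W)) (hW''c : Continuous (Function.uncurry W''))
    (h1 : ∀ t x, HasDerivAt (W t) (W' t x) x) (h2 : ∀ t x, HasDerivAt (W' t) (W'' t x) x)
    (hbd : ∀ t x, -m ≤ W t x) (hW0 : ∀ x, 0 ≤ W 0 x)
    (hsuper : ∀ s ∈ Icc (0:ℝ) T, ∀ t ∈ Icc (0:ℝ) T, s ≤ t → ∀ x,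
      ∫ r in s..t, (W'' r x - C * W r x) ≤ W t x - W s x) :
    ∀ t ∈ Icc (0:ℝ) T, ∀ x, 0 ≤ W t x := by
  intro t₁ ht₁ x₁
  by_contra hcon
  push Not at hcon
  -- choose η
  obtain ⟨η, hη, hηneg⟩ : ∃ η : ℝ, 0 < η ∧ W t₁ x₁ + η * (1 + x₁ ^ 2 + 3 * t₁) < 0 := by
    have hpos : 0 < 1 + x₁ ^ 2 + 3 * t₁ := by
      have := ht₁.1; positivity
    refine ⟨-(W t₁ x₁) / (2 * (1 + x₁ ^ 2 + 3 * t₁)), by
      apply div_pos; linarith; positivity, ?_⟩
    have : -(W t₁ x₁) / (2 * (1 + x₁ ^ 2 + 3 * t₁)) * (1 + x₁ ^ 2 + 3 * t₁)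
        = -(W t₁ x₁) / 2 := by
      field_simp
    rw [this]; linarith
  set Y : ℝ → ℝ → ℝ := fun t x => W t x + η * (1 + x ^ 2 + 3 * t) with hY
  have hYc : Continuous (Function.uncurry Y) := by
    have : Function.uncurry Y = fun p : ℝ × ℝ =>
      Function.uncurry W p + η * (1 + p.2 ^ 2 + 3 * p.1) := by
      funext p; rfl
    rw [this]; fun_prop
  have hm0 : 0 ≤ m := by
    have e1 := hbd t₁ x₁
    linarith
  -- radius
  set R : ℝ := |x₁| + Real.sqrt (m / η) + 1 with hR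
  have hRpos : 0 < R := by positivity
  have hfar : ∀ t ∈ Icc (0:ℝ) t₁, ∀ x, R ≤ |x| → 0 < Y t x := by
    intro t ht x hx
    have e1 := hbd t x
    have e2 : Real.sqrt (m / η) ≤ |x| := by
      have : 0 ≤ |x₁| := abs_nonneg _
      linarith
    have e3 : m / η ≤ x ^ 2 := by
      have := Real.sqrt_le_left (x := m / η) (y := |x|) (abs_nonneg _)
      rw [Real.sqrt_le_left (abs_nonneg _)] at e2
      rwa [sq_abs] at e2
    have e4 : m ≤ η * x ^ 2 := by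
      rw [div_le_iff₀ hη] at e3; linarith
    have e5 : 0 ≤ η * (3 * t) := by have := ht.1; positivity
    simp only [hY]
    have e6 : η * (1 + x ^ 2 + 3 * t) = η + η * x ^ 2 + η * (3 * t) := by ring
    rw [e6]; linarith
  -- minimum on the compact box
  have hbox : IsCompact (Icc (0:ℝ) t₁ ×ˢ Icc (-R) R) := isCompact_Icc.prod isCompact_Icc
  have hx₁R : |x₁| ≤ R := by
    have := Real.sqrt_nonneg (m / η)
    linarith
  have hne : (Icc (0:ℝ) t₁ ×ˢ Icc (-R) R).Nonempty :=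
    ⟨(t₁, x₁), ⟨⟨ht₁.1, le_rfl⟩, abs_le.1 hx₁R⟩⟩
  obtain ⟨⟨t₀, x₀⟩, hmem, hmin⟩ := hbox.exists_isMinOn hne hYc.continuousOn
  have ht₀ : t₀ ∈ Icc (0:ℝ) t₁ := hmem.1
  have ht₀T : t₀ ∈ Icc (0:ℝ) T := ⟨ht₀.1, ht₀.2.trans ht₁.2⟩
  have hYneg : Y t₀ x₀ < 0 := by
    have := hmin (show (t₁, x₁) ∈ Icc (0:ℝ) t₁ ×ˢ Icc (-R) R from
      ⟨⟨ht₁.1, le_rfl⟩, abs_le.1 hx₁R⟩)
    have e1 : Y t₀ x₀ ≤ Y t₁ x₁ := this
    exact lt_of_le_of_lt e1 hηneg
  have hx₀R : |x₀| < R := by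
    by_contra hge
    push Not at hge
    linarith [hfar t₀ ht₀ x₀ hge]
  have ht₀pos : 0 < t₀ := by
    rcases eq_or_lt_of_le ht₀.1 with h0 | h0
    · exfalso
      have e1 := hW0 x₀
      have e2 : Y t₀ x₀ = W 0 x₀ + η * (1 + x₀ ^ 2 + 3 * 0) := by rw [← h0]
      have e3 : 0 ≤ η * (1 + x₀ ^ 2 + 3 * 0) := by positivity
      linarith
    · exact h0
  have hlocmin : IsLocalMin (Y t₀) x₀ := by
    have : Ioo (-R) R ∈ 𝓝 x₀ := isOpen_Ioo.mem_nhds (abs_lt.1 hx₀R)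
    filter_upwards [this] with x hx
    exact hmin (show (t₀, x) ∈ Icc (0:ℝ) t₁ ×ˢ Icc (-R) R from ⟨ht₀, ⟨hx.1.le, hx.2.le⟩⟩)
  have hY1 : ∀ x, HasDerivAt (Y t₀) (W' t₀ x + η * (2 * x)) x := by
    intro x
    have e1 : HasDerivAt (fun x : ℝ => 1 + x ^ 2 + 3 * t₀) (2 * x) x := by
      have := ((hasDerivAt_id x).fun_pow 2).const_add 1 |>.add_const (3 * t₀)
      simpa using this
    exact (h1 t₀ x).add (e1.const_mul η)
  have hY2 : ∀ x, HasDerivAt (fun x => W' t₀ x + η * (2 * x)) (W'' t₀ x + η * 2) x := by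
    intro x
    have e1 : HasDerivAt (fun x : ℝ => 2 * x) 2 x := by
      simpa using (hasDerivAt_id x).const_mul 2
    exact (h2 t₀ x).add (e1.const_mul η)
  have hsd : 0 ≤ W'' t₀ x₀ + η * 2 :=
    second_deriv_nonneg_of_min (Y'' := fun x => W'' t₀ x + η * 2) hY1 hY2 hlocmin
  -- the integrand at (t₀,x₀) is positive
  set F : ℝ → ℝ := fun r => W'' r x₀ - C * W r x₀ + 3 * η with hF
  have hFc : Continuous F := by
    have e1 : Continuous (fun r => W'' r x₀) := hW''c.comp (by fun_prop : Continuous fun r : ℝ => (r, x₀))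
    have e2 : Continuous (fun r => W r x₀) := hWc.comp (by fun_prop : Continuous fun r : ℝ => (r, x₀))
    rw [hF]; fun_prop
  have hWneg : W t₀ x₀ < 0 := by
    have : 0 ≤ η * (1 + x₀ ^ 2 + 3 * t₀) := by positivity
    simp only [hY] at hYneg
    linarith
  have hFpos : 0 < F t₀ := by
    simp only [hF]
    have : C * W t₀ x₀ ≤ 0 := mul_nonpos_of_nonneg_of_nonpos hC hWneg.le
    linarith
  -- F > 0 on a left neighborhood
  have hev : ∀ᶠ r in 𝓝 t₀, 0 < F r := continuousAt_const.eventually_lt hFc.continuousAt hFpos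
  obtain ⟨δ, hδ, hball⟩ := Metric.eventually_nhds_iff_ball.1 hev
  set s := max (t₀ - δ / 2) 0 with hs
  have hst : s < t₀ := by
    rw [hs]; exact max_lt (by linarith) ht₀pos
  have hs0 : 0 ≤ s := le_max_right _ _
  have hsδ : t₀ - δ / 2 ≤ s := le_max_left _ _
  have hsT : s ∈ Icc (0:ℝ) T := ⟨hs0, hst.le.trans ht₀T.2⟩
  have hsup := hsuper s hsT t₀ ht₀T hst.le x₀
  have hYs : Y t₀ x₀ ≤ Y s x₀ :=
    hmin (show (s, x₀) ∈ Icc (0:ℝ) t₁ ×ˢ Icc (-R) R from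
      ⟨⟨hs0, hst.le.trans ht₀.2⟩, abs_le.1 hx₀R.le⟩)
  have hint : ∫ r in s..t₀, F r = (∫ r in s..t₀, (W'' r x₀ - C * W r x₀)) + 3 * η * (t₀ - s) := by
    have e1 : Continuous (fun r => W'' r x₀) := hW''c.comp (by fun_prop : Continuous fun r : ℝ => (r, x₀))
    have e2 : Continuous (fun r => W r x₀) := hWc.comp (by fun_prop : Continuous fun r : ℝ => (r, x₀))
    have e3 : Continuous (fun r => W'' r x₀ - C * W r x₀) := e1.sub (continuous_const.mul e2)
    rw [hF, intervalIntegral.integral_add (e3.intervalIntegrable _ _) intervalIntegrable_const,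
      intervalIntegral.integral_const, smul_eq_mul]
    ring
  have hpos : 0 < ∫ r in s..t₀, F r := by
    apply intervalIntegral.intervalIntegral_pos_of_pos_on (hFc.intervalIntegrable _ _) _ hst
    intro r hr
    apply hball
    rw [Metric.mem_ball, Real.dist_eq, abs_lt]
    constructor <;> linarith [hr.1, hr.2]
  have : Y t₀ x₀ - Y s x₀ = W t₀ x₀ - W s x₀ + 3 * η * (t₀ - s) := by
    simp only [hY]; ring
  linarith

end Pool.Agent.Lib.MP_360b3f_an
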