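import Mathlib
import Pool.Agent.Lib.MP_360b3f_an.Good
import Pool.Agent.Lib.MP_360b3f_an.MaxP

set_option autoImplicit false

namespace Pool.Agent.Lib.MP_360b3f_an

open MeasureTheory Set Filter Topology Convolution
open scoped ContDiff

/-- Bounded weak solutions of `v_t = v_xx - c v`, `v(0) = 1`. -/
structure LinSol (T C M : ℝ) (c v : ℝ → ℝ → ℝ) : Prop where
  mc : Measurable (Function.uncurry c)
  mv : Measurable (Function.uncurry v)
  vM : ∀ t x, |v t x| ≤ M
  c0 : ∀ t x, 0 ≤ c t x
  cC : ∀ t x, c t x ≤ C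
  eq : ∀ φ : ℝ → ℝ, ContDiff ℝ ∞ φ → HasCompactSupport φ → ∀ t ∈ Icc (0:ℝ) T,
    ∫ x, v t x * φ x = (∫ x, φ x)
      + ∫ s in (0:ℝ)..t, ∫ x, (v s x * deriv (deriv φ) x - c s x * v s x * φ x)

/-- clamp to `[0,T]` -/
noncomputable def clampT (T t : ℝ) : ℝ := max 0 (min T t)

theorem clampT_mem {T : ℝ} (hT : 0 ≤ T) (t : ℝ) : clampT T t ∈ Icc (0:ℝ) T :=
  ⟨le_max_left _ _, max_le hT (min_le_left _ _)⟩

theorem clampT_eq {T t : ℝ} (ht : t ∈ Icc (0:ℝ) T) : clampT T t = t := by
  unfold clampT
  rw [min_eq_right ht.2, max_eq_right ht.1]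

theorem clampT_lip (T s t : ℝ) : |clampT T s - clampT T t| ≤ |s - t| := by
  unfold clampT
  refine (abs_max_sub_max_le_max _ _ _ _).trans ?_
  apply max_le (by simp)
  refine (abs_min_sub_min_le_max _ _ _ _).trans ?_
  apply max_le (by simp) le_rfl

namespace LinSol

variable {T C M : ℝ} {c v : ℝ → ℝ → ℝ}

theorem M0 (h : LinSol T C M c v) : 0 ≤ M := (abs_nonneg _).trans (h.vM 0 0)
theorem C0 (h : LinSol T C M c v) : 0 ≤ C := (h.c0 0 0).trans (h.cC 0 0)

theorem mv_t (h : LinSol T C M c v) (t : ℝ) : Measurable (v t) :=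
  h.mv.comp (measurable_const.prodMk measurable_id)

theorem mc_t (h : LinSol T C M c v) (t : ℝ) : Measurable (c t) :=
  h.mc.comp (measurable_const.prodMk measurable_id)

theorem cvM (h : LinSol T C M c v) (t x : ℝ) : |c t x * v t x| ≤ C * M := by
  rw [abs_mul, abs_of_nonneg (h.c0 t x)]
  exact mul_le_mul (h.cC t x) (h.vM t x) (abs_nonneg _) h.C0

theorem mcv_t (h : LinSol T C M c v) (t : ℝ) : Measurable (fun x => c t x * v t x) :=
  (h.mc_t t).mul (h.mv_t t)

theorem cv_abs_le {f ρ : ℝ → ℝ} {A : ℝ} (hf : Measurable f) (hA : ∀ x, |f x| ≤ A)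
    (hρ : Integrable ρ) (x : ℝ) : |cv f ρ x| ≤ A * ∫ y, |ρ y| := by
  unfold cv
  refine (abs_integral_le_integral_abs).trans ?_
  have : ∫ y, |f y * ρ (x - y)| ≤ ∫ y, A * |ρ (x - y)| := by
    apply integral_mono (bdd_mul_int hf hA (CoreSol.int_flip hρ x)).abs
      ((CoreSol.int_flip hρ x).abs.const_mul A)
    intro y
    simp only
    rw [abs_mul]
    exact mul_le_mul_of_nonneg_right (hA y) (abs_nonneg _)
  refine this.trans (le_of_eq ?_)
  rw [integral_const_mul, flip_integral (fun y => |ρ y|) x]

theorem meas_cv_time {f : ℝ → ℝ → ℝ} (hf : Measurable (Function.uncurry f)) {ρ : ℝ → ℝ}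
    (hρ : Continuous ρ) (x : ℝ) : Measurable (fun s => cv (f s) ρ x) := by
  have h1 : Measurable (Function.uncurry (fun (s : ℝ) (y : ℝ) => f s y * ρ (x - y))) := by
    apply Measurable.mul
    · exact hf
    · exact hρ.measurable.comp (by fun_prop)
  exact h1.stronglyMeasurable.integral_prod_right.measurable

/-- the mollified equation -/
theorem moll_eq (h : LinSol T C M c v) {ψ : ℝ → ℝ} (hψ : ContDiff ℝ ∞ ψ)
    (hψc : HasCompactSupport ψ) {s t : ℝ} (hs : s ∈ Icc (0:ℝ) T) (ht : t ∈ Icc (0:ℝ) T) (x : ℝ) :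
    cv (v t) ψ x - cv (v s) ψ x = ∫ r in s..t, (cv (v r) (deriv (deriv ψ)) x
      - cv (fun y => c r y * v r y) ψ x) := by
  have hψi : Integrable ψ := int_of_cs hψ hψc
  have hψ''i : Integrable (deriv (deriv ψ)) :=
    int_of_cs (contDiff_deriv (contDiff_deriv hψ)) (cs_deriv (cs_deriv hψc))
  have key : ∀ t ∈ Icc (0:ℝ) T, cv (v t) ψ x = (∫ y, ψ y) + ∫ r in (0:ℝ)..t,
      (cv (v r) (deriv (deriv ψ)) x - cv (fun y => c r y * v r y) ψ x) := by
    intro t ht
    have e := h.eq _ (flip_contDiff hψ x) (flip_cs hψc x) t ht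
    rw [flip_deriv2, flip_integral ψ x] at e
    have e1 : cv (v t) ψ x = ∫ y, v t y * ψ (x - y) := rfl
    rw [e1, e]
    congr 1
    apply intervalIntegral.integral_congr
    intro r _
    simp only
    rw [integral_sub (bdd_mul_int (h.mv_t r) (h.vM r) (CoreSol.int_flip hψ''i x))
      (bdd_mul_int (h.mcv_t r) (h.cvM r) (CoreSol.int_flip hψi x))]
    rfl
  have hint : ∀ a b, IntervalIntegrable (fun r => cv (v r) (deriv (deriv ψ)) x
      - cv (fun y => c r y * v r y) ψ x) volume a b := by
    intro a b
    have m1 : Measurable (fun r => cv (v r) (deriv (deriv ψ)) x) :=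
      meas_cv_time h.mv (contDiff_deriv (contDiff_deriv hψ)).continuous x
    have m2 : Measurable (fun r => cv (fun y => c r y * v r y) ψ x) :=
      meas_cv_time (f := fun r y => c r y * v r y) (h.mc.mul h.mv) hψ.continuous x
    refine IntervalIntegrable.mono_fun
      (f := fun _ => M * (∫ y, |deriv (deriv ψ) y|) + C * M * ∫ y, |ψ y|) intervalIntegrable_const
      (m1.sub m2).aestronglyMeasurable (Eventually.of_forall fun r => ?_)
    have e1 := cv_abs_le (h.mv_t r) (h.vM r) hψ''i x
    have e2 := cv_abs_le (h.mcv_t r) (h.cvM r) hψi x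
    have e3 : ‖cv (v r) (deriv (deriv ψ)) x - cv (fun y => c r y * v r y) ψ x‖ ≤
        M * (∫ y, |deriv (deriv ψ) y|) + C * M * ∫ y, |ψ y| := by
      rw [Real.norm_eq_abs]
      refine (abs_sub _ _).trans (add_le_add e1 e2)
    exact e3.trans (le_abs_self _)
  rw [key t ht, key s hs, add_sub_add_left_eq_sub,
    intervalIntegral.integral_interval_sub_left (hint 0 t) (hint 0 s)]

/-- joint Lipschitz continuity of mollified solutions (clamped in time) -/
theorem moll_cont (h : LinSol T C M c v) (hT : 0 ≤ T) {ψ : ℝ → ℝ} (hψ : ContDiff ℝ ∞ ψ)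
    (hψc : HasCompactSupport ψ) :
    Continuous (Function.uncurry fun t x => cv (v (clampT T t)) ψ x) := by
  have hψi : Integrable ψ := int_of_cs hψ hψc
  have hψ''i : Integrable (deriv (deriv ψ)) :=
    int_of_cs (contDiff_deriv (contDiff_deriv hψ)) (cs_deriv (cs_deriv hψc))
  have hψ'i : Integrable (deriv ψ) := int_of_cs (contDiff_deriv hψ) (cs_deriv hψc)
  set L : ℝ := M * (∫ y, |deriv (deriv ψ) y|) + C * M * ∫ y, |ψ y| with hL
  have hL0 : 0 ≤ L := by
    have := h.M0; have := h.C0
    have : 0 ≤ ∫ y, |deriv (deriv ψ) y| := integral_nonneg fun _ => abs_nonneg _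
    have : 0 ≤ ∫ y, |ψ y| := integral_nonneg fun _ => abs_nonneg _
    positivity
  have hl1 : ∀ x, LipschitzWith (Real.toNNReal L) (fun t => cv (v (clampT T t)) ψ x) := by
    intro x
    apply LipschitzWith.of_dist_le_mul
    intro t s
    rw [Real.dist_eq, Real.dist_eq, Real.coe_toNNReal _ hL0,
      h.moll_eq hψ hψc (clampT_mem hT s) (clampT_mem hT t) x]
    have e := intervalIntegral.norm_integral_le_of_norm_le_const (a := clampT T s)
      (b := clampT T t) (C := L) (f := fun r => cv (v r) (deriv (deriv ψ)) x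
      - cv (fun y => c r y * v r y) ψ x) (fun r _ => by
        rw [Real.norm_eq_abs]
        exact (abs_sub _ _).trans (add_le_add (cv_abs_le (h.mv_t r) (h.vM r) hψ''i x)
          (cv_abs_le (h.mcv_t r) (h.cvM r) hψi x)))
    refine e.trans ?_
    exact mul_le_mul_of_nonneg_left (clampT_lip T t s) hL0
  set L' : ℝ := M * ∫ y, |deriv ψ y| with hL'
  have hL'0 : 0 ≤ L' := by
    have := h.M0
    have : 0 ≤ ∫ y, |deriv ψ y| := integral_nonneg fun _ => abs_nonneg _
    positivity
  have hl2 : ∀ t, LipschitzWith (Real.toNNReal L') (cv (v (clampT T t)) ψ) := by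
    intro t
    apply LipschitzWith.of_dist_le_mul
    intro x y
    rw [Real.dist_eq, Real.dist_eq, Real.coe_toNNReal _ hL'0]
    have := Convex.norm_image_sub_le_of_norm_hasDerivWithin_le (f := cv (v (clampT T t)) ψ)
      (f' := cv (v (clampT T t)) (deriv ψ)) (C := L') (s := univ) (x := y) (y := x)
      (fun z _ => (cv_hasDerivAt (h.mv_t _) (h.vM _) hψ hψc z).hasDerivWithinAt)
      (fun z _ => by simpa using cv_abs_le (h.mv_t _) (h.vM _) hψ'i z) convex_univ
      (mem_univ _) (mem_univ _)
    simpa using this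
  exact (LipschitzWith.uncurry hl1 hl2).continuous

theorem lower_step (h : LinSol T C M c v) (hT : 0 ≤ T) {μ : ℝ → ℝ} (hμc : Continuous μ)
    (hμ0 : ∀ t ∈ Icc (0:ℝ) T, 0 ≤ μ t) (hv : ∀ t ∈ Icc (0:ℝ) T, ∀ᵐ x, -(μ t) ≤ v t x) :
    ∀ t ∈ Icc (0:ℝ) T, ∀ᵐ x, -(∫ r in (0:ℝ)..t, C * μ r) ≤ v t x := by
  have hC0 := h.C0
  have hM0 := h.M0
  -- bound for every mollification
  have hmoll : ∀ {ρ : ℝ → ℝ}, ContDiff ℝ ∞ ρ → HasCompactSupport ρ → (∀ x, 0 ≤ ρ x) →
      (∫ x, ρ x = 1) → ∀ t ∈ Icc (0:ℝ) T, ∀ x, -(∫ r in (0:ℝ)..t, C * μ r) ≤ cv (v t) ρ x := by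
    intro ρ hρ hρc hρ0 hρ1
    have hρi : Integrable ρ := int_of_cs hρ hρc
    set μ' : ℝ → ℝ := fun t => ∫ r in (0:ℝ)..t, C * μ r with hμ'
    have hCμ : Continuous (fun r => C * μ r) := continuous_const.mul hμc
    have hμ'c : Continuous μ' := by
      apply intervalIntegral.continuous_primitive (fun a b => hCμ.intervalIntegrable a b)
    have hclc : Continuous (clampT T) := by unfold clampT; fun_prop
    have hμ'0 : ∀ t ∈ Icc (0:ℝ) T, 0 ≤ μ' t := by
      intro t ht
      apply intervalIntegral.integral_nonneg ht.1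
      intro r hr
      exact mul_nonneg hC0 (hμ0 r ⟨hr.1, hr.2.trans ht.2⟩)
    set W : ℝ → ℝ → ℝ := fun t x => cv (v (clampT T t)) ρ x + μ' (clampT T t) with hW
    have hmin := min_principle (W := W) (W' := fun t x => cv (v (clampT T t)) (deriv ρ) x)
      (W'' := fun t x => cv (v (clampT T t)) (deriv (deriv ρ)) x) (T := T) (C := C)
      (m := M * ∫ y, |ρ y|) hC0 ?_ ?_ ?_ ?_ ?_ ?_ ?_
    · intro t ht x
      have := hmin t ht x
      simp only [hW, clampT_eq ht] at this
      linarith
    · have e1 := h.moll_cont hT hρ hρc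
      have e2 : Continuous (fun p : ℝ × ℝ => μ' (clampT T p.1)) :=
        hμ'c.comp (hclc.comp continuous_fst)
      exact e1.add e2
    · exact h.moll_cont hT (contDiff_deriv (contDiff_deriv hρ)) (cs_deriv (cs_deriv hρc))
    · intro t x
      exact (cv_hasDerivAt (h.mv_t _) (h.vM _) hρ hρc x).add_const _
    · intro t x
      exact cv_hasDerivAt (h.mv_t _) (h.vM _) (contDiff_deriv hρ) (cs_deriv hρc) x
    · intro t x
      have e1 := cv_abs_le (h.mv_t (clampT T t)) (h.vM (clampT T t)) hρi x
      have e2 := hμ'0 _ (clampT_mem hT t)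
      simp only [hW]
      have e3 := neg_abs_le (cv (v (clampT T t)) ρ x)
      linarith
    · intro x
      have h0 : (0:ℝ) ∈ Icc (0:ℝ) T := ⟨le_rfl, hT⟩
      simp only [hW, clampT_eq h0]
      have e1 : cv (v 0) ρ x = ∫ y, ρ y := by
        have := h.eq _ (flip_contDiff hρ x) (flip_cs hρc x) 0 h0
        rw [flip_integral ρ x] at this
        simp only [intervalIntegral.integral_same, add_zero] at this
        exact this
      rw [e1, hρ1]
      have := hμ'0 0 h0
      linarith
    · intro s hs t ht hst x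
      simp only [hW, clampT_eq ht, clampT_eq hs]
      have e1 := h.moll_eq hρ hρc hs ht x
      have e2 : μ' t - μ' s = ∫ r in s..t, C * μ r :=
        intervalIntegral.integral_interval_sub_left (hCμ.intervalIntegrable _ _)
          (hCμ.intervalIntegrable _ _)
      have hint1 : IntervalIntegrable (fun r => cv (v r) (deriv (deriv ρ)) x
          - cv (fun y => c r y * v r y) ρ x) volume s t := by
        have hρ''i : Integrable (deriv (deriv ρ)) :=
          int_of_cs (contDiff_deriv (contDiff_deriv hρ)) (cs_deriv (cs_deriv hρc))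
        have m1 : Measurable (fun r => cv (v r) (deriv (deriv ρ)) x) :=
          meas_cv_time h.mv (contDiff_deriv (contDiff_deriv hρ)).continuous x
        have m2 : Measurable (fun r => cv (fun y => c r y * v r y) ρ x) :=
          meas_cv_time (f := fun r y => c r y * v r y) (h.mc.mul h.mv) hρ.continuous x
        refine IntervalIntegrable.mono_fun
          (f := fun _ => M * (∫ y, |deriv (deriv ρ) y|) + C * M * ∫ y, |ρ y|)
          intervalIntegrable_const
          (m1.sub m2).aestronglyMeasurable (Eventually.of_forall fun r => ?_)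
        have e3 : ‖cv (v r) (deriv (deriv ρ)) x - cv (fun y => c r y * v r y) ρ x‖ ≤
            M * (∫ y, |deriv (deriv ρ) y|) + C * M * ∫ y, |ρ y| := by
          rw [Real.norm_eq_abs]
          refine (abs_sub _ _).trans (add_le_add (cv_abs_le (h.mv_t r) (h.vM r) hρ''i x)
            (cv_abs_le (h.mcv_t r) (h.cvM r) hρi x))
        exact e3.trans (le_abs_self _)
      have e3 : cv (v t) ρ x + μ' t - (cv (v s) ρ x + μ' s)
          = ∫ r in s..t, ((cv (v r) (deriv (deriv ρ)) x
          - cv (fun y => c r y * v r y) ρ x) + C * μ r) := by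
        rw [intervalIntegral.integral_add hint1 (hCμ.intervalIntegrable _ _), ← e1, ← e2]
        ring
      rw [e3]
      apply intervalIntegral.integral_mono_on hst
      · have c1 := h.moll_cont hT (contDiff_deriv (contDiff_deriv hρ)) (cs_deriv (cs_deriv hρc))
        have c2 := h.moll_cont hT hρ hρc
        have c1' : Continuous (fun r => cv (v (clampT T r)) (deriv (deriv ρ)) x) :=
          c1.comp (by fun_prop : Continuous fun r : ℝ => (r, x))
        have c2' : Continuous (fun r => cv (v (clampT T r)) ρ x) :=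
          c2.comp (by fun_prop : Continuous fun r : ℝ => (r, x))
        have c3' : Continuous (fun r => μ' (clampT T r)) := hμ'c.comp hclc
        exact (c1'.sub (continuous_const.mul (c2'.add c3'))).intervalIntegrable _ _
      · exact hint1.add (hCμ.intervalIntegrable _ _)
      · intro r hr
        have hr' : r ∈ Icc (0:ℝ) T := ⟨hs.1.trans hr.1, hr.2.trans ht.2⟩
        simp only [clampT_eq hr']
        have hμ'r := hμ'0 r hr'
        have hμr := hμ0 r hr'
        -- `cv ((C - c) v) ρ ≥ -C μ`
        have i1 : Integrable (fun y => v r y * ρ (x - y)) :=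
          bdd_mul_int (h.mv_t r) (h.vM r) (CoreSol.int_flip hρi x)
        have i2 : Integrable (fun y => c r y * v r y * ρ (x - y)) :=
          bdd_mul_int (h.mcv_t r) (h.cvM r) (CoreSol.int_flip hρi x)
        have e4 : -(C * μ r) ≤ C * cv (v r) ρ x - cv (fun y => c r y * v r y) ρ x := by
          have e5 : C * cv (v r) ρ x - cv (fun y => c r y * v r y) ρ x
              = ∫ y, (C * (v r y * ρ (x - y)) - c r y * v r y * ρ (x - y)) := by
            rw [integral_sub (i1.const_mul C) i2, integral_const_mul]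
            rfl
          have e6 : -(C * μ r) = ∫ y, (-(C * μ r)) * ρ (x - y) := by
            rw [integral_const_mul, flip_integral, hρ1, mul_one]
          rw [e5, e6]
          apply integral_mono_ae ((CoreSol.int_flip hρi x).const_mul _)
            ((i1.const_mul C).sub i2)
          filter_upwards [hv r hr'] with y hy
          have e7 : C * (v r y * ρ (x - y)) - c r y * v r y * ρ (x - y)
              = ((C - c r y) * v r y) * ρ (x - y) := by ring
          simp only [Pi.sub_apply]
          rw [e7]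
          apply mul_le_mul_of_nonneg_right _ (hρ0 _)
          have e8 : 0 ≤ C - c r y := by linarith [h.cC r y]
          have e9 : (C - c r y) * (-(μ r)) ≤ (C - c r y) * v r y :=
            mul_le_mul_of_nonneg_left hy e8
          have e10 : (C - c r y) * μ r ≤ C * μ r :=
            mul_le_mul_of_nonneg_right (by linarith [h.c0 r y]) hμr
          linarith
        have e11 : 0 ≤ C * μ' r := mul_nonneg hC0 hμ'r
        have e12 : C * (cv (v r) ρ x + μ' r) = C * cv (v r) ρ x + C * μ' r := by ring
        rw [e12]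
        linarith
  intro t ht
  have hli : LocallyIntegrable (v t) volume := bdd_locInt (h.mv_t t) (h.vM t)
  have := ContDiffBump.ae_convolution_tendsto_right_of_locallyIntegrable (μ := volume)
    (K := 2) CoreSol.bump_tendsto (Eventually.of_forall CoreSol.bump_ratio) hli
  filter_upwards [this] with x hx
  simp_rw [CoreSol.cv_bump] at hx
  refine ge_of_tendsto hx (Eventually.of_forall fun n => ?_)
  exact hmoll (CoreSol.bump n).contDiff_normed (CoreSol.bump n).hasCompactSupport_normed
    (CoreSol.bump n).nonneg_normed (CoreSol.bump n).integral_normed t ht x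

theorem nonneg (h : LinSol T C M c v) (hT : 0 ≤ T) :
    ∀ t ∈ Icc (0:ℝ) T, ∀ᵐ x, 0 ≤ v t x := by
  have hind : ∀ n : ℕ, ∀ t ∈ Icc (0:ℝ) T, ∀ᵐ x, -(M * (C * t) ^ n / n.factorial) ≤ v t x := by
    intro n
    induction n with
    | zero =>
      intro t _
      refine Eventually.of_forall fun x => ?_
      have := neg_abs_le (v t x)
      have e1 := h.vM t x
      simp only [pow_zero, mul_one, Nat.factorial_zero, Nat.cast_one, div_one]
      linarith
    | succ n ih =>
      intro t ht
      have e1 := h.lower_step hT (μ := fun t => M * (C * t) ^ n / n.factorial) (by fun_prop)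
        (fun t ht => by
          have := h.M0; have := h.C0; have := ht.1
          positivity) ih t ht
      have e2 : ∫ r in (0:ℝ)..t, C * (M * (C * r) ^ n / n.factorial)
          = M * (C * t) ^ (n + 1) / (n + 1).factorial := by
        have e3 : (fun r : ℝ => C * (M * (C * r) ^ n / n.factorial))
            = fun r : ℝ => (C * M * C ^ n / n.factorial) * r ^ n := by
          funext r; rw [mul_pow]; ring
        rw [e3, intervalIntegral.integral_const_mul, integral_pow, Nat.factorial_succ]
        push_cast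
        have : (n.factorial : ℝ) ≠ 0 := by exact_mod_cast Nat.factorial_ne_zero n
        have h2 : (n : ℝ) + 1 ≠ 0 := by positivity
        rw [mul_pow]
        field_simp
        ring
      rw [e2] at e1
      exact e1
  intro t ht
  have hall : ∀ᵐ x, ∀ n : ℕ, -(M * (C * t) ^ n / n.factorial) ≤ v t x :=
    ae_all_iff.2 fun n => hind n t ht
  filter_upwards [hall] with x hx
  have hlim : Tendsto (fun n : ℕ => -(M * (C * t) ^ n / n.factorial)) atTop (𝓝 0) := by
    have e1 := FloorSemiring.tendsto_pow_div_factorial_atTop (C * t)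
    have e2 := (e1.const_mul M).neg
    simp only [mul_zero, neg_zero] at e2
    refine e2.congr fun n => ?_
    ring
  exact le_of_tendsto hlim (Eventually.of_forall hx)

theorem le_one (h : LinSol T C M c v) (hT : 0 ≤ T) :
    ∀ t ∈ Icc (0:ℝ) T, ∀ᵐ x, v t x ≤ 1 := by
  have hnn := h.nonneg hT
  have hmoll : ∀ {ρ : ℝ → ℝ}, ContDiff ℝ ∞ ρ → HasCompactSupport ρ → (∀ x, 0 ≤ ρ x) →
      (∫ x, ρ x = 1) → ∀ t ∈ Icc (0:ℝ) T, ∀ x, cv (v t) ρ x ≤ 1 := by
    intro ρ hρ hρc hρ0 hρ1
    have hρi : Integrable ρ := int_of_cs hρ hρc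
    set W : ℝ → ℝ → ℝ := fun t x => 1 - cv (v (clampT T t)) ρ x with hW
    have hmin := min_principle (W := W) (W' := fun t x => -(cv (v (clampT T t)) (deriv ρ) x))
      (W'' := fun t x => -(cv (v (clampT T t)) (deriv (deriv ρ)) x)) (T := T) (C := 0)
      (m := M * ∫ y, |ρ y|) le_rfl ?_ ?_ ?_ ?_ ?_ ?_ ?_
    · intro t ht x
      have := hmin t ht x
      simp only [hW, clampT_eq ht] at this
      linarith
    · exact continuous_const.sub (h.moll_cont hT hρ hρc)
    · exact (h.moll_cont hT (contDiff_deriv (contDiff_deriv hρ)) (cs_deriv (cs_deriv hρc))).neg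
    · intro t x
      exact (cv_hasDerivAt (h.mv_t _) (h.vM _) hρ hρc x).const_sub 1
    · intro t x
      exact (cv_hasDerivAt (h.mv_t _) (h.vM _) (contDiff_deriv hρ) (cs_deriv hρc) x).neg
    · intro t x
      have e1 := cv_abs_le (h.mv_t (clampT T t)) (h.vM (clampT T t)) hρi x
      simp only [hW]
      have e3 := le_abs_self (cv (v (clampT T t)) ρ x)
      linarith
    · intro x
      have h0 : (0:ℝ) ∈ Icc (0:ℝ) T := ⟨le_rfl, hT⟩
      simp only [hW, clampT_eq h0]
      have e1 : cv (v 0) ρ x = ∫ y, ρ y := by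
        have := h.eq _ (flip_contDiff hρ x) (flip_cs hρc x) 0 h0
        rw [flip_integral ρ x] at this
        simp only [intervalIntegral.integral_same, add_zero] at this
        exact this
      rw [e1, hρ1]; simp
    · intro s hs t ht hst x
      simp only [hW, clampT_eq ht, clampT_eq hs, zero_mul, sub_zero]
      have e1 := h.moll_eq hρ hρc hs ht x
      have hρ''i : Integrable (deriv (deriv ρ)) :=
        int_of_cs (contDiff_deriv (contDiff_deriv hρ)) (cs_deriv (cs_deriv hρc))
      have hint1 : IntervalIntegrable (fun r => cv (v r) (deriv (deriv ρ)) x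
          - cv (fun y => c r y * v r y) ρ x) volume s t := by
        have m1 : Measurable (fun r => cv (v r) (deriv (deriv ρ)) x) :=
          meas_cv_time h.mv (contDiff_deriv (contDiff_deriv hρ)).continuous x
        have m2 : Measurable (fun r => cv (fun y => c r y * v r y) ρ x) :=
          meas_cv_time (f := fun r y => c r y * v r y) (h.mc.mul h.mv) hρ.continuous x
        refine IntervalIntegrable.mono_fun
          (f := fun _ => M * (∫ y, |deriv (deriv ρ) y|) + C * M * ∫ y, |ρ y|)
          intervalIntegrable_const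
          (m1.sub m2).aestronglyMeasurable (Eventually.of_forall fun r => ?_)
        have e3 : ‖cv (v r) (deriv (deriv ρ)) x - cv (fun y => c r y * v r y) ρ x‖ ≤
            M * (∫ y, |deriv (deriv ρ) y|) + C * M * ∫ y, |ρ y| := by
          rw [Real.norm_eq_abs]
          refine (abs_sub _ _).trans (add_le_add (cv_abs_le (h.mv_t r) (h.vM r) hρ''i x)
            (cv_abs_le (h.mcv_t r) (h.cvM r) hρi x))
        exact e3.trans (le_abs_self _)
      have e3 : 1 - cv (v t) ρ x - (1 - cv (v s) ρ x)
          = ∫ r in s..t, (-(cv (v r) (deriv (deriv ρ)) x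
          - cv (fun y => c r y * v r y) ρ x)) := by
        rw [intervalIntegral.integral_neg, ← e1]
        ring
      rw [e3]
      apply intervalIntegral.integral_mono_on hst
      · have c1 := h.moll_cont hT (contDiff_deriv (contDiff_deriv hρ)) (cs_deriv (cs_deriv hρc))
        have c1' : Continuous (fun r => cv (v (clampT T r)) (deriv (deriv ρ)) x) :=
          c1.comp (by fun_prop : Continuous fun r : ℝ => (r, x))
        exact c1'.neg.intervalIntegrable _ _
      · exact hint1.neg
      · intro r hr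
        have hr' : r ∈ Icc (0:ℝ) T := ⟨hs.1.trans hr.1, hr.2.trans ht.2⟩
        simp only [clampT_eq hr']
        have e4 : 0 ≤ cv (fun y => c r y * v r y) ρ x := by
          apply integral_nonneg_of_ae
          filter_upwards [hnn r hr'] with y hy
          exact mul_nonneg (mul_nonneg (h.c0 r y) hy) (hρ0 _)
        linarith
  intro t ht
  have hli : LocallyIntegrable (v t) volume := bdd_locInt (h.mv_t t) (h.vM t)
  have := ContDiffBump.ae_convolution_tendsto_right_of_locallyIntegrable (μ := volume)
    (K := 2) CoreSol.bump_tendsto (Eventually.of_forall CoreSol.bump_ratio) hli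
  filter_upwards [this] with x hx
  simp_rw [CoreSol.cv_bump] at hx
  refine le_of_tendsto hx (Eventually.of_forall fun n => ?_)
  exact hmoll (CoreSol.bump n).contDiff_normed (CoreSol.bump n).hasCompactSupport_normed
    (CoreSol.bump n).nonneg_normed (CoreSol.bump n).integral_normed t ht x

end LinSol

end Pool.Agent.Lib.MP_360b3f_an
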