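import Mathlib
import Pool.Agent.Lib.MP_360b3f_an.Final

set_option autoImplicit false

namespace Pool.Agent.Lib.MP_360b3f_an

open MeasureTheory Set Filter Topology Convolution
open scoped ContDiff

/-- the profile `e^{-u₀}` -/
noncomputable def theta (ε lam x : ℝ) : ℝ := min 1 (ε + lam * |x|)

/-- the initial datum -/
noncomputable def u0f (ε lam x : ℝ) : ℝ := -Real.log (theta ε lam x)

section data

variable {ε lam : ℝ}

theorem theta_pos (hε : 0 < ε) (hl : 0 < lam) (x : ℝ) : 0 < theta ε lam x := by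
  unfold theta
  have : 0 ≤ lam * |x| := by positivity
  exact lt_min one_pos (by linarith)

theorem theta_ge (hε : 0 < ε) (hε1 : ε ≤ 1) (hl : 0 < lam) (x : ℝ) : ε ≤ theta ε lam x := by
  unfold theta
  have : 0 ≤ lam * |x| := by positivity
  exact le_min hε1 (by linarith)

theorem theta_le_one (x : ℝ) : theta ε lam x ≤ 1 := min_le_left _ _

theorem theta_cont : Continuous (theta ε lam) := by
  unfold theta; fun_prop

theorem exp_u0f (hε : 0 < ε) (hl : 0 < lam) (x : ℝ) :
    Real.exp (-(u0f ε lam x)) = theta ε lam x := by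
  unfold u0f; rw [neg_neg, Real.exp_log (theta_pos hε hl x)]

theorem u0f_nonneg (hε : 0 < ε) (hl : 0 < lam) (x : ℝ) : 0 ≤ u0f ε lam x := by
  unfold u0f
  have := Real.log_nonpos (theta_pos hε hl x).le (theta_le_one x)
  linarith

theorem u0f_le (hε : 0 < ε) (hε1 : ε ≤ 1) (hl : 0 < lam) (x : ℝ) :
    u0f ε lam x ≤ -Real.log ε := by
  unfold u0f
  have := Real.log_le_log hε (theta_ge hε hε1 hl x)
  linarith

theorem u0f_abs (hε : 0 < ε) (hε1 : ε ≤ 1) (hl : 0 < lam) (x : ℝ) :
    |u0f ε lam x| ≤ -Real.log ε := by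
  rw [abs_of_nonneg (u0f_nonneg hε hl x)]; exact u0f_le hε hε1 hl x

theorem theta_eq_one (hε : 0 < ε) (hl : 0 < lam) {x : ℝ} (hx : 1 / lam ≤ |x|) :
    theta ε lam x = 1 := by
  unfold theta
  apply min_eq_left
  have : 1 ≤ lam * |x| := by
    rw [div_le_iff₀ hl] at hx; linarith
  linarith

theorem u0f_eq_zero (hε : 0 < ε) (hl : 0 < lam) {x : ℝ} (hx : 1 / lam ≤ |x|) :
    u0f ε lam x = 0 := by
  unfold u0f; rw [theta_eq_one hε hl hx]; simp

theorem u0f_meas : Measurable (u0f ε lam) :=
  (Real.measurable_log.comp theta_cont.measurable).neg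

theorem u0f_cs (hε : 0 < ε) (hl : 0 < lam) : HasCompactSupport (u0f ε lam) := by
  apply HasCompactSupport.of_support_subset_isCompact (isCompact_Icc (a := -(1 / lam))
    (b := 1 / lam))
  intro x hx
  by_contra hcon
  apply hx
  apply u0f_eq_zero hε hl
  rw [mem_Icc, ← abs_le] at hcon
  push Not at hcon
  exact hcon.le

theorem theta_lip (hl : 0 < lam) (x y : ℝ) :
    |theta ε lam x - theta ε lam y| ≤ lam * |x - y| := by
  unfold theta
  refine (abs_min_sub_min_le_max _ _ _ _).trans ?_
  apply max_le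
  · simp; positivity
  · have : ε + lam * |x| - (ε + lam * |y|) = lam * (|x| - |y|) := by ring
    rw [this, abs_mul, abs_of_pos hl]
    exact mul_le_mul_of_nonneg_left (abs_abs_sub_abs_le _ _) hl.le

theorem u0f_lip (hε : 0 < ε) (hε1 : ε ≤ 1) (hl : 0 < lam) :
    LipschitzWith (Real.toNNReal (lam / ε)) (u0f ε lam) := by
  apply LipschitzWith.of_dist_le_mul
  intro x y
  rw [Real.coe_toNNReal _ (by positivity), Real.dist_eq, Real.dist_eq]
  -- `|log a - log b| ≤ |a-b|/ε` for `a,b ≥ ε`
  have key : ∀ a b : ℝ, ε ≤ a → ε ≤ b → Real.log a - Real.log b ≤ |a - b| / ε := by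
    intro a b ha hb
    have ha' : 0 < a := hε.trans_le ha
    have hb' : 0 < b := hε.trans_le hb
    rw [← Real.log_div ha'.ne' hb'.ne']
    have h1 := Real.log_le_sub_one_of_pos (div_pos ha' hb')
    have h2 : a / b - 1 = (a - b) / b := by field_simp
    have h3 : (a - b) / b ≤ |a - b| / b := by
      apply div_le_div_of_nonneg_right (le_abs_self _) hb'.le
    have h4 : |a - b| / b ≤ |a - b| / ε :=
      div_le_div_of_nonneg_left (abs_nonneg _) hε hb
    linarith
  have h5 := theta_lip (ε := ε) hl x y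
  have h6 : |u0f ε lam x - u0f ε lam y| ≤ |theta ε lam x - theta ε lam y| / ε := by
    unfold u0f
    rw [abs_le']
    constructor
    · have := key _ _ (theta_ge hε hε1 hl y) (theta_ge hε hε1 hl x)
      rw [abs_sub_comm] at this
      linarith
    · have := key _ _ (theta_ge hε hε1 hl x) (theta_ge hε hε1 hl y)
      linarith
  calc |u0f ε lam x - u0f ε lam y| ≤ |theta ε lam x - theta ε lam y| / ε := h6
    _ ≤ (lam * |x - y|) / ε := by gcongr
    _ = lam / ε * |x - y| := by ring

end data

theorem no_core {K : ℝ → ℝ} (hK : Ker K) {χ β : ℝ → ℝ}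
    (hχ : ContDiff ℝ ∞ χ) (hχc : HasCompactSupport χ) (hχK : ∀ x, |deriv K x| ≤ χ x)
    (hβ : ContDiff ℝ ∞ β) (hβc : HasCompactSupport β) (hβ0 : ∀ x, 0 ≤ β x) (hβ1 : ∀ x, β x ≤ 1)
    (hβ2 : ∀ x ∈ Icc (-(2 * (1/8:ℝ))) (2 * (1/8)), β x = 1)
    (hβ3 : ∀ x, x ∉ Icc (-(3 * (1/8:ℝ))) (3 * (1/8)) → β x = 0)
    {ε lam G Λ M : ℝ} (hε : 0 < ε) (hε8 : ε ≤ 1 / 8) (hlam : 16 ≤ lam)
    (hBK : ∀ x, cv (u0f ε lam) K x ≤ 1) (hBχ : ∀ x, cv (u0f ε lam) χ x ≤ 1)
    (hG : G = 2 * (1 + ((∫ x, K x) + ∫ x, |deriv (deriv K) x|)))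
    (hΛ : Λ = 1 + G * (∫ x, χ x) + ((∫ x, χ x) + ∫ x, |deriv (deriv χ) x|))
    (c1 : (∫ x, K x) * (2 * ε) ≤ 1 / 2)
    (c2 : G * (2 * ε) * (1 + ∫ x, K x) ≤ 1 / 8)
    (c3 : (Λ + G + ∫ x, K x) * (2 * ε) ≤ 1 / 2)
    (c4 : 2 * (∫ x, K x) * Real.sqrt (2 * ε + 2 * (∫ x, K x) * ε) ≤ 1 / 8)
    (c5 : ε * (4 * (∫ x, |deriv (deriv β) x|) + 12) ≤ 1 / 32)
    (c6 : 4 / lam + 4 * ((3 * ε / lam) - (3 * ε / lam) * Real.log (3 * ε / lam)) ≤ ε / 64)
    {u v : ℝ → ℝ → ℝ} (h : CoreSol K (u0f ε lam) (2 * ε) M u v) : False := by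
  set k := ∫ x, K x with hk
  set T := 2 * ε with hTdef
  have hT : 0 < T := by positivity
  have hT1 : T ≤ 1 := by linarith
  have hl : 0 < lam := by linarith
  have hε1 : ε ≤ 1 := by linarith
  have hk0 : 0 ≤ k := integral_nonneg hK.nonneg
  have hK''0 : 0 ≤ ∫ x, |deriv (deriv K) x| := integral_nonneg fun x => abs_nonneg _
  have hχ0 : ∀ x, 0 ≤ χ x := fun x => (abs_nonneg _).trans (hχK x)
  have hχi0 : 0 ≤ ∫ x, χ x := integral_nonneg hχ0
  have hχ''0 : 0 ≤ ∫ x, |deriv (deriv χ) x| := integral_nonneg fun x => abs_nonneg _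
  have hβ''0 : 0 ≤ ∫ x, |deriv (deriv β) x| := integral_nonneg fun x => abs_nonneg _
  have hG0 : 0 ≤ G := by rw [hG]; positivity
  have hΛ0 : 0 ≤ Λ := by rw [hΛ]; positivity
  -- bound on g
  have hg : ∀ s ∈ Icc (0:ℝ) T, ∀ x, cv (u s) K x ≤ G := by
    intro s hs x
    refine (h.g_le hK hT.le u0f_meas (u0f_abs hε hε1 hl) hBK c1 s hs x).trans ?_
    rw [hG]
    have : T * ∫ x, |deriv (deriv K) x| ≤ 1 * ∫ x, |deriv (deriv K) x| :=
      mul_le_mul_of_nonneg_right hT1 hK''0
    linarith
  have hglip : ∀ s ∈ Icc (0:ℝ) T, ∀ x y, |cv (u s) K x - cv (u s) K y| ≤ Λ * |x - y| := by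
    intro s hs x y
    refine (h.g_lip hK hG0 hg u0f_meas (u0f_abs hε hε1 hl) hχ hχc hχK hBχ hs x y).trans ?_
    apply mul_le_mul_of_nonneg_right _ (abs_nonneg _)
    rw [hΛ]
    have e1 : T * ∫ x, |deriv (deriv χ) x| ≤ 1 * ∫ x, |deriv (deriv χ) x| :=
      mul_le_mul_of_nonneg_right hT1 hχ''0
    have e2 : T * G * ∫ x, χ x ≤ 1 * G * ∫ x, χ x := by gcongr
    linarith
  -- good points
  obtain ⟨S, hS, hSq⟩ := h.q_lip_ae hT
  have htraj := h.ae_traj hK hT u0f_meas hg
  set Good : Set ℝ := {x | x ∈ S ∧ ∃ U : ℝ → ℝ, Traj k G M T (fun s => cv (u s) K x)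
      (fun s => v s x) U ∧ U 0 = u0f ε lam x ∧ (∫ s in (0:ℝ)..T, v s x * Real.exp (u s x)) =
        ∫ s in (0:ℝ)..T, v s x * Real.exp (U s)} with hGood
  have hGoodae : ∀ᵐ x, x ∈ Good := by
    filter_upwards [hS, htraj] with x h1 h2
    exact ⟨h1, h2⟩
  have hGoodDense : Dense Good := by
    have : Goodᶜ ∈ {s : Set ℝ | volume s = 0} := by
      have := ae_iff.1 hGoodae
      exact this
    have h3 : Dense (Goodᶜ)ᶜ := by
      have h4 : interior Goodᶜ = ∅ := Measure.interior_eq_empty_of_null this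
      rwa [interior_eq_empty_iff_dense_compl] at h4
    rwa [compl_compl] at h3
  have hsqrt : Real.sqrt (2 * T) ≤ 1 := by
    rw [Real.sqrt_le_iff]
    constructor
    · norm_num
    · rw [hTdef]; linarith
  -- (A) bound for q near 0
  set r₀ := ε / (16 * lam) with hr₀
  have hr₀pos : 0 < r₀ := by positivity
  have hqnear : ∀ᵐ x, |x| ≤ r₀ → ∫ s in (0:ℝ)..T, v s x ≤ 5 / 4 * ε := by
    filter_upwards [hGoodae] with x hx hxr
    obtain ⟨-, U, hU, hU0, -⟩ := hx
    have h1 := hU.q_le hk0 hT.le
    have h2 : Real.exp (-(U 0)) ≤ ε + ε / 16 := by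
      rw [hU0, exp_u0f hε hl]
      refine (min_le_right _ _).trans ?_
      have : lam * |x| ≤ lam * r₀ := mul_le_mul_of_nonneg_left hxr hl.le
      have h3 : lam * r₀ = ε / 16 := by rw [hr₀]; field_simp
      linarith
    have h3 : Real.exp (-(U 0)) + k * T ≤ 2 * ε + 2 * k * ε := by
      rw [hTdef]; nlinarith
    have h4 : Real.sqrt (Real.exp (-(U 0)) + k * T) ≤ Real.sqrt (2 * ε + 2 * k * ε) :=
      Real.sqrt_le_sqrt h3
    have h5 : k * T * Real.sqrt (Real.exp (-(U 0)) + k * T) ≤ ε * (1 / 8) := by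
      calc k * T * Real.sqrt (Real.exp (-(U 0)) + k * T)
          ≤ k * T * Real.sqrt (2 * ε + 2 * k * ε) :=
            mul_le_mul_of_nonneg_left h4 (by positivity)
        _ = ε * (2 * k * Real.sqrt (2 * ε + 2 * k * ε)) := by rw [hTdef]; ring
        _ ≤ ε * (1 / 8) := mul_le_mul_of_nonneg_left c4 hε.le
    linarith
  -- bound for H
  set r := 3 * ε / lam with hr
  have hrpos : 0 < r := by positivity
  have hr1 : r ≤ 1 := by
    rw [hr, div_le_one hl]; linarith
  have hHae : ∀ᵐ x, ∫ s in (0:ℝ)..T, v s x * Real.exp (u s x) ≤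
      8 * ε + (Icc (-(1 / lam)) (1 / lam)).indicator (fun _ => (2:ℝ)) x
        + (Icc (-r) r).indicator (fun x => -(2 * Real.log x)) x := by
    filter_upwards [hGoodae, compl_mem_ae_iff.2 (measure_singleton (0:ℝ))] with x hx hx0
    have hx0' : x ≠ 0 := hx0
    obtain ⟨hxS, U, hU, hU0, hHU⟩ := hx
    have hxpos : 0 < |x| := abs_pos.2 hx0'
    rw [hHU]
    have hZ0 : Real.exp (-(U 0)) = theta ε lam x := by rw [hU0, exp_u0f hε hl]
    have hind1 : 0 ≤ (Icc (-(1 / lam)) (1 / lam)).indicator (fun _ => (2:ℝ)) x :=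
      indicator_nonneg (fun _ _ => by norm_num) x
    have hind2 : 0 ≤ (Icc (-r) r).indicator (fun x => -(2 * Real.log x)) x := by
      apply indicator_nonneg
      intro y hy
      have h1 : |y| ≤ 1 := (abs_le.2 hy).trans hr1
      have h2 : Real.log |y| ≤ 0 := Real.log_nonpos (abs_nonneg y) h1
      rw [Real.log_abs] at h2
      linarith
    by_cases hθ : 4 * ε ≤ theta ε lam x
    · -- away from the peak
      have hZ : ∀ s ∈ Icc (0:ℝ) T, theta ε lam x / 4 ≤ Real.exp (-(U s)) := by
        intro s hs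
        have h1 := hU.Z_ge hk0 hs
        rw [hZ0] at h1
        have h2 : G * T * (theta ε lam x + k * T) ≤ theta ε lam x / 8 + ε / 4 := by
          have e1 : G * T ≤ 1 / 8 := by
            have : G * T * 1 ≤ G * T * (1 + k) :=
              mul_le_mul_of_nonneg_left (by linarith) (by positivity)
            linarith
          have e2 : G * T * k ≤ 1 / 8 := by
            have : G * T * k ≤ G * T * (1 + k) :=
              mul_le_mul_of_nonneg_left (by linarith) (by positivity)
            linarith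
          have e3 : G * T * (theta ε lam x + k * T)
              = (G * T) * theta ε lam x + (G * T * k) * T := by ring
          rw [e3]
          have e4 : (G * T) * theta ε lam x ≤ 1 / 8 * theta ε lam x :=
            mul_le_mul_of_nonneg_right e1 (theta_pos hε hl x).le
          have e5 : (G * T * k) * T ≤ 1 / 8 * T := mul_le_mul_of_nonneg_right e2 hT.le
          rw [hTdef] at e5 ⊢
          linarith
        rw [hTdef] at h1 h2
        linarith
      have h3 := hU.H_le_of_Z_ge hT.le (z := theta ε lam x / 4)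
        (by have := theta_pos hε hl x; positivity) hZ
      by_cases hx1 : 1 / lam ≤ |x|
      · have h4 : theta ε lam x = 1 := theta_eq_one hε hl hx1
        rw [h4] at h3
        have : T / (1 / 4) = 8 * ε := by rw [hTdef]; ring
        linarith
      · push Not at hx1
        have hmem : x ∈ Icc (-(1 / lam)) (1 / lam) := abs_le.1 hx1.le
        have h4 : T / (theta ε lam x / 4) ≤ 2 := by
          have hθp := theta_pos hε hl x
          rw [div_le_iff₀ (by positivity)]
          rw [hTdef]; linarith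
        rw [indicator_of_mem hmem]
        linarith
    · -- near the peak
      push Not at hθ
      have hθx : theta ε lam x = ε + lam * |x| := by
        unfold theta at hθ ⊢
        apply min_eq_right
        by_contra hcon
        push Not at hcon
        rw [min_eq_left hcon.le] at hθ
        linarith
      have hxr : |x| < r := by
        rw [hr, lt_div_iff₀ hl]
        rw [hθx] at hθ
        linarith
      have hmem : x ∈ Icc (-r) r := abs_le.1 hxr.le
      -- choose a good point close to zero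
      obtain ⟨y, hyG, hy⟩ : ∃ y ∈ Good, |y| < |x| / 2 := by
        have hopen : IsOpen (Metric.ball (0:ℝ) (|x| / 2)) := Metric.isOpen_ball
        have hne : (Metric.ball (0:ℝ) (|x| / 2)).Nonempty :=
          ⟨0, Metric.mem_ball_self (by positivity)⟩
        obtain ⟨y, hy1, hy2⟩ := hGoodDense.inter_open_nonempty _ hopen hne
        refine ⟨y, hy2, ?_⟩
        simpa using hy1
      obtain ⟨hyS, V, hV, hV0, -⟩ := hyG
      have hθy : theta ε lam y = ε + lam * |y| := by
        unfold theta
        apply min_eq_right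
        have : lam * |y| ≤ lam * |x| := by
          apply mul_le_mul_of_nonneg_left _ hl.le
          linarith
        rw [hθx] at hθ
        linarith
      have hW0 : Real.exp (-(V 0)) = theta ε lam y := by rw [hV0, exp_u0f hε hl]
      have hxy : |x - y| ≤ 3 / 2 * |x| := by
        have := abs_sub x y
        linarith
      have hcmp := Traj.compare hU hV hk0 (Λ := Λ * |x - y|) (δ := |x - y|) (η := |x|)
        (by positivity) (abs_nonneg _) hxpos (fun s hs => hglip s hs x y)
        (fun t ht => by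
          refine (hSq x hxS y hyS t ht).trans ?_
          calc Real.sqrt (2 * T) * |x - y| ≤ 1 * |x - y| :=
                mul_le_mul_of_nonneg_right hsqrt (abs_nonneg _)
            _ = |x - y| := one_mul _)
        (by
          have : (G + k) * T ≤ (Λ + G + k) * T :=
            mul_le_mul_of_nonneg_right (by linarith) hT.le
          linarith)
        (by
          rw [hZ0, hW0, hθx, hθy]
          have e1 : (Λ * |x - y| + (G + k) * |x - y|) * T = ((Λ + G + k) * T) * |x - y| := by
            ring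
          rw [e1]
          have e2 : ((Λ + G + k) * T) * |x - y| ≤ 1 / 2 * |x - y| :=
            mul_le_mul_of_nonneg_right c3 (abs_nonneg _)
          have e3 : 16 * (|x| - |y|) ≤ lam * (|x| - |y|) :=
            mul_le_mul_of_nonneg_right hlam (by linarith)
          have e4 : ε + lam * |x| - (ε + lam * |y|) = lam * (|x| - |y|) := by ring
          rw [e4]
          linarith)
      have hUle : ∀ s ∈ Icc (0:ℝ) T, U s ≤ -Real.log |x| := by
        intro s hs
        have h1 := hcmp s hs
        have h2 := Real.exp_pos (-(V s))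
        have h3 : |x| ≤ Real.exp (-(U s)) := by linarith
        have h4 := Real.log_le_log hxpos h3
        rw [Real.log_exp] at h4
        linarith
      have h5 := hU.H_le_of_U_le hk0 hT.le hUle
      have hlogx : 0 ≤ -Real.log |x| := by
        have := Real.log_nonpos (abs_nonneg x) (hxr.le.trans hr1)
        linarith
      have h6 : (1 + k * T) * (-Real.log |x|) ≤ 2 * (-Real.log |x|) :=
        mul_le_mul_of_nonneg_right (by linarith) hlogx
      rw [indicator_of_mem hmem]
      rw [Real.log_abs] at h5 h6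
      linarith
  -- integrate the bound for H
  have hJ : ∫ x in Icc (-(3 * (1/8:ℝ))) (3 * (1/8)),
      (∫ s in (0:ℝ)..T, v s x * Real.exp (u s x)) ≤ 6 * ε + ε / 64 := by
    have hHi : IntegrableOn (fun x => ∫ s in (0:ℝ)..T, v s x * Real.exp (u s x))
        (Icc (-(3 * (1/8:ℝ))) (3 * (1/8))) :=
      (bdd_locInt (h.mH T) (h.Habs hT.le)).integrableOn_isCompact isCompact_Icc
    have i1 : Integrable ((Icc (-(1 / lam)) (1 / lam)).indicator (fun _ : ℝ => (2:ℝ))) := by
      rw [integrable_indicator_iff measurableSet_Icc]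
      exact integrableOn_const (by simp)
    have hlogi : IntegrableOn (fun x => -(2 * Real.log x)) (Icc (-r) r) := by
      have : IntervalIntegrable (fun x => -(2 * Real.log x)) volume (-r) r :=
        (intervalIntegral.intervalIntegrable_log'.const_mul 2).neg
      rw [intervalIntegrable_iff_integrableOn_Icc_of_le (by linarith)] at this
      exact this
    have i2 : Integrable ((Icc (-r) r).indicator (fun x => -(2 * Real.log x))) := by
      rw [integrable_indicator_iff measurableSet_Icc]
      exact hlogi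
    have i0 : IntegrableOn (fun _ : ℝ => 8 * ε) (Icc (-(3 * (1/8:ℝ))) (3 * (1/8))) :=
      integrableOn_const (by simp)
    have hmono : ∫ x in Icc (-(3 * (1/8:ℝ))) (3 * (1/8)),
        (∫ s in (0:ℝ)..T, v s x * Real.exp (u s x)) ≤
        ∫ x in Icc (-(3 * (1/8:ℝ))) (3 * (1/8)), (8 * ε
          + (Icc (-(1 / lam)) (1 / lam)).indicator (fun _ => (2:ℝ)) x
          + (Icc (-r) r).indicator (fun x => -(2 * Real.log x)) x) := by
      apply setIntegral_mono_ae hHi ((i0.add i1.integrableOn).add i2.integrableOn)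
      exact hHae
    refine hmono.trans ?_
    have i01 : IntegrableOn (fun x : ℝ => 8 * ε
          + (Icc (-(1 / lam)) (1 / lam)).indicator (fun _ => (2:ℝ)) x)
          (Icc (-(3 * (1/8:ℝ))) (3 * (1/8))) := i0.add i1.integrableOn
    rw [integral_add i01 i2.integrableOn, integral_add i0 i1.integrableOn]
    have e0 : ∫ x in Icc (-(3 * (1/8:ℝ))) (3 * (1/8)), 8 * ε = 6 * ε := by
      rw [setIntegral_const]
      simp
      ring
    have e1 : ∫ x in Icc (-(3 * (1/8:ℝ))) (3 * (1/8)),
        (Icc (-(1 / lam)) (1 / lam)).indicator (fun _ => (2:ℝ)) x ≤ 4 / lam := by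
      have : ∫ x in Icc (-(3 * (1/8:ℝ))) (3 * (1/8)),
        (Icc (-(1 / lam)) (1 / lam)).indicator (fun _ => (2:ℝ)) x ≤
          ∫ x, (Icc (-(1 / lam)) (1 / lam)).indicator (fun _ => (2:ℝ)) x :=
        setIntegral_le_integral i1 (Eventually.of_forall fun x =>
          indicator_nonneg (fun _ _ => by norm_num) x)
      refine this.trans ?_
      rw [integral_indicator measurableSet_Icc, setIntegral_const]
      simp only [Real.volume_real_Icc, smul_eq_mul]
      have h1 : 0 < 1 / lam := by positivity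
      rw [max_eq_left (by linarith)]
      apply le_of_eq; ring
    have e2 : ∫ x in Icc (-(3 * (1/8:ℝ))) (3 * (1/8)),
        (Icc (-r) r).indicator (fun x => -(2 * Real.log x)) x ≤ 4 * (r - r * Real.log r) := by
      have : ∫ x in Icc (-(3 * (1/8:ℝ))) (3 * (1/8)),
        (Icc (-r) r).indicator (fun x => -(2 * Real.log x)) x ≤
          ∫ x, (Icc (-r) r).indicator (fun x => -(2 * Real.log x)) x :=
        setIntegral_le_integral i2 (Eventually.of_forall fun x => by
          apply indicator_nonneg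
          intro y hy
          have h1 : |y| ≤ 1 := (abs_le.2 hy).trans hr1
          have h2 : Real.log |y| ≤ 0 := Real.log_nonpos (abs_nonneg y) h1
          rw [Real.log_abs] at h2
          linarith)
      refine this.trans ?_
      rw [integral_indicator measurableSet_Icc, integral_Icc_eq_integral_Ioc,
        ← intervalIntegral.integral_of_le (by linarith), intervalIntegral.integral_neg,
        intervalIntegral.integral_const_mul, integral_log, Real.log_neg_eq_log]
      apply le_of_eq; ring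
    rw [e0]
    linarith
  -- the mollifier at zero
  set b : ContDiffBump (0:ℝ) := ⟨r₀ / 2, r₀, by positivity, by linarith⟩ with hb
  set ρ := b.normed volume with hρ
  have hρs : ∀ x, r₀ ≤ |x| → ρ x = 0 := by
    intro x hx
    have : x ∉ Function.support ρ := by
      rw [hρ, b.support_normed_eq, Metric.mem_ball, dist_zero_right, Real.norm_eq_abs]
      exact not_lt.2 hx
    simpa using this
  have hr₀8 : r₀ ≤ 1 / 8 := by
    rw [hr₀, div_le_iff₀ (by positivity)]
    nlinarith
  have hcen := h.center hT (R := 1/8) (by norm_num) (ρ := ρ) (β := β) b.contDiff_normed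
    b.hasCompactSupport_normed b.nonneg_normed b.integral_normed
    (fun x hx => hρs x (hr₀8.trans hx.le)) hβ hβc hβ0 hβ1 hβ2 hβ3 hJ
  -- upper bound of cv q ρ 0
  have hq0 : cv (fun y => ∫ s in (0:ℝ)..T, v s y) ρ 0 ≤ 5 / 4 * ε := by
    have hρi : Integrable ρ := b.integrable_normed
    have e1 : cv (fun y => ∫ s in (0:ℝ)..T, v s y) ρ 0 ≤ ∫ y, (5 / 4 * ε) * ρ (0 - y) := by
      apply integral_mono_ae (bdd_mul_int (h.mq T) (h.qabs hT.le) (CoreSol.int_flip hρi 0))
        ((CoreSol.int_flip hρi 0).const_mul _)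
      filter_upwards [hqnear] with y hy
      by_cases hyr : |y| ≤ r₀
      · exact mul_le_mul_of_nonneg_right (hy hyr) (b.nonneg_normed _)
      · push Not at hyr
        have : ρ (0 - y) = 0 := by
          apply hρs; simpa using hyr.le
        rw [this]; simp
    rw [integral_const_mul, flip_integral, b.integral_normed, mul_one] at e1
    exact e1
  rw [hTdef] at hcen hq0
  set B := ∫ x, |deriv (deriv β) x| with hB
  set Q := cv (fun y => ∫ s in (0:ℝ)..(2 * ε), v s y) ρ 0 with hQ
  -- final arithmetic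
  have f1 : 2 * (1 / 8) * (2 * ε - 5 / 4 * ε) ≤ 2 * (1 / 8) * (2 * ε - Q) := by linarith
  have f2 : 2 * ε * (2 * ε * B + (6 * ε + ε / 64)) + (1 / 8) ^ 2 * (6 * ε + ε / 64)
      = ε * (ε * (4 * B + 12) + ε / 32 + (6 + 1 / 64) / 64) := by ring
  have f3 : 2 * (1 / 8) * (2 * ε - 5 / 4 * ε)
      ≤ ε * (ε * (4 * B + 12) + ε / 32 + (6 + 1 / 64) / 64) := by
    rw [← f2]; exact f1.trans hcen
  have f4 : ε * (ε * (4 * B + 12) + ε / 32 + (6 + 1 / 64) / 64)
      ≤ ε * (1 / 32 + 1 / 256 + (6 + 1 / 64) / 64) := by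
    apply mul_le_mul_of_nonneg_left _ hε.le
    linarith
  have f5 : 2 * (1 / 8) * (2 * ε - 5 / 4 * ε) = ε * (3 / 16) := by ring
  rw [f5] at f3
  have f6 := f3.trans f4
  have f7 := le_of_mul_le_mul_left f6 hε
  norm_num at f7

end Pool.Agent.Lib.MP_360b3f_an
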