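import Mathlib
import Pool.Agent.Lib.MP_360b3f_an.Main

set_option autoImplicit false

namespace Pool.Agent.Lib.MP_360b3f_an

open MeasureTheory Set Filter Topology Convolution
open scoped ContDiff

/-- bound for averages of the initial datum -/
theorem cv_u0f_le {ε lam : ℝ} (hε : 0 < ε) (hε1 : ε ≤ 1) (hl : 0 < lam) {ρ : ℝ → ℝ} {C : ℝ}
    (hρm : Continuous ρ) (hρC : ∀ x, |ρ x| ≤ C) (x : ℝ) :
    cv (u0f ε lam) ρ x ≤ (-Real.log ε * C) * (2 / lam) := by
  have hC : 0 ≤ C := (abs_nonneg _).trans (hρC 0)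
  have hlog : 0 ≤ -Real.log ε := by
    have := Real.log_nonpos hε.le hε1
    linarith
  unfold cv
  have e1 : ∫ y, u0f ε lam y * ρ (x - y)
      = ∫ y in Icc (-(1 / lam)) (1 / lam), u0f ε lam y * ρ (x - y) := by
    symm
    apply setIntegral_eq_integral_of_forall_compl_eq_zero
    intro y hy
    rw [mem_Icc, ← abs_le] at hy
    push Not at hy
    rw [u0f_eq_zero hε hl hy.le, zero_mul]
  rw [e1]
  have hi : IntegrableOn (fun y => u0f ε lam y * ρ (x - y)) (Icc (-(1 / lam)) (1 / lam)) := by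
    apply Continuous.integrableOn_Icc
    have h1 : Continuous (u0f ε lam) := (u0f_lip hε hε1 hl).continuous
    fun_prop
  have e2 : ∫ y in Icc (-(1 / lam)) (1 / lam), u0f ε lam y * ρ (x - y) ≤
      ∫ y in Icc (-(1 / lam)) (1 / lam), (-Real.log ε * C) := by
    apply setIntegral_mono_on hi (integrableOn_const (by simp)) measurableSet_Icc
    intro y _
    calc u0f ε lam y * ρ (x - y) ≤ u0f ε lam y * C :=
          mul_le_mul_of_nonneg_left ((le_abs_self _).trans (hρC _)) (u0f_nonneg hε hl y)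
      _ ≤ -Real.log ε * C := mul_le_mul_of_nonneg_right (u0f_le hε hε1 hl y) hC
  refine e2.trans (le_of_eq ?_)
  rw [setIntegral_const]
  simp only [Real.volume_real_Icc, smul_eq_mul]
  have h1 : 0 < 1 / lam := by positivity
  rw [max_eq_left (by linarith)]
  ring

/-- `-(r log r) ≤ 2 √r` -/
theorem neg_mul_log_le {r : ℝ} (hr : 0 < r) : -(r * Real.log r) ≤ 2 * Real.sqrt r := by
  have hs : 0 < Real.sqrt r := Real.sqrt_pos.2 hr
  have h1 := Real.one_sub_inv_le_log_of_pos hs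
  have h2 : Real.log r = 2 * Real.log (Real.sqrt r) := by
    rw [Real.log_sqrt hr.le]; ring
  rw [h2]
  have h3 : r = Real.sqrt r * Real.sqrt r := (Real.mul_self_sqrt hr.le).symm
  have h4 : -(Real.log (Real.sqrt r)) ≤ (Real.sqrt r)⁻¹ := by linarith
  have h5 : r * -(Real.log (Real.sqrt r)) ≤ r * (Real.sqrt r)⁻¹ :=
    mul_le_mul_of_nonneg_left h4 hr.le
  have h6 : r * (Real.sqrt r)⁻¹ = Real.sqrt r := by
    nth_rewrite 1 [h3]
    field_simp
  linarith

theorem exists_params {K : ℝ → ℝ} (hK : Ker K) :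
    ∃ ε lam : ℝ, 0 < ε ∧ ε ≤ 1 / 8 ∧ 16 ≤ lam ∧
      ∀ (M : ℝ) (u v : ℝ → ℝ → ℝ), ¬ CoreSol K (u0f ε lam) (2 * ε) M u v := by
  -- the auxiliary test functions
  obtain ⟨RK, hRKpos, hRK⟩ : ∃ R : ℝ, 0 < R ∧ tsupport (deriv K) ⊆ Metric.closedBall 0 R := by
    have hc : IsCompact (tsupport (deriv K)) := cs_deriv hK.supp
    obtain ⟨R, hR⟩ := hc.isBounded.subset_closedBall 0
    refine ⟨max R 1, by positivity, hR.trans (Metric.closedBall_subset_closedBall (le_max_left _ _))⟩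
  obtain ⟨CK', hCK'⟩ : ∃ C, ∀ x, |deriv K x| ≤ C := by
    have hc : Continuous (deriv K) := (contDiff_deriv hK.smooth).continuous
    obtain ⟨C, hC⟩ := (cs_deriv hK.supp).exists_bound_of_continuous hc
    exact ⟨C, fun x => by simpa using hC x⟩
  have hCK'0 : 0 ≤ CK' := (abs_nonneg _).trans (hCK' 0)
  obtain ⟨CK, hCK⟩ : ∃ C, ∀ x, |K x| ≤ C := by
    obtain ⟨C, hC⟩ := hK.supp.exists_bound_of_continuous hK.smooth.continuous
    exact ⟨C, fun x => by simpa using hC x⟩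
  have hCK0 : 0 ≤ CK := (abs_nonneg _).trans (hCK 0)
  set b : ContDiffBump (0:ℝ) := ⟨RK, RK + 1, hRKpos, by linarith⟩ with hb
  set χ : ℝ → ℝ := fun x => CK' * b x with hχdef
  have hχ : ContDiff ℝ ∞ χ := contDiff_const.mul b.contDiff
  have hχc : HasCompactSupport χ := b.hasCompactSupport.mul_left
  have hχK : ∀ x, |deriv K x| ≤ χ x := by
    intro x
    by_cases hx : x ∈ Metric.closedBall (0:ℝ) RK
    · have : b x = 1 := b.one_of_mem_closedBall hx
      simp only [hχdef, this, mul_one]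
      exact hCK' x
    · have h1 : x ∉ tsupport (deriv K) := fun h => hx (hRK h)
      have h2 : deriv K x = 0 := image_eq_zero_of_notMem_tsupport h1
      rw [h2, abs_zero]
      simp only [hχdef]
      exact mul_nonneg hCK'0 b.nonneg
  have hχC : ∀ x, |χ x| ≤ CK' := by
    intro x
    simp only [hχdef]
    rw [abs_of_nonneg (mul_nonneg hCK'0 b.nonneg)]
    calc CK' * b x ≤ CK' * 1 := mul_le_mul_of_nonneg_left b.le_one hCK'0
      _ = CK' := mul_one _
  set β : ContDiffBump (0:ℝ) := ⟨1/4, 3/8, by norm_num, by norm_num⟩ with hβdef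
  have hβ2 : ∀ x ∈ Icc (-(2 * (1/8:ℝ))) (2 * (1/8)), β x = 1 := by
    intro x hx
    apply β.one_of_mem_closedBall
    rw [Metric.mem_closedBall, dist_zero_right, Real.norm_eq_abs, abs_le]
    simp only [hβdef]
    constructor <;> linarith [hx.1, hx.2]
  have hβ3 : ∀ x, x ∉ Icc (-(3 * (1/8:ℝ))) (3 * (1/8)) → β x = 0 := by
    intro x hx
    apply β.zero_of_le_dist
    rw [dist_zero_right, Real.norm_eq_abs]
    simp only [hβdef]
    rw [mem_Icc, ← abs_le] at hx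
    push Not at hx
    linarith
  -- constants
  set k := ∫ x, K x with hk
  have hk0 : 0 ≤ k := integral_nonneg hK.nonneg
  set G : ℝ := 2 * (1 + (k + ∫ x, |deriv (deriv K) x|)) with hG
  set Λ : ℝ := 1 + G * (∫ x, χ x) + ((∫ x, χ x) + ∫ x, |deriv (deriv χ) x|) with hΛ
  set B : ℝ := ∫ x, |deriv (deriv β) x| with hB
  -- choose ε
  obtain ⟨ε, hεpos, hε8, c1, c2, c3, c4, c5⟩ : ∃ ε : ℝ, 0 < ε ∧ ε ≤ 1 / 8 ∧
      k * (2 * ε) ≤ 1 / 2 ∧ G * (2 * ε) * (1 + k) ≤ 1 / 8 ∧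
      (Λ + G + k) * (2 * ε) ≤ 1 / 2 ∧
      2 * k * Real.sqrt (2 * ε + 2 * k * ε) ≤ 1 / 8 ∧
      ε * (4 * B + 12) ≤ 1 / 32 := by
    have ev : ∀ (F : ℝ → ℝ) (c : ℝ), Continuous F → F 0 < c → ∀ᶠ ε in 𝓝[>] (0:ℝ), F ε ≤ c := by
      intro F c hF h0
      have h1 : ∀ᶠ ε in 𝓝 (0:ℝ), F ε < c := hF.continuousAt.eventually_lt continuousAt_const h0
      exact (h1.filter_mono nhdsWithin_le_nhds).mono fun _ h => h.le
    have h0 : ∀ᶠ ε in 𝓝[>] (0:ℝ), 0 < ε := self_mem_nhdsWithin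
    have h1 := ev (fun ε => ε) (1 / 8) continuous_id (by norm_num)
    have h2 := ev (fun ε => k * (2 * ε)) (1 / 2) (by fun_prop) (by norm_num)
    have h3 := ev (fun ε => G * (2 * ε) * (1 + k)) (1 / 8) (by fun_prop) (by norm_num)
    have h4 := ev (fun ε => (Λ + G + k) * (2 * ε)) (1 / 2) (by fun_prop) (by norm_num)
    have h5 := ev (fun ε => 2 * k * Real.sqrt (2 * ε + 2 * k * ε)) (1 / 8) (by fun_prop)
      (by simp)
    have h6 := ev (fun ε => ε * (4 * B + 12)) (1 / 32) (by fun_prop) (by norm_num)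
    obtain ⟨ε, g0, g1, g2, g3, g4, g5, g6⟩ :=
      (h0.and (h1.and (h2.and (h3.and (h4.and (h5.and h6)))))).exists
    exact ⟨ε, g0, g1, g2, g3, g4, g5, g6⟩
  have hε1 : ε ≤ 1 := by linarith
  -- choose lam
  obtain ⟨lam, hlam16, l1, l2, l3⟩ : ∃ lam : ℝ, 16 ≤ lam ∧
      (-Real.log ε * CK) * (2 / lam) ≤ 1 ∧ (-Real.log ε * CK') * (2 / lam) ≤ 1 ∧
      4 / lam + 4 * ((3 * ε / lam) + 2 * Real.sqrt (3 * ε / lam)) ≤ ε / 64 := by
    have hinv : Tendsto (fun lam : ℝ => lam⁻¹) atTop (𝓝 0) := tendsto_inv_atTop_zero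
    have ev : ∀ (F : ℝ → ℝ) (c : ℝ), Continuous F → F 0 < c →
        ∀ᶠ lam in atTop, F (lam⁻¹) ≤ c := by
      intro F c hF h0
      have h1 : ∀ᶠ z in 𝓝 (0:ℝ), F z < c := hF.continuousAt.eventually_lt continuousAt_const h0
      exact (hinv.eventually h1).mono fun _ h => h.le
    have h0 : ∀ᶠ lam : ℝ in atTop, 16 ≤ lam := eventually_ge_atTop 16
    have h1 := ev (fun z => (-Real.log ε * CK) * (2 * z)) 1 (by fun_prop) (by norm_num)
    have h2 := ev (fun z => (-Real.log ε * CK') * (2 * z)) 1 (by fun_prop) (by norm_num)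
    have h3 := ev (fun z => 4 * z + 4 * ((3 * ε * z) + 2 * Real.sqrt (3 * ε * z))) (ε / 64)
      (by fun_prop) (by simp; positivity)
    obtain ⟨lam, g0, g1, g2, g3⟩ := (h0.and (h1.and (h2.and h3))).exists
    refine ⟨lam, g0, ?_, ?_, ?_⟩
    · simpa [div_eq_mul_inv] using g1
    · simpa [div_eq_mul_inv] using g2
    · simpa [div_eq_mul_inv] using g3
  have hl : 0 < lam := by linarith
  refine ⟨ε, lam, hεpos, hε8, hlam16, ?_⟩
  intro M u v hcore
  refine no_core hK hχ hχc hχK (β := β) β.contDiff β.hasCompactSupport (fun x => β.nonneg)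
    (fun x => β.le_one) hβ2 hβ3 hεpos hε8 hlam16 ?_ ?_ hG hΛ c1 c2 c3 c4 c5 ?_ hcore
  · intro x
    exact (cv_u0f_le hεpos hε1 hl hK.smooth.continuous hCK x).trans l1
  · intro x
    exact (cv_u0f_le hεpos hε1 hl hχ.continuous hχC x).trans l2
  · have hr : 0 < 3 * ε / lam := by positivity
    have := neg_mul_log_le hr
    linarith

end Pool.Agent.Lib.MP_360b3f_an
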