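import Mathlib
import Pool.Agent.Lib.MP_360b3f_an.Defs
import Pool.Agent.Lib.MP_360b3f_an.LinSol
import Pool.Agent.Lib.MP_360b3f_an.Param

set_option autoImplicit false

namespace Pool.Agent.Lib.MP_360b3f_an

open MeasureTheory Set Filter Topology Convolution
open scoped ContDiff
open Pool.Agent.MP_360b3f_an

theorem negLaplacian_real (φ : ℝ → ℝ) (x : ℝ) : negLaplacian φ x = -(deriv (deriv φ) x) := by
  unfold negLaplacian
  rw [InnerProductSpace.laplacian_eq_iteratedDeriv_real, iteratedDeriv_succ, iteratedDeriv_one]

/-- Fubini for the nonlocal adjoint. -/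
theorem adjoint_identity {K : ℝ → ℝ} (hK : Ker K) {u φ : ℝ → ℝ} {M : ℝ} (hu : Measurable u)
    (huM : ∀ x, |u x| ≤ M) (hφ : ContDiff ℝ ∞ φ) (hφc : HasCompactSupport φ) :
    ∫ x, u x * nonlocalAdjoint K φ x =
      ∫ x, ((∫ y, K y) * u x - cv u K x) * φ x := by
  have hKi : Integrable K := CoreSol.K_int hK
  have hφi : Integrable φ := int_of_cs hφ hφc
  have huφ : Integrable (fun x => u x * φ x) := bdd_mul_int hu huM hφi
  -- the double integral
  have hint : Integrable (Function.uncurry fun (x z : ℝ) => u x * K (z - x) * φ z)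
      (volume.prod volume) := by
    have h1 : Integrable (fun p : ℝ × ℝ => φ p.2 * K (p.1 - p.2)) (volume.prod volume) :=
      Integrable.convolution_integrand (ContinuousLinearMap.mul ℝ ℝ) hφi hKi
    -- swap and reflect
    have h2 : Integrable (fun p : ℝ × ℝ => φ p.2 * K (p.2 - p.1)) (volume.prod volume) := by
      have hKn : Integrable (fun x => K (-x)) := hKi.comp_neg
      have := Integrable.convolution_integrand (ContinuousLinearMap.mul ℝ ℝ) hφi hKn
        (μ := (volume : Measure ℝ)) (ν := (volume : Measure ℝ))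
      refine this.congr (Eventually.of_forall fun p => ?_)
      simp
    have h3 : Integrable (fun p : ℝ × ℝ => u p.1 * (φ p.2 * K (p.2 - p.1)))
        (volume.prod volume) := by
      refine h2.bdd_mul (c := M) (hu.comp measurable_fst).aestronglyMeasurable
        (Eventually.of_forall fun p => ?_)
      simpa using huM p.1
    refine h3.congr (Eventually.of_forall fun p => ?_)
    simp only [Function.uncurry]
    ring
  have h1 : ∀ x, ∫ y, K y * φ (x + y) = ∫ z, K (z - x) * φ z := by
    intro x
    have := integral_sub_right_eq_self (μ := (volume : Measure ℝ)) (fun y => K y * φ (x + y)) x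
    rw [← this]
    congr 1
    funext z
    congr 2
    ring
  have h2 : ∫ x, u x * (∫ y, K y * φ (x + y)) = ∫ z, cv u K z * φ z := by
    have e1 : ∀ x, u x * (∫ y, K y * φ (x + y)) = ∫ z, u x * K (z - x) * φ z := by
      intro x
      rw [h1 x, ← integral_const_mul]
      congr 1; funext z; ring
    simp_rw [e1]
    rw [integral_integral_swap hint]
    congr 1
    funext z
    rw [integral_mul_const]
    rfl
  have hint2 : Integrable (fun x => u x * (∫ y, K y * φ (x + y))) := by
    have e1 : ∀ x, u x * (∫ y, K y * φ (x + y)) = ∫ z, u x * K (z - x) * φ z := by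
      intro x
      rw [h1 x, ← integral_const_mul]
      congr 1; funext z; ring
    simp_rw [e1]
    exact hint.integral_prod_left
  have hint3 : Integrable (fun z => cv u K z * φ z) := by
    have := hint.integral_prod_right
    refine this.congr (Eventually.of_forall fun z => ?_)
    simp only [Function.uncurry]
    rw [integral_mul_const]
    rfl
  have e2 : ∫ x, u x * nonlocalAdjoint K φ x =
      ∫ x, ((∫ y, K y) * (u x * φ x) - u x * (∫ y, K y * φ (x + y))) := by
    congr 1; funext x
    unfold nonlocalAdjoint; ring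
  rw [e2, integral_sub (huφ.const_mul _) hint2, integral_const_mul, h2]
  have e3 : ∫ x, ((∫ y, K y) * u x - cv u K x) * φ x =
      ∫ x, ((∫ y, K y) * (u x * φ x) - cv u K x * φ x) := by
    congr 1; funext x; ring
  rw [e3, integral_sub (huφ.const_mul _) hint3, integral_const_mul]

/-- Fubini in time: a weak formulation gives an almost everywhere identity. -/
theorem ae_of_weak {F : ℝ → ℝ → ℝ} {w w₀ : ℝ → ℝ} {C A t : ℝ} (ht : 0 ≤ t)
    (hF : Measurable (Function.uncurry F)) (hFC : ∀ s x, |F s x| ≤ C)
    (hw : Measurable w) (hwA : ∀ x, |w x| ≤ A) (hw₀ : Measurable w₀) (hw₀A : ∀ x, |w₀ x| ≤ A)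
    (heq : ∀ φ : ℝ → ℝ, ContDiff ℝ ∞ φ → HasCompactSupport φ →
      ∫ x, w x * φ x = (∫ x, w₀ x * φ x) + ∫ s in (0:ℝ)..t, ∫ x, F s x * φ x) :
    ∀ᵐ x, w x = w₀ x + ∫ s in (0:ℝ)..t, F s x := by
  have hprim : Measurable (fun x => ∫ s in (0:ℝ)..t, F s x) :=
    (meas_primitive hF).comp (measurable_const.prodMk measurable_id)
  have hpb : ∀ x, |∫ s in (0:ℝ)..t, F s x| ≤ C * t := by
    intro x
    have := intervalIntegral.norm_integral_le_of_norm_le_const (a := 0) (b := t)
      (f := fun s => F s x) (C := C) (fun s _ => by simpa using hFC s x)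
    simpa [abs_of_nonneg ht] using this
  have hli1 : LocallyIntegrable w volume := bdd_locInt hw hwA
  have hli2 : LocallyIntegrable (fun x => w₀ x + ∫ s in (0:ℝ)..t, F s x) volume := by
    apply bdd_locInt (hw₀.add hprim) (C := A + C * t)
    intro x
    exact (abs_add_le _ _).trans (add_le_add (hw₀A x) (hpb x))
  apply ae_eq_of_integral_contDiff_smul_eq hli1 hli2
  intro φ hφ hφc
  have hφi : Integrable φ := int_of_cs hφ hφc
  simp only [smul_eq_mul]
  have e1 : ∫ x, φ x * w x = ∫ x, w x * φ x := by congr 1; funext x; ring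
  rw [e1, heq φ hφ hφc]
  have i1 : Integrable (fun x => w₀ x * φ x) := bdd_mul_int hw₀ hw₀A hφi
  have i2 : Integrable (fun x => (∫ s in (0:ℝ)..t, F s x) * φ x) := bdd_mul_int hprim hpb hφi
  have e2 : ∫ x, φ x * (w₀ x + ∫ s in (0:ℝ)..t, F s x)
      = ∫ x, (w₀ x * φ x + (∫ s in (0:ℝ)..t, F s x) * φ x) := by congr 1; funext x; ring
  rw [e2, integral_add i1 i2]
  congr 1
  -- Fubini
  have hint : Integrable (Function.uncurry fun (s x : ℝ) => F s x * φ x)
      ((volume.restrict (Ioc (0:ℝ) t)).prod volume) := by
    have i3 : Integrable (fun z : ℝ × ℝ => C * (φ z.2))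
        ((volume.restrict (Ioc (0:ℝ) t)).prod volume) :=
      Integrable.mul_prod (f := fun _ : ℝ => C) (g := φ) (integrable_const C) hφi
    refine i3.mono ?_ (Eventually.of_forall fun z => ?_)
    · apply Measurable.aestronglyMeasurable
      exact hF.mul (hφ.continuous.measurable.comp measurable_snd)
    · show ‖F z.1 z.2 * φ z.2‖ ≤ ‖C * φ z.2‖
      rw [norm_mul, norm_mul]
      apply mul_le_mul_of_nonneg_right _ (norm_nonneg _)
      simpa using (hFC z.1 z.2).trans (le_abs_self C)
  rw [intervalIntegral.integral_of_le ht, integral_integral_swap hint]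
  congr 1
  funext x
  rw [integral_mul_const, intervalIntegral.integral_of_le ht]

/-- swapping time integral and test integral -/
theorem swap_time {F : ℝ → ℝ → ℝ} {C t : ℝ} (ht : 0 ≤ t)
    (hF : Measurable (Function.uncurry F)) (hFC : ∀ s x, |F s x| ≤ C) {ψ : ℝ → ℝ}
    (hψ : Measurable ψ) (hψi : Integrable ψ) :
    ∫ s in (0:ℝ)..t, ∫ x, F s x * ψ x = ∫ x, (∫ s in (0:ℝ)..t, F s x) * ψ x := by
  have hint : Integrable (Function.uncurry fun (s x : ℝ) => F s x * ψ x)
      ((volume.restrict (Ioc (0:ℝ) t)).prod volume) := by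
    have i3 : Integrable (fun z : ℝ × ℝ => C * (ψ z.2))
        ((volume.restrict (Ioc (0:ℝ) t)).prod volume) :=
      Integrable.mul_prod (f := fun _ : ℝ => C) (g := ψ) (integrable_const C) hψi
    refine i3.mono ?_ (Eventually.of_forall fun z => ?_)
    · apply Measurable.aestronglyMeasurable
      exact hF.mul (hψ.comp measurable_snd)
    · show ‖F z.1 z.2 * ψ z.2‖ ≤ ‖C * ψ z.2‖
      rw [norm_mul, norm_mul]
      apply mul_le_mul_of_nonneg_right _ (norm_nonneg _)
      simpa using (hFC z.1 z.2).trans (le_abs_self C)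
  rw [intervalIntegral.integral_of_le ht, integral_integral_swap hint]
  congr 1
  funext x
  rw [integral_mul_const, intervalIntegral.integral_of_le ht]

/-- Reduction of a bounded weak solution to a `CoreSol`. -/
theorem weak_to_core {K u₀ : ℝ → ℝ} {T A : ℝ} {u v : ℝ → ℝ → ℝ} (hK : Ker K) (hT : 0 ≤ T)
    (hu₀ : Measurable u₀) (hA : ∀ x, |u₀ x| ≤ A)
    (h : IsBoundedWeakSolution (nonlocalAdjoint K) negLaplacian Real.exp u₀ T u v) :
    ∃ (M : ℝ) (u' v' : ℝ → ℝ → ℝ), CoreSol K u₀ T M u' v' := by
  obtain ⟨M₀, hM₀⟩ := h.bounded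
  set M := max M₀ 0 with hM
  have hM0 : 0 ≤ M := le_max_right _ _
  have hb : ∀ t ∈ Icc (0:ℝ) T, ∀ᵐ x, 0 ≤ u t x ∧ u t x ≤ M ∧ |v t x| ≤ M := by
    intro t ht
    filter_upwards [hM₀ t ht] with x hx
    exact ⟨hx.1, hx.2.1.trans (le_max_left _ _), hx.2.2.trans (le_max_left _ _)⟩
  -- clipped functions
  set uc : ℝ → ℝ → ℝ := fun t x => max 0 (min M (u t x)) with huc
  set w : ℝ → ℝ → ℝ := fun t x => max (-M) (min M (v t x)) with hw
  have hucm : Measurable (Function.uncurry uc) :=
    measurable_const.max (measurable_const.min h.measurable_u)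
  have hwm : Measurable (Function.uncurry w) :=
    measurable_const.max (measurable_const.min h.measurable_v)
  have huc0 : ∀ t x, 0 ≤ uc t x := fun t x => le_max_left _ _
  have hucM : ∀ t x, uc t x ≤ M := fun t x => max_le hM0 (min_le_left _ _)
  have hwM : ∀ t x, |w t x| ≤ M := by
    intro t x
    rw [abs_le]
    exact ⟨le_max_left _ _, max_le (by linarith) (min_le_left _ _)⟩
  have huceq : ∀ t ∈ Icc (0:ℝ) T, ∀ᵐ x, uc t x = u t x := by
    intro t ht
    filter_upwards [hb t ht] with x hx
    simp only [huc]
    rw [min_eq_right hx.2.1, max_eq_right hx.1]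
  have hweq : ∀ t ∈ Icc (0:ℝ) T, ∀ᵐ x, w t x = v t x := by
    intro t ht
    filter_upwards [hb t ht] with x hx
    have := abs_le.1 hx.2.2
    simp only [hw]
    rw [min_eq_right this.2, max_eq_right this.1]
  have hmem : ∀ {t : ℝ}, t ∈ Icc (0:ℝ) T → ∀ s ∈ uIcc (0:ℝ) t, s ∈ Icc (0:ℝ) T := by
    intro t ht s hs
    rw [uIcc_of_le ht.1] at hs
    exact ⟨hs.1, hs.2.trans ht.2⟩
  -- the linear problem for `w`
  have hlin : LinSol T (Real.exp M) M (fun t x => Real.exp (uc t x)) w := by
    refine ⟨Real.measurable_exp.comp hucm, hwm, hwM, fun t x => (Real.exp_pos _).le,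
      fun t x => Real.exp_le_exp.2 (hucM t x), ?_⟩
    intro φ hφ hφc t ht
    have e := h.weak_v φ hφ hφc t ht
    have e1 : ∫ x, w t x * φ x = ∫ x, v t x * φ x := by
      apply integral_congr_ae
      filter_upwards [hweq t ht] with x hx
      rw [hx]
    rw [e1, e]
    congr 1
    apply intervalIntegral.integral_congr
    intro s hs
    simp only
    apply integral_congr_ae
    filter_upwards [hweq s (hmem ht s hs), huceq s (hmem ht s hs)] with x hx hx'
    rw [hx, hx', negLaplacian_real]
    ring
  have hv0 := hlin.nonneg hT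
  have hv1 := hlin.le_one hT
  -- final clipped v
  set vc : ℝ → ℝ → ℝ := fun t x => max 0 (min 1 (v t x)) with hvc
  have hvcm : Measurable (Function.uncurry vc) :=
    measurable_const.max (measurable_const.min h.measurable_v)
  have hvc0 : ∀ t x, 0 ≤ vc t x := fun t x => le_max_left _ _
  have hvc1 : ∀ t x, vc t x ≤ 1 := fun t x => max_le zero_le_one (min_le_left _ _)
  have hvceq : ∀ t ∈ Icc (0:ℝ) T, ∀ᵐ x, vc t x = v t x := by
    intro t ht
    filter_upwards [hv0 t ht, hv1 t ht, hweq t ht] with x h0 h1 h2
    rw [h2] at h0 h1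
    simp only [hvc]
    rw [min_eq_right h1, max_eq_right h0]
  have hhm : Measurable (Function.uncurry fun s x => vc s x * Real.exp (uc s x)) :=
    hvcm.mul (Real.measurable_exp.comp hucm)
  have hhb : ∀ s x, |vc s x * Real.exp (uc s x)| ≤ Real.exp M := by
    intro s x
    rw [abs_of_nonneg (mul_nonneg (hvc0 s x) (Real.exp_pos _).le)]
    calc vc s x * Real.exp (uc s x) ≤ 1 * Real.exp (uc s x) :=
          mul_le_mul_of_nonneg_right (hvc1 s x) (Real.exp_pos _).le
      _ ≤ Real.exp M := by rw [one_mul]; exact Real.exp_le_exp.2 (hucM s x)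
  have hucabs : ∀ s x, |uc s x| ≤ M := fun s x => by
    rw [abs_of_nonneg (huc0 s x)]; exact hucM s x
  have hucmt : ∀ s, Measurable (uc s) := fun s => hucm.comp (measurable_const.prodMk measurable_id)
  have hvcmt : ∀ s, Measurable (vc s) := fun s => hvcm.comp (measurable_const.prodMk measurable_id)
  have hKi : Integrable K := CoreSol.K_int hK
  refine ⟨M, uc, vc, hucm, hvcm, huc0, hucM, hvc0, hvc1, ?_, ?_⟩
  · -- equation for u
    intro t ht
    set F : ℝ → ℝ → ℝ := fun s x =>
      (cv (uc s) K x - (∫ y, K y) * uc s x + vc s x * Real.exp (uc s x)) with hF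
    have hgm : Measurable (fun p : ℝ × ℝ => cv (uc p.1) K p.2) := by
      have h1 : Measurable (Function.uncurry
          (fun (p : ℝ × ℝ) (y : ℝ) => uc p.1 y * K (p.2 - y))) := by
        apply Measurable.mul
        · exact hucm.comp (f := fun z : (ℝ × ℝ) × ℝ => (z.1.1, z.2)) (by fun_prop)
        · exact hK.smooth.continuous.measurable.comp (by fun_prop)
      exact h1.stronglyMeasurable.integral_prod_right.measurable
    have hFm : Measurable (Function.uncurry F) := (hgm.sub (hucm.const_mul _)).add hhm
    have hFC : ∀ s x, |F s x| ≤ M * (∫ y, |K y|) + |∫ y, K y| * M + Real.exp M := by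
      intro s x
      simp only [hF]
      have e1 := LinSol.cv_abs_le (hucmt s) (hucabs s) hKi x
      have e2 : |(∫ y, K y) * uc s x| ≤ |∫ y, K y| * M := by
        rw [abs_mul]
        exact mul_le_mul_of_nonneg_left (hucabs s x) (abs_nonneg _)
      refine (abs_add_le _ _).trans (add_le_add ?_ (hhb s x))
      exact (abs_sub _ _).trans (add_le_add e1 e2)
    have hA' : ∀ x, |u₀ x| ≤ max A M := fun x => (hA x).trans (le_max_left _ _)
    apply ae_of_weak ht.1 hFm hFC (hucmt t) (fun x => (hucabs t x).trans (le_max_right A M)) hu₀ hA'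
    intro φ hφ hφc
    have hφi : Integrable φ := int_of_cs hφ hφc
    have e := h.weak_u φ hφ hφc t ht
    have e1 : ∫ x, uc t x * φ x = ∫ x, u t x * φ x := by
      apply integral_congr_ae
      filter_upwards [huceq t ht] with x hx
      rw [hx]
    rw [e1, e]
    congr 1
    apply intervalIntegral.integral_congr
    intro s hs
    simp only
    have e2 : ∫ x, (v s x * Real.exp (u s x) * φ x - u s x * nonlocalAdjoint K φ x) =
        ∫ x, (vc s x * Real.exp (uc s x) * φ x - uc s x * nonlocalAdjoint K φ x) := by
      apply integral_congr_ae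
      filter_upwards [hvceq s (hmem ht s hs), huceq s (hmem ht s hs)] with x hx hx'
      rw [hx, hx']
    rw [e2]
    have hms : Measurable (fun x => vc s x * Real.exp (uc s x)) :=
      hhm.comp (measurable_const.prodMk measurable_id)
    have i1 : Integrable (fun x => vc s x * Real.exp (uc s x) * φ x) :=
      bdd_mul_int hms (hhb s) hφi
    have hadj := adjoint_identity hK (hucmt s) (hucabs s) hφ hφc
    -- integrability of the adjoint term
    have hcvm : Measurable (cv (uc s) K) := hgm.comp (measurable_const.prodMk measurable_id)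
    have hGm : Measurable (fun x => (∫ y, K y) * uc s x - cv (uc s) K x) :=
      ((hucmt s).const_mul _).sub hcvm
    have hGb : ∀ x, |(∫ y, K y) * uc s x - cv (uc s) K x| ≤
        |∫ y, K y| * M + M * (∫ y, |K y|) := by
      intro x
      have e1 := LinSol.cv_abs_le (hucmt s) (hucabs s) hKi x
      have e2 : |(∫ y, K y) * uc s x| ≤ |∫ y, K y| * M := by
        rw [abs_mul]
        exact mul_le_mul_of_nonneg_left (hucabs s x) (abs_nonneg _)
      exact (abs_sub _ _).trans (add_le_add e2 e1)
    have i2 : Integrable (fun x => ((∫ y, K y) * uc s x - cv (uc s) K x) * φ x) :=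
      bdd_mul_int hGm hGb hφi
    have i3 : Integrable (fun x => uc s x * nonlocalAdjoint K φ x) := by
      have hadjcont : Integrable (nonlocalAdjoint K φ) := by
        unfold nonlocalAdjoint
        apply (hφi.const_mul _).sub
        have e3 : ∀ x, ∫ y, K y * φ (x + y) = cv φ (fun y => K (-y)) x := by
          intro x
          unfold cv
          rw [← integral_sub_right_eq_self (μ := (volume : Measure ℝ))
            (fun y => K y * φ (x + y)) x]
          congr 1
          funext z
          have h1 : x + (z - x) = z := by ring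
          have h2 : -(x - z) = z - x := by ring
          show K (z - x) * φ (x + (z - x)) = φ z * K (-(x - z))
          rw [h1, h2]; ring
        simp_rw [e3]
        rw [cv_eq]
        exact hφi.integrable_convolution _ hKi.comp_neg
      exact bdd_mul_int (hucmt s) (hucabs s) hadjcont
    rw [integral_sub i1 i3, hadj, ← integral_sub i1 i2]
    congr 1
    funext x
    simp only [hF]
    ring
  · -- equation for v
    intro φ hφ hφc t ht
    have hφi : Integrable φ := int_of_cs hφ hφc
    have hφ''i : Integrable (deriv (deriv φ)) :=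
      int_of_cs (contDiff_deriv (contDiff_deriv hφ)) (cs_deriv (cs_deriv hφc))
    have e := h.weak_v φ hφ hφc t ht
    have e1 : ∫ x, vc t x * φ x = ∫ x, v t x * φ x := by
      apply integral_congr_ae
      filter_upwards [hvceq t ht] with x hx
      rw [hx]
    rw [e1, e, add_sub_assoc]
    congr 1
    have hvcabs : ∀ s x, |vc s x| ≤ 1 := fun s x => by
      rw [abs_of_nonneg (hvc0 s x)]; exact hvc1 s x
    have s1 := swap_time ht.1 hvcm hvcabs
      (contDiff_deriv (contDiff_deriv hφ)).continuous.measurable hφ''i
    have s2 := swap_time (F := fun s x => vc s x * Real.exp (uc s x)) ht.1 hhm hhb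
      hφ.continuous.measurable hφi
    rw [← s1, ← s2]
    have hms : ∀ s, Measurable (fun x => vc s x * Real.exp (uc s x)) := fun s =>
      hhm.comp (measurable_const.prodMk measurable_id)
    have e2 : ∫ s in (0:ℝ)..t, ∫ x, (-(v s x * Real.exp (u s x) * φ x)
        - v s x * negLaplacian φ x) =
        ∫ s in (0:ℝ)..t, ((∫ x, vc s x * deriv (deriv φ) x)
          - ∫ x, vc s x * Real.exp (uc s x) * φ x) := by
      apply intervalIntegral.integral_congr
      intro s hs
      simp only
      rw [← integral_sub (bdd_mul_int (hvcmt s) (hvcabs s) hφ''i)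
        (bdd_mul_int (hms s) (hhb s) hφi)]
      apply integral_congr_ae
      filter_upwards [hvceq s (hmem ht s hs), huceq s (hmem ht s hs)] with x hx hx'
      rw [hx, hx', negLaplacian_real]
      ring
    rw [e2]
    -- integrability in time
    have j1 : IntervalIntegrable (fun s => ∫ x, vc s x * deriv (deriv φ) x) volume 0 t := by
      have m1 : Measurable (fun s => ∫ x, vc s x * deriv (deriv φ) x) := by
        have h1 : Measurable (Function.uncurry (fun (s : ℝ) (x : ℝ) =>
            vc s x * deriv (deriv φ) x)) :=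
          hvcm.mul ((contDiff_deriv (contDiff_deriv hφ)).continuous.measurable.comp measurable_snd)
        exact h1.stronglyMeasurable.integral_prod_right.measurable
      refine IntervalIntegrable.mono_fun (f := fun _ => 1 * ∫ x, |deriv (deriv φ) x|)
        intervalIntegrable_const m1.aestronglyMeasurable (Eventually.of_forall fun s => ?_)
      have e3 : ‖∫ x, vc s x * deriv (deriv φ) x‖ ≤ 1 * ∫ x, |deriv (deriv φ) x| := by
        rw [Real.norm_eq_abs]
        refine abs_integral_le_integral_abs.trans ?_
        rw [← integral_const_mul]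
        apply integral_mono (bdd_mul_int (hvcmt s) (hvcabs s) hφ''i).abs (hφ''i.abs.const_mul 1)
        intro x
        simp only
        rw [abs_mul]
        exact mul_le_mul_of_nonneg_right (hvcabs s x) (abs_nonneg _)
      exact e3.trans (le_abs_self _)
    have j2 : IntervalIntegrable (fun s => ∫ x, vc s x * Real.exp (uc s x) * φ x) volume 0 t := by
      have m1 : Measurable (fun s => ∫ x, vc s x * Real.exp (uc s x) * φ x) := by
        have h1 : Measurable (Function.uncurry (fun (s : ℝ) (x : ℝ) =>
            vc s x * Real.exp (uc s x) * φ x)) :=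
          hhm.mul (hφ.continuous.measurable.comp measurable_snd)
        exact h1.stronglyMeasurable.integral_prod_right.measurable
      refine IntervalIntegrable.mono_fun (f := fun _ => Real.exp M * ∫ x, |φ x|)
        intervalIntegrable_const m1.aestronglyMeasurable (Eventually.of_forall fun s => ?_)
      have e3 : ‖∫ x, vc s x * Real.exp (uc s x) * φ x‖ ≤ Real.exp M * ∫ x, |φ x| := by
        rw [Real.norm_eq_abs]
        refine abs_integral_le_integral_abs.trans ?_
        rw [← integral_const_mul]
        apply integral_mono (bdd_mul_int (hms s) (hhb s) hφi).abs (hφi.abs.const_mul _)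
        intro x
        simp only
        rw [abs_mul]
        exact mul_le_mul_of_nonneg_right (hhb s x) (abs_nonneg _)
      exact e3.trans (le_abs_self _)
    rw [intervalIntegral.integral_sub j1 j2]

end Pool.Agent.Lib.MP_360b3f_an
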